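import Pool.Agent.P.MP_40718a_co.Bc.Iface

section
/-! Step PAT. -/

set_option linter.unusedSectionVars false

namespace Pool.Agent.P.MP_40718a_co.Bc

open Finset ABF

theorem p_PAT :
    S_PAT := by
  intro V E _ _ _ _ s t H n A J hc hH hJ hA
  classical
  have h1 := cnt_exists_le (univ.filter fun e => s e ∈ J ∨ t e ∈ J) fun e i => e ∈ A i
  have h2 := h1.trans (sum_le_card_nsmul _ _ _ fun e _ => hA e)
  have h3 := meet_card_le hc J
  have h4 := cnt_add_not fun i : Fin H × Fin H =>
    ∃ e ∈ univ.filter fun e => s e ∈ J ∨ t e ∈ J, e ∈ A i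
  rw [Fintype.card_prod, Fintype.card_fin, cnt_eq (fun i => ¬ _)] at h4
  rw [smul_eq_mul] at h2
  have h5 := Nat.mul_le_mul_right (5 * H) (h3.trans (Nat.mul_le_mul_left 3 hJ))
  have h6 := Nat.mul_le_mul_right H hH
  obtain ⟨S, hS, e⟩ := exists_subset_card_eq (n := 240 * H) (Nat.le_of_add_le_add_left
    (le_trans (Nat.add_le_add_right (h2.trans h5) _) (le_trans (by nlinarith) h4.ge)))
  refine ⟨fun i => (S.equivFinOfCardEq e).symm i,
    Subtype.val_injective.comp (Equiv.injective _), fun i f hf => ?_⟩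
  have := (mem_filter.1 (hS ((S.equivFinOfCardEq e).symm i).2)).2
  exact not_or.1 fun c => this ⟨f, mem_filter.2 ⟨mem_univ _, c⟩, hf⟩

end Pool.Agent.P.MP_40718a_co.Bc

end

section
/-! Step COL. -/

set_option linter.unusedSectionVars false

namespace Pool.Agent.P.MP_40718a_co.Bc

open Finset ABF

/-- greedy colouring of a symmetric conflict relation of bounded degree -/
theorem col_greedy {E : Type} [Fintype E] [DecidableEq E] (R : E → E → Prop) [DecidableRel R]
    (hs : ∀ a b, R a b → R b a) (D : ℕ) (hD : ∀ a, (univ.filter fun b => R a b).card ≤ D)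
    (T : Finset E) :
    ∃ col : E → Fin (D + 1), ∀ a ∈ T, ∀ b ∈ T, a ≠ b → col a = col b → ¬ R a b := by
  induction T using Finset.induction_on with
  | empty => exact ⟨fun _ => 0, by simp⟩
  | insert e T he ih =>
    obtain ⟨col, hcol⟩ := ih
    have h1 : ((univ.filter fun b => R e b).image col).card < (univ : Finset (Fin (D + 1))).card := by
      rw [card_univ, Fintype.card_fin]
      exact Nat.lt_succ_of_le (card_image_le.trans (hD e))
    obtain ⟨x, -, hx⟩ := exists_mem_notMem_of_card_lt_card h1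
    have hx' : ∀ b, R e b → col b ≠ x := fun b hb h =>
      hx (mem_image.2 ⟨b, mem_filter.2 ⟨mem_univ _, hb⟩, h⟩)
    refine ⟨Function.update col e x, fun a ha b hb hab h hR => ?_⟩
    rcases mem_insert.1 ha with rfl | ha' <;> rcases mem_insert.1 hb with rfl | hb'
    · exact hab rfl
    · rw [Function.update_self, Function.update_of_ne hab.symm] at h
      exact hx' b hR h.symm
    · rw [Function.update_self, Function.update_of_ne hab] at h
      exact hx' a (hs _ _ hR) h
    · rw [Function.update_of_ne (ne_of_mem_of_not_mem ha' he),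
        Function.update_of_ne (ne_of_mem_of_not_mem hb' he)] at h
      exact hcol a ha' b hb' hab h hR

theorem p_COL :
    S_COL := by
  intro r
  refine ⟨3 * (2 * 4 ^ (r + r)) + 1, fun V E _ _ _ _ s t h => ?_⟩
  classical
  obtain ⟨col, hcol⟩ := col_greedy
    (fun c c' : E => ¬ Disjoint (ball s t (ends s t c) r) (ball s t (ends s t c') r))
    (fun a b hab h' => hab h'.symm) (3 * (2 * 4 ^ (r + r))) (fun a => by
      refine le_trans (card_le_card ?_) ((meet_card_le h (ball s t (ends s t a) (r + r))).trans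
        (Nat.mul_le_mul_left 3 ((ball_card h _ _).trans
          (Nat.mul_le_mul_right _ (ends_card a)))))
      intro b hb
      obtain ⟨v, h1, h2⟩ := not_disjoint_iff.1 (mem_filter.1 hb).2
      obtain ⟨x, hx, h3⟩ := mem_ball_iff.1 h2
      have h4 := ball_trans h1 (ball_symm h3)
      refine mem_filter.2 ⟨mem_univ _, ?_⟩
      rcases mem_ends.1 hx with rfl | rfl
      · exact Or.inl h4
      · exact Or.inr h4) univ
  exact ⟨col, fun c c' hc he => not_not.1 (hcol c (mem_univ _) c' (mem_univ _) hc he)⟩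

end Pool.Agent.P.MP_40718a_co.Bc

end

section
/-! Step M4. -/

set_option linter.unusedSectionVars false

namespace Pool.Agent.P.MP_40718a_co.Bc

open Finset ABF

theorem m4_small {V E : Type} [Fintype V] [Fintype E] [DecidableEq V] [DecidableEq E]
    {s t : E → V} {β : ℕ → ℕ} {κ : ℕ} (h : Beta s t β κ) {j : ℕ} (hj : j < κ) :
    Small s t j ((range (j + 1)).sup β) := by
  intro X hX
  have : β (cut s t X).card ≤ (range (j + 1)).sup β := le_sup (f := β) (mem_range.2 (by omega))
  exact (h X (by omega)).imp (·.trans this) (·.trans this)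

theorem m4_cnt {I J : Type} [Fintype I] [Fintype J] {τ : I → J} (h : Function.Injective τ)
    (P : J → Prop) : cnt (fun i => P (τ i)) ≤ cnt P := by
  classical
  rw [cnt_eq, cnt_eq]
  exact card_le_card_of_injOn τ (fun i hi => by simpa using hi) h.injOn

theorem p_M4 (hPRE : S_PRE) (hSK : S_SK) (hPAT : S_PAT) (hCOL : S_COL) (hCLS : S_CLS)
    (hCOV : S_COV) :
    S_M4 := by
  intro β
  set bs : ℕ → ℕ := fun j => (range (j + 1)).sup β with hbs
  obtain ⟨q, a, n, κ1, hq, hpre⟩ := hPRE bs 96 (by norm_num)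
  obtain ⟨H, hH⟩ : ∃ H, H = 240 + 15 * n := ⟨_, rfl⟩
  obtain ⟨ρ, hρ⟩ : ∃ ρ, ρ = 4 * (H * (bs H + 1)) := ⟨_, rfl⟩
  obtain ⟨r, hr⟩ : ∃ r, r = a + (3 * n + 4) * (2 * ρ + 2) := ⟨_, rfl⟩
  obtain ⟨K1, hcls⟩ := hCLS q 96 (240 * H)
  obtain ⟨d, hcol⟩ := hCOL r
  obtain ⟨n0, hn0⟩ : ∃ n0, n0 = 2 * 4 ^ r + n + bs 5 + 4 ^ (H * (bs H + 1)) := ⟨_, rfl⟩
  refine ⟨κ1 + H + 6, Fintype.card ((Fin (240 * H) → Fin H × Fin H) × Fin d × Option (Fin K1)) +
    2 * n0, ?_⟩
  intro V E _ _ _ _ s t hc h3 hβ
  classical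
  have e3 := ec3_of_small hc h3
  obtain ⟨c1, -, c3⟩ := hCOV V E s t hc (e3.mono (by omega))
  by_cases hV : Fintype.card V ≤ n0
  · exact c3 _ (by omega)
  have hsm : ∀ j < κ1 + H + 6, Small s t j (bs j) := fun j hj => m4_small hβ hj
  have hΩ : ∀ c, n + bs 5 < (ball s t (ends s t c) r)ᶜ.card := by
    intro c
    have a1 := card_add_card_compl (ball s t (ends s t c) r)
    have a2 := (ball_card hc (ends s t c) r).trans (Nat.mul_le_mul_right _ (ends_card c))
    have a3 := Nat.zero_le (4 ^ (H * (bs H + 1)))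
    omega
  have hP : ∀ c, ∃ I J φ, Pre s t q 96 a (bs 5) n c (ball s t (ends s t c) r) I J φ := fun c =>
    hpre V E s t c _ hc e3 (fun j hj => hsm j (by omega)) (ball_mono_r (by omega))
      (by have := hΩ c; omega)
  choose I J φ hP using hP
  obtain ⟨A, Z, hA, hld⟩ := hSK V E s t H (bs H) hc (e3.mono (by omega)) (hsm H (by omega))
    (by have := Nat.zero_le (4 ^ r); omega)
  have hT := fun c => hPAT V E s t H n A (J c) hc hH.ge (hP c).2.2.2.2.2.1 hld
  choose pat hinj hpat using hT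
  obtain ⟨col, hcol⟩ := hcol V E s t hc
  obtain ⟨M0, hM0, -⟩ := c3 (2 * Fintype.card V + 1) (by omega)
  have key : ∀ (τ : Fin (240 * H) → Fin H × Fin H) (δ : Fin d), ∃ cls : E → Option (Fin K1),
      ∀ κ, ∃ M, PM s t M ∧ ∀ c, pat c = τ → col c = δ → cls c = κ → c ∈ M := by
    intro τ δ
    by_cases hτ : Function.Injective τ
    · obtain ⟨cls, h⟩ := hcls V E s t (5 * H) a (3 * n + 4) ρ (bs 5) n
        (univ.filter fun c => pat c = τ ∧ col c = δ) I J φ (fun i => A (τ i)) (fun i => Z (τ i))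
        hc h3 (hsm 5 (by omega)) hq le_rfl (by omega) (by omega) (by omega) (by omega)
        (fun c _ => by rw [← hr]; exact ⟨hP c, by have := hΩ c; omega⟩)
        (fun c h1 c' h2 hne => by
          rw [← hr]
          exact hcol c c' hne ((mem_filter.1 h1).2.2.trans (mem_filter.1 h2).2.2.symm))
        (fun i => ⟨(hA _).1, hρ ▸ (hA _).2, fun c h1 => by
          rw [← (mem_filter.1 h1).2.1]; exact hpat c i⟩)
        fun e => (m4_cnt hτ fun i => e ∈ A i).trans (hld e)
      refine ⟨fun c => some (cls c), fun κ => ?_⟩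
      cases κ with
      | none => exact ⟨M0 0, hM0 0, fun c _ _ h => by simp at h⟩
      | some κ =>
        obtain ⟨M, h1, h2⟩ := h κ
        exact ⟨M, h1, fun c a1 a2 a3 => h2 c (by simp [a1, a2]) (by simpa using a3)⟩
    · exact ⟨fun _ => none, fun _ => ⟨M0 0, hM0 0, fun c h => absurd (h ▸ hinj c) hτ⟩⟩
  choose cls hcls' using key
  refine c1 _ (fun c => (pat c, col c, cls (pat c) (col c) c)) _ (Nat.le_add_right _ _) ?_
  rintro ⟨τ, δ, κ⟩
  obtain ⟨M, h1, h2⟩ := hcls' τ δ κ
  refine ⟨M, h1, fun c h => ?_⟩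
  simp only [Prod.mk.injEq] at h
  obtain ⟨rfl, rfl, h⟩ := h
  exact h2 c rfl rfl h

end Pool.Agent.P.MP_40718a_co.Bc

end

section
/-! Step PART. -/

set_option linter.unusedSectionVars false

namespace Pool.Agent.P.MP_40718a_co.Bc

open Finset ABF

section aux

variable {V E : Type} [Fintype V] [Fintype E] [DecidableEq V] [DecidableEq E]

/-- all fibres are small and have a cut with three edges -/
def part_ok (s t : E → V) (b : ℕ) (π : V → V) : Prop :=
  ∀ v, (cut s t (univ.filter fun u => π u = π v)).card = 3 ∧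
    (univ.filter fun u => π u = π v).card ≤ b

theorem part_merge {s t : E → V} {b : ℕ} {π : V → V} (h : part_ok s t b π) {X : Finset V}
    (hs : ∀ u v, π u = π v → u ∈ X → v ∈ X) (h3 : (cut s t X).card = 3) (hb : X.card ≤ b)
    {x y : V} (hx : x ∈ X) (hy : y ∈ X) (hxy : π x ≠ π y) :
    ∃ π', part_ok s t b π' ∧ (univ.image π').card < (univ.image π).card := by
  refine ⟨fun v => if v ∈ X then π x else π v, fun v => ?_, ?_⟩
  · by_cases hv : v ∈ X
    · have : (univ.filter fun u => (if u ∈ X then π x else π u) =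
          if v ∈ X then π x else π v) = X := by
        ext u
        by_cases hu : u ∈ X
        · simp [hu, hv]
        · simpa [hu, hv] using fun e => hu (hs x u e.symm hx)
      rw [this]
      exact ⟨h3, hb⟩
    · have : (univ.filter fun u => (if u ∈ X then π x else π u) =
          if v ∈ X then π x else π v) = univ.filter fun u => π u = π v := by
        ext u
        by_cases hu : u ∈ X
        · simpa [hu, hv] using iff_of_false (fun e => hv (hs x v e hx)) fun e => hv (hs u v e hu)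
        · simp [hu, hv]
      rw [this]
      exact h v
  · refine (card_le_card fun w hw => ?_).trans_lt
      (card_erase_lt_of_mem (mem_image_of_mem π (mem_univ y)))
    obtain ⟨u, -, rfl⟩ := mem_image.1 hw
    split_ifs with hu
    · exact mem_erase.2 ⟨hxy, mem_image_of_mem π (mem_univ x)⟩
    · exact mem_erase.2 ⟨fun e => hu (hs y u e.symm hy), mem_image_of_mem π (mem_univ u)⟩

end aux

theorem p_PART :
    S_PART := by
  intro V E _ _ _ _ s t b hc h2 hsm hb hV
  obtain ⟨π, hπ, hmin⟩ := exists_min_image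
    (@filter _ (part_ok s t b) (Classical.decPred _) univ) (fun π => (univ.image π).card)
    ⟨id, by
      simp only [mem_filter, mem_univ, true_and]
      intro v
      simp [filter_eq', hc.card_cut_singleton, hb]⟩
  simp only [mem_filter, mem_univ, true_and] at hπ hmin
  have key : ∀ X : Finset V, (∀ u v, π u = π v → u ∈ X → v ∈ X) → (cut s t X).card ≤ 3 →
      X.card ≤ b → (X.image π).card ≤ 1 := by
    intro X hs h3 hX
    by_contra! hn
    obtain ⟨x', hx', y', hy', hxy⟩ := one_lt_card.1 hn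
    obtain ⟨x, hx, rfl⟩ := mem_image.1 hx'
    obtain ⟨y, hy, rfl⟩ := mem_image.1 hy'
    have mg : ∀ Y : Finset V, (∀ u v, π u = π v → u ∈ Y → v ∈ Y) → (cut s t Y).card = 3 →
        Y.card ≤ b → X ⊆ Y → False := fun Y a1 a2 a3 a4 => by
      obtain ⟨π', b1, b2⟩ := part_merge hπ a1 a2 a3 (a4 hx) (a4 hy) hxy
      exact b2.not_ge (hmin π' b1)
    have ec : ∀ Y : Finset V, X ⊆ Y → Y.card ≤ 2 * b → 2 ≤ (cut s t Y).card := fun Y a1 a2 =>
      h2 Y ⟨x, a1 hx⟩ fun e => by rw [e, card_univ] at a2; omega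
    have c2 : (cut s t X).card = 2 := by
      have := ec X Subset.rfl (by omega)
      have : (cut s t X).card ≠ 3 := fun e => mg X hs e hX Subset.rfl
      omega
    obtain ⟨e, he⟩ := card_pos.1 (show 0 < (cut s t X).card by omega)
    obtain ⟨w, hw, hw'⟩ : ∃ w ∉ X, (s e = w ∧ t e ∈ X) ∨ (t e = w ∧ s e ∈ X) := by
      rw [mem_cut] at he
      by_cases h : s e ∈ X
      · exact ⟨t e, by tauto, .inr ⟨rfl, h⟩⟩
      · exact ⟨s e, h, .inl ⟨rfl, by tauto⟩⟩
    obtain ⟨p3, pb⟩ := hπ w
    generalize hP : (univ.filter fun u => π u = π w) = P at p3 pb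
    have mP : ∀ u, u ∈ P ↔ π u = π w := fun u => by simp [← hP]
    have dj : ∀ u ∈ X, u ∉ P := fun u hu h => hw (hs u w ((mP u).1 h) hu)
    have wP : w ∈ P := (mP w).2 rfl
    have eP : e ∈ cut s t P := by
      rw [mem_cut]
      rcases hw' with ⟨rfl, h⟩ | ⟨rfl, h⟩ <;> simp [wP, dj _ h]
    have cu := card_union_of_disjoint (disjoint_left.2 dj)
    have c3 : (cut s t (X ∪ P)).card ≤ 3 := by
      have : cut s t (X ∪ P) ⊆ (cut s t X).erase e ∪ (cut s t P).erase e := fun f hf => by
        have : f ≠ e := by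
          rintro rfl
          rcases hw' with ⟨rfl, h⟩ | ⟨rfl, h⟩ <;> simp [wP, h] at hf
        simp only [mem_cut, mem_union, mem_erase] at hf ⊢
        tauto
      have := (card_le_card this).trans (card_union_le _ _)
      rw [card_erase_of_mem he, card_erase_of_mem eP] at this
      omega
    have q1 := hc.cut_parity X
    have q2 := hc.cut_parity P
    have q3 := hc.cut_parity (X ∪ P)
    have q4 := ec (X ∪ P) subset_union_left (by omega)
    have q5 := card_add_card_compl (X ∪ P)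
    rw [Nat.even_iff] at q1 q2 q3
    refine mg (X ∪ P) (fun u v a h => ?_) (by omega) ((hsm _ c3).elim id fun h => by omega)
      subset_union_left
    exact mem_union.2 ((mem_union.1 h).imp (hs u v a) fun h => (mP v).2 (a ▸ (mP u).1 h))
  refine ⟨π, hπ, fun X hs h3 => (hsm X h3).imp (key X hs h3) (key Xᶜ (fun u v a h => ?_) ?_)⟩
  · exact mem_compl.2 fun h' => mem_compl.1 h (hs v u a.symm h')
  · rwa [cut_compl]

end Pool.Agent.P.MP_40718a_co.Bc

end

section
/-! Step EXT. -/

set_option linter.unusedSectionVars false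

namespace Pool.Agent.P.MP_40718a_co.Bc

open Finset ABF

theorem ext_inj {E : Type} [DecidableEq E] (A : Finset E) (n : ℕ) (h : A.card ≤ n + 1) :
    ∃ ι : E → Fin (n + 1), ∀ e ∈ A, ∀ f ∈ A, ι e = ι f → e = f := by
  have h1 : Fintype.card A ≤ Fintype.card (Fin (n + 1)) := by simpa using h
  obtain ⟨g⟩ := Function.Embedding.nonempty_of_card_le h1
  refine ⟨fun e => if he : e ∈ A then g ⟨e, he⟩ else 0, fun e he f hf hef => ?_⟩
  simp only [dif_pos he, dif_pos hf] at hef
  exact congrArg Subtype.val (g.injective hef)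

theorem ext_one {V E : Type} [Fintype V] [Fintype E] [DecidableEq V] [DecidableEq E]
    {s t : E → V} {P : Finset V} {T : Finset E} {R : Type} (ι : E → R)
    (hι : ∀ e ∈ ins s t P, ∀ f ∈ ins s t P, ι e = ι f → e = f)
    (h1 : ∀ e, ∃ M, PM s t M ∧ e ∈ M ∧ (M ∩ cut s t P).card = 1)
    (hT : (T ∩ cut s t P).card = 1) (r : R) :
    ∃ N, PM s t N ∧ N ∩ cut s t P = T ∩ cut s t P ∧ ∀ e ∈ ins s t P, ι e = r →
      (∃ N', PM s t N' ∧ N' ∩ cut s t P = T ∩ cut s t P ∧ e ∈ N') → e ∈ N := by
  by_cases h : ∃ e ∈ ins s t P, ι e = r ∧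
      ∃ N', PM s t N' ∧ N' ∩ cut s t P = T ∩ cut s t P ∧ e ∈ N'
  · obtain ⟨e, he, hr, N, hN, hNT, heN⟩ := h
    refine ⟨N, hN, hNT, fun e' he' hr' _ => ?_⟩
    rw [hι e' he' e he (hr'.trans hr.symm)]
    exact heN
  · obtain ⟨f, hf⟩ := card_eq_one.1 hT
    obtain ⟨N, hN, hfN, hc⟩ := h1 f
    have hfc : f ∈ cut s t P := (mem_inter.1 (hf ▸ mem_singleton_self f)).2
    obtain ⟨g, hg⟩ := card_eq_one.1 hc
    have hgf : f = g := mem_singleton.1 (hg ▸ mem_inter.2 ⟨hfN, hfc⟩)
    refine ⟨N, hN, by rw [hg, hf, hgf], fun e he hr hex => absurd ⟨e, he, hr, hex⟩ h⟩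

theorem p_EXT (hONE : S_ONE) :
    S_EXT := by
  intro V E _ _ _ _ s t b K π M hc h2 hF hM hcov
  have hone := (hONE V E s t hc h2).2
  have hι : ∀ c : V, ∃ ι : E → Fin (2 * b + 1), (∃ v, π v = c) →
      ∀ e ∈ ins s t (univ.filter fun u => π u = c), ∀ f ∈ ins s t (univ.filter fun u => π u = c),
        ι e = ι f → e = f := by
    intro c
    by_cases h : ∃ v, π v = c
    · obtain ⟨v, rfl⟩ := h
      have h3 := ins_cut_card hc (univ.filter fun u => π u = π v)
      have h4 := (hF v).2
      obtain ⟨ι, hι⟩ := ext_inj (ins s t (univ.filter fun u => π u = π v)) (2 * b) (by omega)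
      exact ⟨ι, fun _ => hι⟩
    · exact ⟨fun _ => 0, fun h' => absurd h' h⟩
  choose ι hι using hι
  have hN : ∀ (c : V) (i : Fin K) (r : Fin (2 * b + 1)), ∃ N : Finset E, (∃ v, π v = c) →
      PM s t N ∧ N ∩ cut s t (univ.filter fun u => π u = c) =
        M i ∩ cut s t (univ.filter fun u => π u = c) ∧
      ∀ e ∈ ins s t (univ.filter fun u => π u = c), ι c e = r →
        (∃ N', PM s t N' ∧ N' ∩ cut s t (univ.filter fun u => π u = c) =
          M i ∩ cut s t (univ.filter fun u => π u = c) ∧ e ∈ N') → e ∈ N := by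
    intro c i r
    by_cases h : ∃ v, π v = c
    · have h5 := hι c h
      obtain ⟨v, rfl⟩ := h
      obtain ⟨N, hN⟩ := ext_one (ι (π v)) h5 (fun e => hone e _ (hF v).1) ((hM i).2 v) r
      exact ⟨N, fun _ => hN⟩
    · exact ⟨∅, fun h' => absurd h' h⟩
  choose N hN using hN
  let M' : Fin K × Fin (2 * b + 1) → Finset E := fun x =>
    univ.filter fun e => e ∈ M x.1 ∨ (π (s e) = π (t e) ∧ e ∈ N (π (s e)) x.1 x.2)
  have hmem : ∀ x e, e ∈ M' x ↔
      e ∈ M x.1 ∨ (π (s e) = π (t e) ∧ e ∈ N (π (s e)) x.1 x.2) := fun x e => by simp [M']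
  have hPM : ∀ x, PM s t (M' x) := by
    intro x v
    obtain ⟨h5, h6, -⟩ := hN (π v) x.1 x.2 ⟨v, rfl⟩
    rw [← h5 v]
    refine deg_congr fun e he => ?_
    rw [hmem]
    by_cases h : π (s e) = π (t e)
    · have h7 : π (s e) = π v := by
        rcases he with he | he
        · rw [he]
        · rw [h, he]
      have h8 : e ∉ M x.1 := fun h9 => (hM x.1).1 e h9 h
      rw [h7] at h ⊢
      simp [h8, h]
    · have h7 : e ∈ cut s t (univ.filter fun u => π u = π v) := by
        rw [mem_cut]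
        simp only [mem_filter, mem_univ, true_and]
        rcases he with he | he
        · rw [he] at h ⊢
          simp only [true_iff]
          exact fun h' => h h'.symm
        · rw [he] at h ⊢
          simp only [iff_true]
          exact h
      have h8 : e ∈ N (π v) x.1 x.2 ∩ cut s t (univ.filter fun u => π u = π v) ↔
          e ∈ M x.1 ∩ cut s t (univ.filter fun u => π u = π v) := by rw [h6]
      simp only [mem_inter, h7, and_true] at h8
      simp [h, h8]
  have hall : ∀ e, ∃ x, e ∈ M' x := by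
    intro e
    by_cases h : π (s e) = π (t e)
    · obtain ⟨N', h5, h6, h7⟩ := hone e _ (hF (s e)).1
      obtain ⟨f, hf⟩ := card_eq_one.1 h7
      have hfc : f ∈ cut s t (univ.filter fun u => π u = π (s e)) :=
        (mem_inter.1 (hf ▸ mem_singleton_self f)).2
      have hne : π (s f) ≠ π (t f) := by
        intro h8
        rw [mem_cut] at hfc
        simp only [mem_filter, mem_univ, true_and, h8] at hfc
        exact hfc trivial
      obtain ⟨i, hi⟩ := hcov f hne
      obtain ⟨g, hg⟩ := card_eq_one.1 ((hM i).2 (s e))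
      have hgf : f = g := mem_singleton.1 (hg ▸ mem_inter.2 ⟨hi, hfc⟩)
      refine ⟨(i, ι (π (s e)) e), (hmem _ _).2 (Or.inr ⟨h, ?_⟩)⟩
      refine (hN (π (s e)) i _ ⟨s e, rfl⟩).2.2 e ?_ rfl ⟨N', h5, by rw [hf, hg, hgf], h6⟩
      rw [mem_ins]
      simp [h]
    · obtain ⟨i, hi⟩ := hcov e h
      exact ⟨(i, 0), (hmem _ _).2 (Or.inl hi)⟩
  refine ⟨fun j => M' (finProdFinEquiv.symm j), fun j => hPM _, fun e => ?_⟩
  obtain ⟨x, hx⟩ := hall e
  exact ⟨finProdFinEquiv x, by simpa using hx⟩

end Pool.Agent.P.MP_40718a_co.Bc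

end

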