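import Pool.Agent.P.MP_40718a_co.Bc.Iface

section
/-! Step QUO. -/

set_option linter.unusedSectionVars false

namespace Pool.Agent.P.MP_40718a_co.Bc

open Finset ABF

section Quo

variable {V E : Type} [Fintype V] [Fintype E] [DecidableEq V] [DecidableEq E]

/-- the class of a vertex, as a vertex of the quotient -/
def quo_cl (π : V → V) (v : V) : {a // a ∈ univ.image π} :=
  ⟨π v, mem_image_of_mem π (mem_univ v)⟩

theorem quo_cl_surj (π : V → V) (a : {a // a ∈ univ.image π}) : ∃ v, quo_cl π v = a := by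
  obtain ⟨a, ha⟩ := a
  obtain ⟨v, _, rfl⟩ := mem_image.1 ha
  exact ⟨v, rfl⟩

theorem quo_cl_eq (π : V → V) (u v : V) : quo_cl π u = quo_cl π v ↔ π u = π v := by
  simp [quo_cl]

/-- the preimage of a set of classes -/
def quo_pre (π : V → V) (X : Finset {a // a ∈ univ.image π}) : Finset V :=
  univ.filter fun v => quo_cl π v ∈ X

theorem quo_mem_pre (π : V → V) (X : Finset {a // a ∈ univ.image π}) (v : V) :
    v ∈ quo_pre π X ↔ quo_cl π v ∈ X := by simp [quo_pre]

theorem quo_pre_compl (π : V → V) (X : Finset {a // a ∈ univ.image π}) :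
    (quo_pre π X)ᶜ = quo_pre π Xᶜ := by
  ext v; simp [quo_pre]

theorem quo_pre_single (π : V → V) (v : V) :
    quo_pre π {quo_cl π v} = univ.filter fun u => π u = π v := by
  ext u; simp [quo_pre, quo_cl_eq]

theorem quo_card (π : V → V) (X : Finset {a // a ∈ univ.image π}) :
    ((quo_pre π X).image π).card = X.card := by
  rw [← card_map (Function.Embedding.subtype _) (s := X)]
  congr 1
  ext a
  simp only [mem_image, quo_mem_pre, mem_map, Function.Embedding.coe_subtype]
  constructor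
  · rintro ⟨v, hv, rfl⟩
    exact ⟨_, hv, rfl⟩
  · rintro ⟨b, hb, rfl⟩
    obtain ⟨v, rfl⟩ := quo_cl_surj π b
    exact ⟨v, hb, rfl⟩

theorem quo_card_le (π : V → V) (X : Finset {a // a ∈ univ.image π}) :
    X.card ≤ (quo_pre π X).card := by
  rw [← quo_card]; exact card_image_le

theorem quo_inter (s t : E → V) (π : V → V) (F : Finset {e // π (s e) ≠ π (t e)})
    (X : Finset {a // a ∈ univ.image π}) :
    (F ∩ cut (fun e : {e // π (s e) ≠ π (t e)} => quo_cl π (s e.1))
      (fun e => quo_cl π (t e.1)) X).map (Function.Embedding.subtype _) =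
      F.map (Function.Embedding.subtype _) ∩ cut s t (quo_pre π X) := by
  ext e
  simp only [mem_map, mem_inter, mem_cut, quo_mem_pre, Function.Embedding.coe_subtype]
  constructor
  · rintro ⟨f, ⟨h1, h2⟩, rfl⟩
    exact ⟨⟨f, h1, rfl⟩, h2⟩
  · rintro ⟨⟨f, h1, rfl⟩, h2⟩
    exact ⟨f, ⟨h1, h2⟩, rfl⟩

theorem quo_cut (s t : E → V) (π : V → V) (X : Finset {a // a ∈ univ.image π}) :
    (cut (fun e : {e // π (s e) ≠ π (t e)} => quo_cl π (s e.1))
      (fun e => quo_cl π (t e.1)) X).card = (cut s t (quo_pre π X)).card := by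
  rw [← card_map (Function.Embedding.subtype _)]
  congr 1
  ext e
  simp only [mem_map, mem_cut, quo_mem_pre, Function.Embedding.coe_subtype]
  constructor
  · rintro ⟨f, h, rfl⟩
    exact h
  · intro h
    refine ⟨⟨e, fun h' => h ?_⟩, h, rfl⟩
    rw [(quo_cl_eq π _ _).2 h']

end Quo

theorem p_QUO :
    S_QUO := by
  intro V E _ _ _ _ s t β κ K π hC hβ h3 hS
  have hl : ∀ e : {e // π (s e) ≠ π (t e)}, quo_cl π (s e.1) ≠ quo_cl π (t e.1) :=
    fun e h => e.2 ((quo_cl_eq π _ _).1 h)
  obtain ⟨M, hM, hcov⟩ := hC {a // a ∈ univ.image π} {e // π (s e) ≠ π (t e)}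
    (fun e => quo_cl π (s e.1)) (fun e => quo_cl π (t e.1))
    ⟨hl, fun a => by
      obtain ⟨v, rfl⟩ := quo_cl_surj π a
      rw [deg_loopless hl, univ_inter, quo_cut, quo_pre_single, h3]⟩
    (fun X hX => by
      rw [quo_cut] at hX
      have := hS (quo_pre π X) (fun u v huv hu => by
        rw [quo_mem_pre] at hu ⊢
        rwa [← (quo_cl_eq π _ _).2 huv]) hX
      rwa [quo_pre_compl, quo_card, quo_card] at this)
    (fun X hX => by
      rw [quo_cut] at hX ⊢
      have := hβ (quo_pre π X) hX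
      rw [quo_pre_compl] at this
      exact this.imp (fun h => (quo_card_le π X).trans h) (fun h => (quo_card_le π Xᶜ).trans h))
  refine ⟨fun i => (M i).map (Function.Embedding.subtype _), fun i => ⟨?_, fun v => ?_⟩, ?_⟩
  · intro e he
    obtain ⟨f, _, rfl⟩ := mem_map.1 he
    exact f.2
  · have := hM i (quo_cl π v)
    rw [deg_loopless hl] at this
    rw [← quo_pre_single, ← quo_inter, card_map, this]
  · intro e he
    obtain ⟨i, hi⟩ := hcov ⟨e, he⟩
    exact ⟨i, mem_map.2 ⟨_, hi, rfl⟩⟩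

end Pool.Agent.P.MP_40718a_co.Bc

end

section
/-! Step M2. -/

set_option linter.unusedSectionVars false

namespace Pool.Agent.P.MP_40718a_co.Bc

open Finset ABF

theorem p_M2 (hM4 : S_M4) (hPART : S_PART) (hQUO : S_QUO) (hEXT : S_EXT) (hCOV : S_COV) :
    S_M2 := by
  intro β
  obtain ⟨κ, K, h4⟩ := hM4 β
  refine ⟨κ + 4, K * (2 * ((range 4).sup β + 1) + 1) + 6 * ((range 4).sup β + 1), ?_⟩
  intro V E _ _ _ _ s t hc h2 hβ
  obtain ⟨-, c2, c3⟩ := hCOV V E s t hc h2
  have hs : Small s t 3 ((range 4).sup β + 1) := fun X hX => by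
    have := le_sup (f := β) (mem_range.2 (show (cut s t X).card < 4 by omega))
    have := hβ X (by omega)
    omega
  generalize hb : (range 4).sup β + 1 = b at hs ⊢
  by_cases hV : 3 * b < Fintype.card V
  · obtain ⟨π, p1, p2⟩ := hPART V E s t b hc h2 hs (by omega) hV
    obtain ⟨M, m1, m2⟩ := hQUO V E s t β κ K π h4 (fun X hX => hβ X (by omega))
      (fun v => (p1 v).1) p2
    exact c2 _ _ (hEXT V E s t b K π M hc h2 p1 m1 m2) (Nat.le_add_right _ _)
  · exact c3 _ (by omega)

end Pool.Agent.P.MP_40718a_co.Bc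

end

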