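import Pool.Agent.P.MP_40718a_co.Bc.Iface
import Pool.Agent.P.MP_40718a_co.ABF.RM
import Pool.Agent.P.MP_40718a_co.ABF.GLb3

section
/-! Step RAT. -/

set_option linter.unusedSectionVars false

namespace Pool.Agent.P.MP_40718a_co.Bc

open Finset ABF

theorem rat_prod {I : Type} [Fintype I] (r : ℕ) (P : I → Prop) :
    cnt (fun p : I × Fin r => P p.1) = cnt P * r := by
  classical
  rw [cnt_eq, cnt_eq]
  have h : (univ.filter fun p : I × Fin r => P p.1) = (univ.filter P) ×ˢ (univ : Finset (Fin r)) := by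
    ext p
    simp
  rw [h, card_product]
  simp

theorem rat_rep {X : Type} (G : Finset X) (Q : Finset X → Prop) (q0 r : ℕ)
    (a : Fin (3 * q0) → Finset X) (ha : ∀ i, Q (a i))
    (hc : ∀ x ∈ G, cnt (fun i => x ∈ a i) = q0) :
    ∃ b : Fin (3 * (q0 * r)) → Finset X, (∀ i, Q (b i)) ∧
      ∀ x ∈ G, cnt (fun i => x ∈ b i) = q0 * r := by
  let g : Fin (3 * (q0 * r)) ≃ Fin (3 * q0) × Fin r :=
    (finCongr (by ring)).trans finProdFinEquiv.symm
  refine ⟨fun j => a (g j).1, fun j => ha _, fun x hx => ?_⟩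
  have h1 := cnt_equiv g (fun p : Fin (3 * q0) × Fin r => x ∈ a p.1)
  rw [h1, rat_prod r (fun i => x ∈ a i), hc x hx]

theorem p_RAT (hRAT0 : S_RAT0) :
    S_RAT := by
  classical
  intro N
  have key : ∀ p : Finset (Finset (Fin N)) × Finset (Fin N), ∃ q0 : ℕ, 0 < q0 ∧
      ((∃ q : ℕ, 0 < q ∧ ∃ a : Fin (3 * q) → Finset (Fin N), (∀ i, a i ∈ p.1) ∧
        ∀ x ∈ p.2, cnt (fun i => x ∈ a i) = q) →
      ∃ a : Fin (3 * q0) → Finset (Fin N), (∀ i, a i ∈ p.1) ∧
        ∀ x ∈ p.2, cnt (fun i => x ∈ a i) = q0) := by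
    intro p
    by_cases h : ∃ q : ℕ, 0 < q ∧ ∃ a : Fin (3 * q) → Finset (Fin N), (∀ i, a i ∈ p.1) ∧
        ∀ x ∈ p.2, cnt (fun i => x ∈ a i) = q
    · obtain ⟨q, hq, ha⟩ := h
      exact ⟨q, hq, fun _ => ha⟩
    · exact ⟨1, one_pos, fun h' => absurd h' h⟩
  choose f hf0 hf using key
  refine ⟨∏ p, f p, Finset.prod_pos fun p _ => hf0 p, ?_⟩
  intro G μ hμ hG
  obtain ⟨q, hq, a, ha, hc⟩ := hRAT0 (Fin N) G μ hμ hG
  let Fam : Finset (Finset (Fin N)) := univ.filter fun B => μ B ≠ 0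
  obtain ⟨b, hb, hbc⟩ := hf (Fam, G) ⟨q, hq, a, fun i => by simpa [Fam] using ha i, hc⟩
  obtain ⟨r, hr⟩ : f (Fam, G) ∣ ∏ p, f p := Finset.dvd_prod_of_mem f (mem_univ _)
  rw [hr]
  exact rat_rep G (fun B => μ B ≠ 0) _ r b (fun i => by simpa [Fam] using hb i) hbc

end Pool.Agent.P.MP_40718a_co.Bc

end

section
/-! Step LAW. -/

set_option linter.unusedSectionVars false

namespace Pool.Agent.P.MP_40718a_co.Bc

open Finset ABF

/-- the weight of an event under the image of a law -/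
theorem law_push {Ω X : Type} [Fintype Ω] [Fintype X] [DecidableEq X] (μ : Ω → ℝ) (T : Ω → X)
    (P : X → Prop) : pr (fun B => pr μ fun ω => T ω = B) P = pr μ fun ω => P (T ω) := by
  classical
  rw [pr_eq_filter, ← pr_mem]
  exact pr_congr fun ω _ => by simp

theorem p_LAW (hRAT : S_RAT) :
    S_LAW := by
  intro N
  obtain ⟨q, hq, H⟩ := hRAT N
  refine ⟨q, hq, ?_⟩
  intro V E _ _ _ _ s t F hc h2 hF
  classical
  obtain ⟨μ, hμ⟩ := pm GL2.gl cpt V E s t hc h2
  obtain ⟨j⟩ : Nonempty ({e // e ∈ F} ↪ Fin N) :=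
    Function.Embedding.nonempty_of_card_le (by simpa using hF)
  let T : Finset E → Finset (Fin N) := fun M => univ.filter fun x => ∃ e, j e = x ∧ e.1 ∈ M
  have hT : ∀ (e : {e // e ∈ F}) (M : Finset E), j e ∈ T M ↔ e.1 ∈ M := by
    intro e M
    simp only [T, mem_filter, mem_univ, true_and]
    exact ⟨fun ⟨f, h, hf⟩ => j.injective h ▸ hf, fun h => ⟨e, rfl, h⟩⟩
  have hp : IsProb fun B => pr μ fun M => T M = B := by
    refine ⟨fun B => pr_nonneg hμ.1.1 _, ?_⟩
    rw [← pr_true, law_push, pr_true, hμ.1.2]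
  obtain ⟨a, ha, hcnt⟩ := H (univ.image j) _ hp (by
    intro x hx
    obtain ⟨e, -, rfl⟩ := mem_image.1 hx
    rw [law_push, pr_congr fun M _ => hT e M]
    exact hμ.marg (Or.inl (mem_univ _)))
  have hM : ∀ i, ∃ M, μ M ≠ 0 ∧ T M = a i := by
    intro i
    by_contra h
    push Not at h
    exact ha i (pr_eq_zero h)
  choose M hM0 hMT using hM
  refine ⟨M, fun i v => hμ.2.1 _ (hM0 i) v (mem_univ v), fun e he => ?_⟩
  refine Eq.trans ?_ (hcnt (j ⟨e, he⟩) (mem_image_of_mem _ (mem_univ _)))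
  exact cnt_congr fun i => by rw [← hMT i, hT]

end Pool.Agent.P.MP_40718a_co.Bc

end

section
/-! Step ONE. -/

set_option linter.unusedSectionVars false

namespace Pool.Agent.P.MP_40718a_co.Bc

open Finset ABF

theorem one_pos_cnt {I : Type} [Fintype I] {P : I → Prop} (h : 0 < cnt P) : ∃ i, P i := by
  by_contra hc
  push Not at hc
  rw [cnt_eq_zero hc] at h
  exact lt_irrefl _ h

theorem p_ONE (hLAW : S_LAW) :
    S_ONE := by
  intro V E _ _ _ _ s t hc h2
  obtain ⟨q, q0, hq⟩ := hLAW 4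
  refine ⟨fun D hD => ?_, fun e P hP => ?_⟩
  · obtain ⟨M, hM, hF⟩ := hq V E s t D hc h2 (by omega)
    rcases D.eq_empty_or_nonempty with rfl | ⟨e, he⟩
    · exact ⟨M ⟨0, by omega⟩, hM _, empty_subset _⟩
    · obtain ⟨i, hi⟩ := one_pos_cnt (P := fun i => e ∈ M i) (by rw [hF e he]; exact q0)
      exact ⟨M i, hM i, fun f hf => card_le_one.1 hD f hf e he ▸ hi⟩
  · obtain ⟨M, hM, hF⟩ := hq V E s t (insert e (cut s t P)) hc h2
      ((card_insert_le _ _).trans (by omega))
    have hodd : Odd P.card := by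
      have := hc.cut_parity P
      rw [hP, Nat.even_iff] at this
      rw [Nat.odd_iff]; omega
    have h1 : ∀ i, 1 ≤ (M i ∩ cut s t P).card := fun i => (odd_cut (fun v _ => hM i v) hodd).pos
    have h3 : ∑ i, (M i ∩ cut s t P).card = ∑ _i : Fin (3 * q), 1 := by
      simp only [card_inter_eq_sum]
      rw [sum_comm, sum_congr rfl (g := fun _ => q) fun f hf => by
        refine Eq.trans ?_ (hF f (mem_insert_of_mem hf))
        rw [cnt_eq]; simp]
      simp [hP]
    have h4 := (sum_eq_sum_iff_of_le fun i _ => h1 i).1 h3.symm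
    obtain ⟨i, hi⟩ := one_pos_cnt (P := fun i => e ∈ M i)
      (by rw [hF e (mem_insert_self _ _)]; exact q0)
    exact ⟨M i, hM i, hi, (h4 i (mem_univ i)).symm⟩

end Pool.Agent.P.MP_40718a_co.Bc

end

section
/-! Step COV. -/

set_option linter.unusedSectionVars false

namespace Pool.Agent.P.MP_40718a_co.Bc

open Finset ABF

theorem p_COV (hONE : S_ONE) :
    S_COV := by
  intro V E _ _ _ _ s t hC hE
  obtain ⟨h1, -⟩ := hONE V E s t hC hE
  obtain ⟨M0, hM0, -⟩ := h1 ∅ (by simp)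
  have key : ∀ (C : Type) [Fintype C] (K : ℕ) (N : C → Finset E), Fintype.card C ≤ K →
      (∀ κ, PM s t (N κ)) → (∀ e, ∃ κ, e ∈ N κ) → Cov s t K := by
    intro C _ K N hK hN hc
    obtain ⟨f⟩ := Function.Embedding.nonempty_of_card_le (α := C) (β := Fin K) (by simpa using hK)
    refine ⟨Function.extend f N fun _ => M0, fun i => ?_, fun e => ?_⟩
    · by_cases h : ∃ κ, f κ = i
      · obtain ⟨κ, rfl⟩ := h
        rw [f.injective.extend_apply]
        exact hN κ
      · rw [Function.extend_apply' _ _ _ h]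
        exact hM0
    · obtain ⟨κ, h⟩ := hc e
      exact ⟨f κ, by rwa [f.injective.extend_apply]⟩
  have first : ∀ (C : Type) [Fintype C] (cls : E → C) (K : ℕ), Fintype.card C ≤ K →
      (∀ κ, ∃ M, PM s t M ∧ ∀ e, cls e = κ → e ∈ M) → Cov s t K := by
    intro C _ cls K hK h
    choose N hN hN' using h
    exact key C K N hK hN fun e => ⟨cls e, hN' _ e rfl⟩
  refine ⟨first, ?_, fun K hK => first E id K ?_ fun e => ?_⟩
  · rintro K K' ⟨M, hM, hM'⟩ hK
    exact key (Fin K) K' M (by simpa using hK) hM hM'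
  · have := ins_cut_card hC univ
    simp only [ins_univ, cut_univ, card_empty, card_univ] at this
    omega
  · obtain ⟨M, hM, h⟩ := h1 {e} (by simp)
    exact ⟨M, hM, fun e' he' => h (mem_singleton.2 he')⟩

end Pool.Agent.P.MP_40718a_co.Bc

end

section
/-! Step CA. -/

set_option linter.unusedSectionVars false

namespace Pool.Agent.P.MP_40718a_co.Bc

open Finset ABF

theorem ca_p1 {x y a b : Prop} (h : ¬ (x ↔ y)) (o : a ∨ b) (p : x → ¬ a) (q : y → ¬ b) :
    ¬ (a ↔ b) := by tauto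

theorem ca_p2 {x y x' y' a b : Prop} (h : ¬ (x ↔ y)) (h' : ¬ (x' ↔ y')) (o : a ∨ b)
    (p : x → ¬ a) (q : y → ¬ b) (p' : x' → ¬ a) (q' : y' → ¬ b) (d : x → ¬ x') (d' : y → ¬ y') :
    False := by tauto

theorem ca_p3 {x y u v a b : Prop} (h : ¬ (x ↔ y)) (h' : ¬ (a ∨ u ↔ b ∨ v)) (o : a ∨ b)
    (p : x → ¬ a) (q : y → ¬ b) (p' : x → u) (q' : y → v) : False := by tauto

theorem ca_p4 {x y u v a b : Prop} (k : ¬ ¬ (x ↔ y)) (h' : ¬ (a ∨ u ↔ b ∨ v))
    (hx : x ∨ y) (p' : x → u) (q' : y → v) : False := by tauto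

theorem ca_p5 {u v a b : Prop} (h' : ¬ (a ∨ u ↔ b ∨ v)) (hu : ¬ u) (hv : ¬ v) :
    ¬ (a ↔ b) := by tauto

theorem p_CA :
    S_CA := by
  intro V E _ _ _ _ s t c S O hc h3 hS hD hO
  have hTc : (S ∪ ends s t c).card ≤ S.card + 2 :=
    (card_union_le _ _).trans (by have := ends_card (s := s) (t := t) c; omega)
  have hs : s c ∈ S ∪ ends s t c := mem_union_right _ (s_mem_ends c)
  have ht : t c ∈ S ∪ ends s t c := mem_union_right _ (t_mem_ends c)
  generalize S ∪ ends s t c = T at *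
  have h1 : 0 < (ins s t T).card := card_pos.2 ⟨c, mem_ins.2 ⟨hs, ht⟩⟩
  have h2 := ins_cut_card hc T
  have hX : ∀ X ∈ O, ∀ v ∈ X, v ∉ T := fun X hX v hv => disjoint_left.1 (hO X hX).2.1 hv
  have hsub : ∀ X ∈ O, cut s t X ⊆ cut s t T := fun X hXO e he =>
    mem_cut.2 (ca_p1 (mem_cut.1 he) ((hO X hXO).2.2 e he) (hX X hXO _) (hX X hXO _))
  have hdj : ((O : Finset (Finset V)) : Set (Finset V)).PairwiseDisjoint fun X => cut s t X := by
    intro X hXO Y hYO hne
    exact disjoint_left.2 fun e he he' => ca_p2 (mem_cut.1 he) (mem_cut.1 he')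
      ((hO X hXO).2.2 e he) (hX X hXO _) (hX X hXO _) (hX Y hYO _) (hX Y hYO _)
      (fun h => disjoint_left.1 (hD X hXO Y hYO hne) h)
      (fun h => disjoint_left.1 (hD X hXO Y hYO hne) h)
  have hB : 3 * O.card ≤ (O.biUnion fun X => cut s t X).card := by
    rw [card_biUnion hdj, mul_comm, ← smul_eq_mul, ← sum_const]
    refine sum_le_sum fun X hXO => h3 X (hO X hXO).1 ?_
    rintro rfl
    exact hX _ hXO _ (mem_univ _) hs
  have hR : cut s t (T ∪ O.biUnion id) ⊆ cut s t T \ O.biUnion fun X => cut s t X := by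
    intro e he
    rw [mem_cut, mem_union, mem_union] at he
    have up : ∀ X ∈ O, ∀ v ∈ X, v ∈ O.biUnion id := fun X hXO v h => mem_biUnion.2 ⟨X, hXO, h⟩
    have key : ∀ X ∈ O, e ∉ cut s t X := fun X hXO h =>
      ca_p3 (mem_cut.1 h) he ((hO X hXO).2.2 e h) (hX X hXO _) (hX X hXO _) (up X hXO _)
        (up X hXO _)
    refine mem_sdiff.2 ⟨mem_cut.2 (ca_p5 he (fun a => ?_) fun a => ?_), fun h => ?_⟩
    · obtain ⟨X, hXO, hv⟩ := mem_biUnion.1 a
      exact ca_p4 (fun h => key X hXO (mem_cut.2 h)) he (Or.inl hv) (up X hXO _) (up X hXO _)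
    · obtain ⟨X, hXO, hv⟩ := mem_biUnion.1 a
      exact ca_p4 (fun h => key X hXO (mem_cut.2 h)) he (Or.inr hv) (up X hXO _) (up X hXO _)
    · obtain ⟨X, hXO, h⟩ := mem_biUnion.1 h
      exact key X hXO h
  have h4 := card_le_card hR
  have h5 : (O.biUnion fun X => cut s t X) ⊆ cut s t T := biUnion_subset.2 hsub
  rw [card_sdiff_of_subset h5] at h4
  have h6 := card_le_card h5
  omega

end Pool.Agent.P.MP_40718a_co.Bc

end

section
/-! Step CB. -/

set_option linter.unusedSectionVars false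

namespace Pool.Agent.P.MP_40718a_co.Bc

open Finset ABF

theorem p_CB :
    S_CB := by
  intro V E _ _ _ _ s t M I T O hM hI hO h
  refine card_le_card_of_forall_subsingleton
    (fun X y => ∃ e ∈ M, e ∈ cut s t X ∧ y ∉ X ∧ (s e = y ∨ t e = y)) (fun X hX => ?_) ?_
  · obtain ⟨h1, h2, h3, h4⟩ := h X hX
    obtain ⟨e, he⟩ := card_pos.1 (odd_cut (s := s) (t := t) (fun v _ => hM v) h2).pos
    obtain ⟨e1, e2⟩ := mem_inter.1 he
    have a1 := h4 e e2
    have a2 := hI e e1
    have a3 := mem_cut.1 e2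
    have a4 := @h1 (s e)
    have a5 := @h1 (t e)
    have a6 := @disjoint_left.1 h3 (s e)
    have a7 := @disjoint_left.1 h3 (t e)
    by_cases c : s e ∈ X
    · exact ⟨t e, mem_inter.2 (by tauto), e, e1, e2, by tauto, Or.inr rfl⟩
    · exact ⟨s e, mem_inter.2 (by tauto), e, e1, e2, c, Or.inl rfl⟩
  · rintro y - X ⟨hX, e, e1, e2, e3, e4⟩ Y ⟨hY, f, f1, f2, f3, f4⟩
    obtain rfl := edge_unique (hM y).le e1 f1 e4 f4
    by_contra c
    have a1 := @disjoint_left.1 (hO X hX Y hY c) (s e)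
    have a2 := @disjoint_left.1 (hO X hX Y hY c) (t e)
    rw [mem_cut] at e2 f2
    rcases e4 with rfl | rfl <;> tauto

end Pool.Agent.P.MP_40718a_co.Bc

end

section
/-! Step CC. -/

set_option linter.unusedSectionVars false

namespace Pool.Agent.P.MP_40718a_co.Bc

open Finset ABF

theorem cc_img {V : Type} [DecidableEq V] {O : Finset (Finset V)} (hO : Dj O)
    (p : Finset V → Prop) [DecidablePred p] (f : Finset V → Finset V) (hf : ∀ X, f X ⊆ X)
    (hn : ∀ X ∈ O, p X → (f X).Nonempty) :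
    Dj ((O.filter p).image f) ∧ ((O.filter p).image f).card = (O.filter p).card := by
  refine ⟨fun X hX Y hY hne => ?_, card_image_of_injOn fun X hX Y hY e => ?_⟩
  · obtain ⟨X', hX', rfl⟩ := mem_image.1 hX
    obtain ⟨Y', hY', rfl⟩ := mem_image.1 hY
    exact (hO X' (mem_filter.1 hX').1 Y' (mem_filter.1 hY').1 fun e => hne (e ▸ rfl)).mono
      (hf X') (hf Y')
  · by_contra hne
    obtain ⟨hX, hp⟩ := mem_filter.1 (mem_coe.1 hX)
    obtain ⟨v, hv⟩ := hn X hX hp
    exact disjoint_left.1 (hO X hX Y (mem_filter.1 (mem_coe.1 hY)).1 hne) (hf X hv)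
      (hf Y (e ▸ hv))

theorem p_CC (hCA : S_CA) (hCB : S_CB) :
    S_CC := by
  intro V E _ _ _ _ s t c M I S R O b hc h3 hM hMI hb hS hO hX hR hRb hRu
  obtain ⟨r, hr, hsp⟩ := exists_sphere (s := s) (t := t) R (ends s t c)
  have hcut := cut_inter_ball hsp
  have hI : R ∩ ball s t (ends s t c) r ⊆ I :=
    inter_subset_right.trans ((ball_mono_r (hr.trans hRb)).trans hb)
  have hE : ends s t c ⊆ R ∩ ball s t (ends s t c) r :=
    subset_inter (subset_union_right.trans hR) (subset_ball r)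
  generalize R ∩ ball s t (ends s t c) r = R0 at hcut hI hE
  have hodd : ∀ X ∈ O, ¬ Odd (X ∩ R0).card → Odd (X \ R0).card := fun X h h1 => by
    have h2 := card_inter_add_card_sdiff X R0
    have h3 := (hX X h).2.2.1
    rw [Nat.odd_iff] at *
    omega
  obtain ⟨d0, c0⟩ := cc_img hO (fun X => Odd (X ∩ R0).card) (· ∩ R0)
    (fun _ => inter_subset_left) fun X _ h => card_pos.1 h.pos
  obtain ⟨d1, c1⟩ := cc_img hO (fun X => ¬ Odd (X ∩ R0).card) (· \ R0)
    (fun _ => sdiff_subset) fun X h h1 => card_pos.1 (hodd X h h1).pos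
  have key : ∀ X ∈ O, Onto s t (X ∩ R0) (S ∩ R0 ∪ ends s t c) ∧ Onto s t (X \ R0) (S \ R0) := by
    intro X h
    obtain ⟨-, h1, -, h2, h4⟩ := hX X h
    refine ⟨⟨h2.mono inter_subset_left (union_subset_union_left inter_subset_left), fun e he => ?_⟩,
      h2.mono sdiff_subset (sdiff_subset.trans subset_union_left), fun e he => ?_⟩ <;>
    · have a1 := @hcut e
      have a2 := h4 e
      have a3 := @h1 (s e)
      have a4 := @h1 (t e)
      have a5 := @hR (s e)
      have a6 := @hR (t e)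
      have a7 := @hE (s e)
      have a8 := @hE (t e)
      have a9 := fun a : s e ∈ X => disjoint_left.1 h2 a
      have a10 := fun a : t e ∈ X => disjoint_left.1 h2 a
      simp only [mem_cut, mem_inter, mem_sdiff, mem_union] at he a1 a2 a5 a6 a9 a10 ⊢
      grind
  have k0 := hCA V E s t c (S ∩ R0) _ hc h3 (hS.mono_left inter_subset_left) d0 fun Y hY => by
    obtain ⟨X, h, rfl⟩ := mem_image.1 hY
    exact ⟨card_pos.1 (mem_filter.1 h).2.pos, (key X (mem_filter.1 h).1).1⟩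
  have k1 := hCB V E s t M I (S \ R0) _ hM hMI d1 fun Y hY => by
    obtain ⟨X, h, rfl⟩ := mem_image.1 hY
    obtain ⟨h, h1⟩ := mem_filter.1 h
    exact ⟨sdiff_subset.trans (hX X h).1, hodd X h h1, (key X h).2⟩
  have k2 := h3 (S ∩ R0 ∪ ends s t c ∪
      ((O.filter fun X => Odd (X ∩ R0).card).image (· ∩ R0)).biUnion id)
    ⟨s c, mem_union_left _ (mem_union_right _ (s_mem_ends c))⟩ fun e => by
      refine hRu (univ_subset_iff.1 (e ▸ union_subset
        ((union_subset_union_left inter_subset_left).trans hR) (biUnion_subset.2 fun Y hY => ?_)))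
      obtain ⟨X, h, rfl⟩ := mem_image.1 hY
      exact inter_subset_left.trans (hX X (mem_filter.1 h).1).2.1
  have k3 := card_filter_add_card_filter_not (s := O) fun X => Odd (X ∩ R0).card
  have k4 := card_inter_add_card_sdiff (S ∩ I) R0
  have k5 : (S ∩ R0).card ≤ (S ∩ I ∩ R0).card := card_le_card fun v hv =>
    mem_inter.2 ⟨mem_inter.2 ⟨(mem_inter.1 hv).1, hI (mem_inter.1 hv).2⟩, (mem_inter.1 hv).2⟩
  have k6 : (S \ R0 ∩ I).card ≤ ((S ∩ I) \ R0).card := card_le_card fun v hv => by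
    simp only [mem_inter, mem_sdiff] at hv ⊢
    tauto
  omega

end Pool.Agent.P.MP_40718a_co.Bc

end

section
/-! Step CNT. -/

set_option linter.unusedSectionVars false

namespace Pool.Agent.P.MP_40718a_co.Bc

open Finset ABF

theorem cnt_sum {k : ℕ} (f g : Fin k → ℕ) (j0 : Fin k) (a : ℕ) (h : ∀ j, f j ≤ g j + a) :
    ∑ j, f j + g j0 + a ≤ ∑ j, g j + f j0 + k * a := by
  have h1 := add_sum_erase univ f (mem_univ j0)
  have h2 := add_sum_erase univ g (mem_univ j0)
  have h3 : ∑ j ∈ univ.erase j0, f j ≤ ∑ j ∈ univ.erase j0, (g j + a) :=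
    sum_le_sum fun j _ => h j
  rw [sum_add_distrib, sum_const, card_erase_of_mem (mem_univ j0), card_univ, Fintype.card_fin,
    smul_eq_mul] at h3
  have hk : 0 < k := j0.pos
  obtain ⟨k, rfl⟩ : ∃ k', k = k' + 1 := ⟨k - 1, by omega⟩
  rw [Nat.add_sub_cancel] at h3
  rw [Nat.add_mul, one_mul]
  omega

theorem p_CNT (hCA : S_CA) (hCB : S_CB) (hCC : S_CC) :
    S_CNT := by
  intro V E _ _ _ _ s t k c M I J SA b nA S O OA hk hcub hec hM hMI hball hIJ hsm hb H
  have heI : ends s t c ⊆ I := (subset_ball b).trans hball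
  set R : Fin k → Finset V := fun j => S j ∪ ends s t c ∪ (O j ∪ OA j).biUnion id with hR
  have hRJ : ∀ j, R j ⊆ J := by
    intro j
    obtain ⟨h1, -, -, -, -, -, -, h8⟩ := H j
    refine union_subset (union_subset h1 (heI.trans hIJ)) ?_
    intro x hx
    obtain ⟨X, hX, hx⟩ := mem_biUnion.1 hx
    exact (h8 X hX).2.1 hx
  have hRc : ∀ j, b < (R j)ᶜ.card := fun j =>
    hb.trans_le (card_le_card (compl_subset_compl.2 (hRJ j)))
  have hRu : ∀ j, R j ≠ univ := by
    intro j h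
    have := hRc j
    rw [h, compl_univ, card_empty] at this
    omega
  have hA : ∀ j, 3 * ((O j).card + nA) + (cut s t (R j)).card ≤
      3 * ((S j ∩ I).card + SA.card) + 4 := by
    intro j
    obtain ⟨-, h2, h3, h4, h5, h6, -, h8⟩ := H j
    have := hCA V E s t c (S j) (O j ∪ OA j) hcub hec h3 h6
      fun X hX => ⟨(h8 X hX).1, (h8 X hX).2.2⟩
    rw [card_union_of_disjoint h5, h4, ← card_inter_add_card_sdiff (S j) I, h2] at this
    exact this
  have h3 : ∀ j, 3 ≤ (cut s t (R j)).card := fun j =>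
    hec _ ⟨s c, mem_union_left _ (mem_union_right _ (s_mem_ends c))⟩ (hRu j)
  have hDj : ∀ j, Dj (O j) := fun j X hX Y hY =>
    (H j).2.2.2.2.2.1 X (mem_union_left _ hX) Y (mem_union_left _ hY)
  by_cases hbig : ∃ j, 6 * k < (cut s t (R j)).card
  · obtain ⟨j0, hj0⟩ := hbig
    have hB : ∀ j, (O j).card ≤ (S j ∩ I).card + 2 := by
      intro j
      obtain ⟨-, -, -, -, -, -, h7, h8⟩ := H j
      have := hCB V E s t M I (S j ∪ ends s t c) (O j) hM hMI (hDj j)
        fun X hX => ⟨(h7 X hX).1, (h7 X hX).2, (h8 X (mem_union_left _ hX)).2.2⟩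
      rw [union_inter_distrib_right] at this
      have h1 := card_union_le (S j ∩ I) (ends s t c ∩ I)
      have h2 : (ends s t c ∩ I).card ≤ 2 := (card_le_card inter_subset_left).trans (ends_card c)
      omega
    have := cnt_sum (fun j => (O j).card) (fun j => (S j ∩ I).card) j0 2 hB
    have := hA j0
    omega
  · push Not at hbig
    have hC : ∀ j, (O j).card ≤ (S j ∩ I).card + 0 := by
      intro j
      obtain ⟨-, -, h3, -, -, -, h7, h8⟩ := H j
      have hle : (R j).card ≤ b := (hsm _ (hbig j)).resolve_right (by have := hRc j; omega)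
      refine hCC V E s t c M I (S j) (R j) (O j) b hcub hec hM hMI hball h3 (hDj j)
        (fun X hX => ⟨(h7 X hX).1, ?_, (h7 X hX).2, (h8 X (mem_union_left _ hX)).2.2⟩)
        subset_union_left hle (hRu j)
      intro x hx
      exact mem_union_right _ (mem_biUnion.2 ⟨X, mem_union_left _ hX, hx⟩)
    have := cnt_sum (fun j => (O j).card) (fun j => (S j ∩ I).card) ⟨0, hk⟩ 0 hC
    have := hA ⟨0, hk⟩
    have := h3 ⟨0, hk⟩
    omega

end Pool.Agent.P.MP_40718a_co.Bc

end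

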