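import Pool.Agent.P.MP_40718a_co.Bc.Iface

section
/-! Step COPY. -/

set_option linter.unusedSectionVars false

namespace Pool.Agent.P.MP_40718a_co.Bc

open Finset ABF

section

variable {V E : Type} [Fintype V] [Fintype E] [DecidableEq V] [DecidableEq E] {k : ℕ} [NeZero k]

/-- the trace of a set of the copy graph on the sheet `j` -/
def copy_pr (I : Finset V) (j : Fin k) (X : Finset (V × Fin k)) : Finset V :=
  univ.filter fun x => lf I x j ∈ X

theorem copy_mem {I : Finset V} {j : Fin k} {X : Finset (V × Fin k)} {x : V} :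
    x ∈ copy_pr I j X ↔ lf I x j ∈ X := by simp [copy_pr]

theorem copy_in {I : Finset V} {x : V} (h : x ∈ I) (j : Fin k) : lf I x j = (x, j) := by
  simp [lf, h]

theorem copy_out {I : Finset V} {x : V} (h : x ∉ I) (j : Fin k) : lf I x j = (x, 0) := by
  simp [lf, h]

theorem copy_card (I : Finset V) (X : Finset (V × Fin k)) (h : ∀ v ∈ X, v.1 ∈ I ∨ v.2 = 0) :
    X.card = ∑ j, (copy_pr I j X ∩ I).card +
      (univ.filter fun x => x ∉ I ∧ (x, (0 : Fin k)) ∈ X).card := by
  rw [← card_filter_add_card_filter_not (s := X) (fun v => v.1 ∈ I),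
    card_eq_sum_card_fiberwise (f := Prod.snd) (t := univ) (by simp [Set.MapsTo])]
  congr 1
  · refine sum_congr rfl fun j _ => (card_nbij' (fun x => (x, j)) Prod.fst ?_ ?_ ?_ ?_).symm
    · intro x hx
      simp only [coe_inter, Set.mem_inter_iff, mem_coe, copy_mem] at hx
      simpa [hx.2, copy_in hx.2] using hx.1
    · rintro ⟨x, i⟩ hx
      simp only [mem_coe, mem_filter] at hx
      obtain ⟨⟨h1, h2⟩, rfl⟩ := hx
      simpa [copy_mem, copy_in h2, h1] using h2
    · exact fun _ _ => rfl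
    · rintro ⟨x, i⟩ hx
      simp only [mem_coe, mem_filter] at hx
      rw [← hx.2]
  · refine (card_nbij' (fun x => (x, 0)) Prod.fst ?_ ?_ ?_ ?_).symm
    · intro x hx
      simp only [mem_coe, mem_filter, mem_univ, true_and] at hx ⊢
      exact hx.symm
    · rintro ⟨x, i⟩ hx
      simp only [mem_coe, mem_filter, mem_univ, true_and] at hx ⊢
      obtain rfl : i = 0 := (h _ hx.1).resolve_left hx.2
      exact hx.symm
    · exact fun _ _ => rfl
    · rintro ⟨x, i⟩ hx
      simp only [mem_coe, mem_filter] at hx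
      obtain rfl : i = 0 := (h _ hx.1).resolve_left hx.2
      rfl

theorem copy_dj (I : Finset V) (j : Fin k) {X Y : Finset (V × Fin k)} (h : Disjoint X Y) :
    Disjoint (copy_pr I j X) (copy_pr I j Y) :=
  disjoint_left.2 fun _ a b => disjoint_left.1 h (copy_mem.1 a) (copy_mem.1 b)

theorem copy_onto {s t : E → V} (I : Finset V) (j : Fin k) {X T : Finset (V × Fin k)}
    (h : Onto (ls s I) (ls t I) X T) : Onto s t (copy_pr I j X) (copy_pr I j T) :=
  ⟨copy_dj I j h.1, fun e he => by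
    simp only [mem_cut, copy_mem] at he ⊢
    exact h.2 (e, j) (mem_cut.2 he)⟩

theorem copy_odd (I : Finset V) (X : Finset (V × Fin k)) : ∃ j : Fin k, (∀ v ∈ X, v.1 ∈ I) →
    (∀ i, copy_pr I i X ⊆ I) ∧ (Odd X.card → Odd (copy_pr I j X).card) := by
  by_cases h : ∀ v ∈ X, v.1 ∈ I
  swap
  · exact ⟨0, fun h' => absurd h' h⟩
  have h1 : ∀ i, copy_pr I i X ⊆ I := fun i x hx => h _ (copy_mem.1 hx)
  by_contra hc
  push Not at hc
  have h2 := copy_card I X fun v hv => Or.inl (h v hv)
  rw [filter_false_of_mem fun x _ hx => hx.1 (h _ hx.2), card_empty, add_zero] at h2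
  refine Nat.not_odd_iff_even.2 ?_ ((hc 0).2 h1).1
  rw [h2]
  exact even_sum _ fun j _ => by
    rw [inter_eq_left.2 (h1 j)]
    exact Nat.not_odd_iff_even.1 ((hc j).2 h1).2

end

theorem p_COPY (hTUT2 : S_TUT2) (hCNT : S_CNT) :
    S_COPY := by
  intro V E _ _ _ _ s t k _ c M I J b hc h3 hM hMI hIJ hb hS hJ
  have hI : ends s t c ⊆ I := (subset_ball b).trans hb
  have hW : ∀ (x : V) (j : Fin k), lf I x j ∈ ends s t c ×ˢ (univ : Finset (Fin k)) ↔
      x ∈ ends s t c := fun x j => by simp [lf]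
  refine (hTUT2 _ _ (ls s I) (ls t I)
    (univ.filter fun v : V × Fin k => v.1 ∈ J ∧ (v.1 ∈ I ∨ v.2 = 0)) (ends s t c ×ˢ univ)
    ({c} ×ˢ univ) ?_ ?_ ?_).imp fun L h => ⟨fun j => h.1 (by simp), fun x hx j => h.2 _ (by
      by_cases h : x ∈ I <;> simp [lf, h, hx])⟩
  · rintro ⟨x, j⟩ hv
    have hx := mem_ends.1 (mem_product.1 hv).1
    have := hc.1 c
    rw [deg_eq_sum, sum_product, sum_singleton]
    simp only [ls, copy_in (hI (s_mem_ends c)), copy_in (hI (t_mem_ends c)), Prod.mk.injEq]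
    rcases hx with rfl | rfl <;> simp [this, this.symm]
  · intro v hv
    refine deg_eq_zero.2 ?_
    rintro ⟨e, j⟩ he
    obtain rfl : e = c := mem_singleton.1 (mem_product.1 he).1
    exact ⟨fun h => hv (h ▸ (hW _ j).2 (s_mem_ends e)), fun h => hv (h ▸ (hW _ j).2 (t_mem_ends e))⟩
  intro S O hSU hO hX
  choose jf hjf using copy_odd (k := k) I
  have hU : ∀ {X : Finset (V × Fin k)}, X ⊆ univ.filter (fun v : V × Fin k => v.1 ∈ J ∧
      (v.1 ∈ I ∨ v.2 = 0)) → (∀ j, copy_pr I j X ⊆ J) ∧ ∀ v ∈ X, v.1 ∈ I ∨ v.2 = 0 := fun h =>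
    ⟨fun j x hx => (mem_filter.1 (h (copy_mem.1 hx))).2.1, fun v hv => (mem_filter.1 (h hv)).2.2⟩
  have hne : ∀ j, ∀ X ∈ O, ((∀ v ∈ X, v.1 ∈ I) → jf X = j) → (copy_pr I j X).Nonempty := by
    intro j X hx h
    by_cases h0 : ∀ v ∈ X, v.1 ∈ I
    · exact card_pos.1 (h h0 ▸ ((hjf X h0).2 (hX X hx).2.1).pos)
    · push Not at h0
      obtain ⟨⟨x, i⟩, a1, a2⟩ := h0
      obtain rfl : i = 0 := ((hU (hX X hx).1).2 _ a1).resolve_left a2
      exact ⟨x, copy_mem.2 (by rwa [copy_out a2])⟩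
  have hinj : ∀ j, ∀ X ∈ O, ∀ Y ∈ O, ((∀ v ∈ X, v.1 ∈ I) → jf X = j) →
      copy_pr I j X = copy_pr I j Y → X = Y := by
    intro j X hx Y hy h e
    by_contra hn
    have := copy_dj I j (hO X hx Y hy hn)
    rw [← e, disjoint_self] at this
    exact (hne j X hx h).ne_empty this
  have hT : ∀ j, copy_pr I j (S ∪ ends s t c ×ˢ univ) = copy_pr I j S ∪ ends s t c := fun j => by
    ext x
    simp only [copy_mem, mem_union, hW]
  have key := hCNT V E s t k c M I J (univ.filter fun x => x ∉ I ∧ (x, (0 : Fin k)) ∈ S) b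
    (O.filter fun X => ¬ ∀ v ∈ X, v.1 ∈ I).card (fun j => copy_pr I j S)
    (fun j => ((O.filter fun X => ∀ v ∈ X, v.1 ∈ I).filter fun X => jf X = j).image (copy_pr I j))
    (fun j => (O.filter fun X => ¬ ∀ v ∈ X, v.1 ∈ I).image (copy_pr I j)) (NeZero.pos k)
    hc h3 hM hMI hb hIJ hS hJ fun j => ?_
  · rw [copy_card I S (hU (hSU.trans sdiff_subset)).2,
      ← card_filter_add_card_filter_not (s := O) (fun X => ∀ v ∈ X, v.1 ∈ I),
      card_eq_sum_card_fiberwise (f := jf) (t := univ) (by simp [Set.MapsTo])]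
    refine le_of_eq_of_le ?_ key
    congr 1
    refine sum_congr rfl fun j _ => (card_image_of_injOn fun X hx Y hy e => ?_).symm
    simp only [mem_coe, mem_filter] at hx hy
    exact hinj j X hx.1.1 Y hy.1.1 (fun _ => hx.2) e
  have hmem : ∀ Z ∈ ((O.filter fun X => ∀ v ∈ X, v.1 ∈ I).filter fun X => jf X = j).image
      (copy_pr I j) ∪ (O.filter fun X => ¬ ∀ v ∈ X, v.1 ∈ I).image (copy_pr I j),
      ∃ X ∈ O, ((∀ v ∈ X, v.1 ∈ I) → jf X = j) ∧ copy_pr I j X = Z := by
    intro Z hZ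
    simp only [mem_union, mem_image, mem_filter] at hZ
    rcases hZ with ⟨X, a1, a2⟩ | ⟨X, a1, a2⟩
    · exact ⟨X, a1.1.1, fun _ => a1.2, a2⟩
    · exact ⟨X, a1.1, fun h => absurd h a1.2, a2⟩
  refine ⟨(hU (hSU.trans sdiff_subset)).1 j, ?_, ?_, ?_, ?_, ?_, ?_, ?_⟩
  · ext x
    by_cases h : x ∈ I
    · simp [h]
    · simp [h, copy_mem, copy_out h]
  · exact disjoint_left.2 fun x a1 a2 =>
      (mem_sdiff.1 (hSU (copy_mem.1 a1))).2 ((hW x j).2 a2)
  · refine card_image_of_injOn fun X hx Y hy e => ?_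
    simp only [mem_coe, mem_filter] at hx hy
    exact hinj j X hx.1 Y hy.1 (fun h => absurd h hx.2) e
  · refine disjoint_left.2 fun Z a1 a2 => ?_
    simp only [mem_image, mem_filter] at a1 a2
    obtain ⟨X, a1, rfl⟩ := a1
    obtain ⟨Y, a2, e⟩ := a2
    obtain rfl := hinj j X a1.1.1 Y a2.1 (fun _ => a1.2) e.symm
    exact a2.2 a1.1.2
  · intro Z a1 Z' a2 hn
    obtain ⟨X, hx, -, rfl⟩ := hmem Z a1
    obtain ⟨Y, hy, -, rfl⟩ := hmem Z' a2
    exact copy_dj I j (hO X hx Y hy fun e => hn (e ▸ rfl))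
  · intro Z a1
    simp only [mem_image, mem_filter] at a1
    obtain ⟨X, ⟨⟨a1, a2⟩, rfl⟩, rfl⟩ := a1
    exact ⟨(hjf X a2).1 _, (hjf X a2).2 (hX X a1).2.1⟩
  · intro Z a1
    obtain ⟨X, hx, a2, rfl⟩ := hmem Z a1
    exact ⟨hne j X hx a2, (hU (hX X hx).1).1 j, hT j ▸ copy_onto I j (hX X hx).2.2⟩

end Pool.Agent.P.MP_40718a_co.Bc

end

section
/-! Step TD. -/

set_option linter.unusedSectionVars false

namespace Pool.Agent.P.MP_40718a_co.Bc

open Finset ABF

section

variable {V E : Type} [Fintype V] [Fintype E] [DecidableEq V] [DecidableEq E]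
  {k : ℕ} [NeZero k]

theorem td_eq (s : E → V) (I : Finset V) (e : E) (i : Fin k) (x : V) (j : Fin k) :
    ls s I (e, i) = lf I x j ↔ s e = x ∧ (x ∈ I → i = j) := by
  unfold ls lf
  rw [Prod.mk.injEq]
  refine and_congr_right fun h => ?_
  simp only [h]
  by_cases hx : x ∈ I <;> simp [hx]

theorem td_vs (s t : E → V) (I : Finset V) (h : E × Fin k → ℤ) (x : V) (j : Fin k) :
    vs (ls s I) (ls t I) h (lf I x j) =
      if x ∈ I then vs s t (fun e => h (e, j)) x else ∑ i, vs s t (fun e => h (e, i)) x := by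
  unfold vs
  rw [Fintype.sum_prod_type]
  simp only [td_eq]
  by_cases hx : x ∈ I
  · simp only [hx, if_true, forall_const]
    refine sum_congr rfl fun e _ => ?_
    rw [sum_add_distrib]
    by_cases h1 : s e = x <;> by_cases h2 : t e = x <;> simp [h1, h2]
  · simp only [hx, if_false, IsEmpty.forall_iff, and_true]
    exact sum_comm

theorem td_deg (s t : E → V) (I : Finset V) (N : Finset (E × Fin k)) (x : V) (j : Fin k) :
    deg (ls s I) (ls t I) N (lf I x j) =
      if x ∈ I then deg s t (sheet N j) x else ∑ i, deg s t (sheet N i) x := by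
  have h1 := td_vs s t I (ind N) x j
  have h2 : ∀ i : Fin k, (fun e => ind N (e, i)) = ind (sheet N i) := by
    intro i; funext e; simp [ind, mem_sheet]
  simp only [h2, vs_ind] at h1
  split_ifs at h1 ⊢ <;> exact_mod_cast h1

end

theorem p_TD :
    S_TD := by
  intro V E _ _ _ _ s t k _ I
  refine ⟨td_deg s t I, fun h x => ?_, fun M hM hI x j => ?_⟩
  · rw [vs_sum]
    simp only [td_vs]
    by_cases hx : x ∈ I <;> simp [hx]
  · rw [td_deg]
    by_cases hx : x ∈ I
    · rw [if_pos hx, ← hM x]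
      refine deg_congr fun e he => ?_
      simp only [mem_sheet, mem_filter, mem_univ, true_and]
      refine ⟨fun h => h.1, fun h => ⟨h, Or.inl ?_⟩⟩
      rcases he with he | he
      · rw [he]; exact hx
      · rw [hI e h, he]; exact hx
    · rw [if_neg hx, sum_eq_single (0 : Fin k), ← hM x]
      · refine deg_congr fun e _ => ?_
        simp [mem_sheet]
      · intro i _ hi
        rw [deg_eq_zero]
        intro e he
        simp only [mem_sheet, mem_filter, mem_univ, true_and, hi, or_false] at he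
        refine ⟨fun h => hx (h ▸ he.2), fun h => hx (h ▸ (hI e he.1).1 he.2)⟩
      · simp

end Pool.Agent.P.MP_40718a_co.Bc

end

section
/-! Step CMP. -/

set_option linter.unusedSectionVars false

namespace Pool.Agent.P.MP_40718a_co.Bc

open Finset ABF

theorem cmp_grow {V E : Type} [Fintype V] [Fintype E] [DecidableEq V] [DecidableEq E]
    (s t : E → V) (F : Finset E) (P : Finset V) (hP : P.Nonempty)
    (h : ∀ X ⊆ P, X.Nonempty → X ≠ P →
      ∃ e ∈ F, s e ∈ P ∧ t e ∈ P ∧ ¬ (s e ∈ X ↔ t e ∈ X)) :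
    P.card ≤ (F ∩ ins s t P).card + 1 := by
  have key : ∀ n, n + 1 ≤ P.card →
      ∃ X ⊆ P, X.card = n + 1 ∧ n ≤ (F ∩ ins s t X).card := by
    intro n
    induction n with
    | zero =>
      obtain ⟨v, hv⟩ := hP
      exact fun _ => ⟨{v}, singleton_subset_iff.2 hv, card_singleton v, Nat.zero_le _⟩
    | succ n ih =>
      intro hn
      obtain ⟨X, hX, hc, hl⟩ := ih (by omega)
      obtain ⟨e, he, h1, h2, h3⟩ := h X hX (card_pos.1 (by omega)) (by rintro rfl; omega)
      obtain ⟨y, hy, hy', hs, ht⟩ : ∃ y ∈ P, y ∉ X ∧ s e ∈ insert y X ∧ t e ∈ insert y X := by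
        by_cases h4 : s e ∈ X
        · exact ⟨t e, h2, by tauto, mem_insert_of_mem h4, mem_insert_self _ _⟩
        · exact ⟨s e, h1, h4, mem_insert_self _ _, mem_insert_of_mem (by tauto)⟩
      refine ⟨insert y X, insert_subset hy hX, by rw [card_insert_of_notMem hy', hc], ?_⟩
      have h5 : e ∉ F ∩ ins s t X := by
        simp only [mem_inter, mem_ins]; tauto
      have h6 : insert e (F ∩ ins s t X) ⊆ F ∩ ins s t (insert y X) := by
        refine insert_subset (mem_inter.2 ⟨he, mem_ins.2 ⟨hs, ht⟩⟩) fun f hf => ?_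
        rw [mem_inter, mem_ins] at hf ⊢
        exact ⟨hf.1, mem_insert_of_mem hf.2.1, mem_insert_of_mem hf.2.2⟩
      have := card_le_card h6
      rw [card_insert_of_notMem h5] at this
      omega
  have h0 := card_pos.2 hP
  obtain ⟨X, hX, hc, hl⟩ := key (P.card - 1) (by omega)
  obtain rfl : X = P := eq_of_subset_of_card_le hX (by omega)
  omega

theorem p_CMP :
    S_CMP := by
  classical
  intro V E _ _ _ _ s t U L M hL hM
  let C : Finset V → Prop := fun P => ∀ e ∈ L ∪ M, s e ∈ U → t e ∈ U → (s e ∈ P ↔ t e ∈ P)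
  let lab : V → Finset V := fun v => U.filter fun w => ∀ P, C P → v ∈ P → w ∈ P
  have hlab : ∀ e ∈ L ∪ M, s e ∈ U → t e ∈ U → lab (s e) = lab (t e) := by
    intro e he h1 h2
    refine filter_congr fun w _ => forall₂_congr fun P hP => ?_
    rw [hP e he h1 h2]
  refine ⟨lab, hlab, fun a => ?_⟩
  set P := U.filter fun v => lab v = a with hPdef
  have hPU : P ⊆ U := filter_subset _ _
  rcases P.eq_empty_or_nonempty with h0 | h0
  · simp [h0, cut]
  have hg := cmp_grow s t (L ∪ M) P h0 fun X hX hne hXP => by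
    by_contra hc
    push Not at hc
    have hC : C X := by
      intro e he h1 h2
      have h3 := hlab e he h1 h2
      have h4 : s e ∈ P ↔ t e ∈ P := by simp only [hPdef, mem_filter, h1, h2, h3]
      by_cases h5 : s e ∈ P
      · exact hc e he h5 (h4.1 h5)
      · exact iff_of_false (fun h => h5 (hX h)) fun h => h5 (h4.2 (hX h))
    obtain ⟨x, hx⟩ := hne
    refine hXP (Subset.antisymm hX fun y hy => ?_)
    have h1 : y ∈ lab y := mem_filter.2 ⟨hPU hy, fun _ _ h => h⟩
    rw [(mem_filter.1 hy).2, ← (mem_filter.1 (hX hx)).2] at h1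
    exact (mem_filter.1 h1).2 X hC hx
  have h1 := handshake (s := s) (t := t) L P
  have h2 := handshake (s := s) (t := t) M P
  rw [sum_congr rfl fun v hv => hL v (hPU hv)] at h1
  rw [sum_congr rfl fun v hv => hM v (hPU hv)] at h2
  simp only [sum_const, smul_eq_mul, mul_one] at h1 h2
  have h3 : ((L ∪ M) ∩ ins s t P).card ≤ (L ∩ ins s t P).card + (M ∩ ins s t P).card := by
    rw [union_inter_distrib_right]; exact card_union_le _ _
  omega

end Pool.Agent.P.MP_40718a_co.Bc

end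

section
/-! Step PC. -/

set_option linter.unusedSectionVars false

namespace Pool.Agent.P.MP_40718a_co.Bc

open Finset ABF

open scoped symmDiff

theorem pc_parts {V E : Type} [Fintype V] [Fintype E] [DecidableEq V] [DecidableEq E]
    {s t : E → V} {k : ℕ} {U : Finset V} {L M : Finset E} (x : Fin k → V) (hx : ∀ l, x l ∈ U)
    (lab : V → Finset V) (h1 : ∀ e ∈ L ∪ M, s e ∈ U → t e ∈ U → lab (s e) = lab (t e))
    (h2 : ∀ a, (L ∩ cut s t (U.filter fun v => lab v = a)).card +
      (M ∩ cut s t (U.filter fun v => lab v = a)).card ≤ 2) :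
    ∃ P : Fin k → Finset V, (∀ l, ∀ v ∈ P l, v ∈ U) ∧ (∀ l l' v, v ∈ P l → v ∈ P l' → l = l') ∧
      (∀ l, ∀ e ∈ L ∪ M, s e ∈ U → t e ∈ U → (s e ∈ P l ↔ t e ∈ P l)) ∧
      (∀ l, (L ∩ cut s t (P l)).card + (M ∩ cut s t (P l)).card ≤ 2) ∧ ∀ l, ∃ l', x l ∈ P l' := by
  have m : ∀ l v, v ∈ (if ∀ l', lab (x l') = lab (x l) → l ≤ l' then
      U.filter fun v => lab v = lab (x l) else ∅) ↔
      (∀ l', lab (x l') = lab (x l) → l ≤ l') ∧ v ∈ U ∧ lab v = lab (x l) := fun l v => by
    split_ifs with h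
    · rw [mem_filter]
      exact ⟨fun h' => ⟨h, h'⟩, fun h' => h'.2⟩
    · exact ⟨fun h' => absurd h' (notMem_empty v), fun h' => absurd h'.1 h⟩
  refine ⟨fun l => if ∀ l', lab (x l') = lab (x l) → l ≤ l' then
    U.filter fun v => lab v = lab (x l) else ∅, fun l v hv => ((m l v).1 hv).2.1,
    fun l l' v hv hv' => ?_, fun l e he a b => ?_, fun l => ?_, fun l => ?_⟩
  · obtain ⟨a1, -, a2⟩ := (m l v).1 hv
    obtain ⟨b1, -, b2⟩ := (m l' v).1 hv'
    exact le_antisymm (a1 l' (b2.symm.trans a2)) (b1 l (a2.symm.trans b2))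
  · rw [m, m, h1 e he a b, and_iff_right a, and_iff_right b]
  · beta_reduce
    split_ifs
    · exact h2 _
    · simp
  · obtain ⟨l', a1, a2⟩ := exists_min_image (univ.filter fun l' => lab (x l') = lab (x l)) id
      ⟨l, by simp⟩
    have a3 := (mem_filter.1 a1).2
    exact ⟨l', (m l' _).2 ⟨fun j hj => a2 j (mem_filter.2 ⟨mem_univ _, hj.trans a3⟩), hx l, a3.symm⟩⟩

theorem p_PC (hCMP : S_CMP) :
    S_PC := by
  intro V E _ _ _ _ s t k U L M x hL hM hx
  obtain ⟨lab, h1, h2⟩ := hCMP V E s t U L M hL hM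
  obtain ⟨P, sub, dj, cl, le, ex⟩ := pc_parts x hx lab h1 h2
  have uq : ∀ e ∈ L ∪ M, ∀ l l', s e ∈ P l ∨ t e ∈ P l → s e ∈ P l' ∨ t e ∈ P l' → l = l' := by
    rintro e he l l' (a | a) (b | b)
    · exact dj l l' _ a b
    · exact dj l l' _ ((cl l e he (sub _ _ a) (sub _ _ b)).1 a) b
    · exact dj l l' _ ((cl l e he (sub _ _ b) (sub _ _ a)).2 a) b
    · exact dj l l' _ a b
  have key : ∀ (g : ℤ → ℤ), g 0 = 0 → ∀ (Λ : Finset (Fin k)) e,
      ∑ l ∈ Λ, g (if s e ∈ P l ∨ t e ∈ P l then ind L e - ind M e else 0) =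
        if ∃ l ∈ Λ, s e ∈ P l ∨ t e ∈ P l then g (ind L e - ind M e) else 0 := by
    intro g g0 Λ e
    by_cases he : e ∈ L ∪ M
    · split_ifs with h
      · obtain ⟨l, hl, h⟩ := h
        rw [sum_eq_single_of_mem l hl fun l' _ hne => by
          rw [if_neg fun h' => hne (uq e he _ _ h' h), g0], if_pos h]
      · exact sum_eq_zero fun l hl => by rw [if_neg fun h' => h ⟨l, hl, h'⟩, g0]
    · rw [mem_union, not_or] at he
      simp [ind, he.1, he.2, g0]
  refine ⟨fun l e => if s e ∈ P l ∨ t e ∈ P l then ind L e - ind M e else 0, fun Λ => ?_,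
    fun e he l h => ?_, fun l e a b => ?_, fun e => ?_, fun l => ?_⟩
  · refine ⟨univ.filter fun e => if ∃ l ∈ Λ, s e ∈ P l ∨ t e ∈ P l then e ∈ L else e ∈ M,
      fun v hv => ?_, fun e => ?_⟩
    · by_cases h : ∃ l ∈ Λ, v ∈ P l
      · obtain ⟨l, hl, h⟩ := h
        rw [← hL v hv]
        refine deg_congr fun e he => ?_
        rw [mem_filter, and_iff_right (mem_univ e),
          if_pos ⟨l, hl, by rcases he with rfl | rfl <;> simp [h]⟩]
      · rw [← hM v hv]
        refine deg_congr fun e he => ?_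
        rw [mem_filter, and_iff_right (mem_univ e)]
        split_ifs with h'
        · obtain ⟨l, hl, h'⟩ := h'
          have h3 : v ∉ P l := fun a => h ⟨l, hl, a⟩
          have h4 : e ∉ L ∪ M := fun a => by
            have h5 := cl l e a
            rcases he with rfl | rfl
            · have h6 := h'.resolve_left h3
              exact h3 ((h5 hv (sub _ _ h6)).2 h6)
            · have h6 := h'.resolve_right h3
              exact h3 ((h5 (sub _ _ h6) hv).1 h6)
          rw [mem_union, not_or] at h4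
          exact iff_of_false h4.1 h4.2
        · rfl
    · refine (key id rfl Λ e).trans ?_
      by_cases h : ∃ l ∈ Λ, s e ∈ P l ∨ t e ∈ P l
      · simp only [ind, mem_filter, mem_univ, true_and, if_pos h, id]
      · simp only [ind, mem_filter, mem_univ, true_and, if_neg h, sub_self]
  · obtain ⟨l', h'⟩ := ex l
    refine (key id rfl univ e).trans ?_
    rw [if_pos ⟨l', mem_univ _, Or.inl (h ▸ h')⟩, id, ind, if_pos he]
  · exact if_neg fun h => h.elim (fun c => a (sub _ _ c)) fun c => b (sub _ _ c)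
  · refine (key abs abs_zero univ e).trans_le ?_
    split_ifs
    · by_cases a : e ∈ L <;> by_cases b : e ∈ M <;> simp [ind, a, b]
    · exact ind_nonneg _ _
  · have h3 : ∑ f ∈ cut s t U, |if s f ∈ P l ∨ t f ∈ P l then ind L f - ind M f else 0| =
        ((L ∩ cut s t (P l)) ∆ (M ∩ cut s t (P l))).card := by
      rw [← univ_inter (cut s t U), ← sum_ite_mem, ← inter_univ (_ ∆ _), ← sum_ind]
      refine sum_congr rfl fun f _ => ?_
      have h4 := cl l f
      have h5 := sub l (s f)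
      have h6 := sub l (t f)
      by_cases a : f ∈ L <;> by_cases b : f ∈ M <;> by_cases c : s f ∈ P l <;>
        by_cases d : t f ∈ P l <;> simp_all [ind, mem_symmDiff]
    have h4 := card_symmDiff_add (L ∩ cut s t (P l)) (M ∩ cut s t (P l))
    have h5 := parity_of_odd (s := s) (t := t) (M := L) (X := P l)
      fun v hv => by rw [hL v (sub l v hv)]; exact odd_one
    have h6 := parity_of_odd (s := s) (t := t) (M := M) (X := P l)
      fun v hv => by rw [hM v (sub l v hv)]; exact odd_one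
    have h7 := le l
    rw [Nat.even_iff] at h5 h6
    beta_reduce
    rw [h3]
    omega

end Pool.Agent.P.MP_40718a_co.Bc

end

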