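import Pool.Agent.P.MP_40718a_co.Bc.Iface

section
/-! Step L0. -/

set_option linter.unusedSectionVars false

namespace Pool.Agent.P.MP_40718a_co.Bc

open Finset ABF

theorem l0_par (a : ℤ) : (2 : ℤ) ∣ |a| - a := by
  rcases abs_cases a with h | h <;> rw [h.1] <;> omega

theorem l0_one {V E : Type} [Fintype V] [Fintype E] [DecidableEq V] [DecidableEq E] {s t : E → V}
    {k : ℕ} [NeZero k] {I : Finset V} {N : Finset (E × Fin k)} {x : V} {f : E} (hx : x ∉ I)
    (hf : s f = x ∨ t f = x) (hN : deg (ls s I) (ls t I) N (lf I x 0) = 1) :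
    ∑ j, ind N (f, j) ≤ 1 := by
  have h1 : ∀ j : Fin k, ls s I (f, j) = lf I x 0 ∨ ls t I (f, j) = lf I x 0 := fun j =>
    hf.imp (fun h => by simp [ls, lf, h, hx]) fun h => by simp [ls, lf, h, hx]
  have h2 : (univ.filter fun j : Fin k => (f, j) ∈ N).card ≤ 1 :=
    card_le_one.2 fun i hi j hj => (Prod.ext_iff.1 (edge_unique hN.le (mem_filter.1 hi).2
      (mem_filter.1 hj).2 (h1 i) (h1 j))).2
  simp only [ind, sum_boole]
  exact_mod_cast h2

theorem l0_abs {E : Type} {k : ℕ} (ph : Fin k → E × Fin k → ℤ) (e : E) :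
    ∑ l, |∑ j, ph l (e, j)| ≤ ∑ j, ∑ l, |ph l (e, j)| := by
  rw [sum_comm]
  exact sum_le_sum fun l _ => abs_sum_le_sum_abs _ _

theorem p_L0 (hCOPY : S_COPY) (hPC : S_PC) (hTD : S_TD) :
    S_L0 := by
  intro V E _ _ _ _ s t k _ c M I J b hC h3 hM hMI hJ hI hS hb
  have hIJ : I ⊆ J := (subset_ball 1).trans hJ
  have hcI : s c ∈ I := hI (subset_ball b (s_mem_ends c))
  obtain ⟨L, hcL, hL⟩ := hCOPY V E s t k c M I J b hC h3 hM hMI hIJ hI hS hb
  obtain ⟨T1, T2, T3⟩ := hTD V E s t k I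
  have hMt := T3 M hM hMI
  have hsum : ∀ e, ∑ j : Fin k, ind (univ.filter fun e : E × Fin k =>
      e.1 ∈ M ∧ (s e.1 ∈ I ∨ e.2 = 0)) (e, j) = (if s e ∈ I then (k : ℤ) else 1) * ind M e := by
    intro e
    by_cases h1 : e ∈ M <;> by_cases h2 : s e ∈ I <;> simp [ind, h1, h2]
  generalize (univ.filter fun e : E × Fin k => e.1 ∈ M ∧ (s e.1 ∈ I ∨ e.2 = 0)) = Mt at hMt hsum
  obtain ⟨U, hU, hU'⟩ : ∃ U : Finset (V × Fin k), (∀ x j, lf I x j ∈ U ↔ x ∈ J) ∧
      ∀ v ∈ U, ∃ x ∈ J, ∃ j, v = lf I x j := by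
    refine ⟨(J ×ˢ univ).image fun p => lf I p.1 p.2, fun x j => ⟨fun h => ?_, fun h =>
      mem_image.2 ⟨(x, j), by simpa using h, rfl⟩⟩, fun v h => ?_⟩
    · obtain ⟨p, hp, e⟩ := mem_image.1 h
      exact (show p.1 = x from congrArg Prod.fst e) ▸ (mem_product.1 hp).1
    · obtain ⟨p, hp, e⟩ := mem_image.1 h
      exact ⟨p.1, (mem_product.1 hp).1, p.2, e.symm⟩
  obtain ⟨ph, P1, P2, P3, P4, P5⟩ := hPC (V × Fin k) (E × Fin k) (ls s I) (ls t I) k U L Mt
    (fun l => lf I (s c) l)
    (fun v hv => by obtain ⟨x, hx, j, rfl⟩ := hU' v hv; exact hL x hx j)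
    (fun v hv => by obtain ⟨x, -, j, rfl⟩ := hU' v hv; exact hMt x j)
    (fun l => (hU _ _).2 (hIJ hcI))
  have hcut : cut (ls s I) (ls t I) U = cut s t J ×ˢ univ := by
    ext e
    simp only [mem_cut, mem_product, mem_univ, and_true, ls, hU]
  refine ⟨fun l e => ∑ j, ph l (e, j), ⟨fun l e h1 h2 => ?_, fun l v hv => ?_, fun l => ?_,
    fun f hf => ?_, fun e => ?_, ?_⟩, fun Λ => ?_⟩
  · exact sum_eq_zero fun j _ => P3 l _ (fun h => h1 ((hU _ _).1 h)) fun h => h2 ((hU _ _).1 h)
  · obtain ⟨N, hN, e⟩ := P1 {l}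
    have e' : ph l = fun e => ind N e - ind Mt e := funext fun f => by simpa using e f
    have h0 : ∀ j, vs (ls s I) (ls t I) (ph l) (lf I v j) = 0 := fun j => by
      rw [e', vs_sub, vs_ind, vs_ind, hN _ ((hU _ _).2 hv), hMt, sub_self]
    rw [T2]
    simp [h0]
  · have h1 := P5 l
    rw [hcut, sum_product] at h1
    have h2 : ∑ f ∈ cut s t J, |∑ j, ph l (f, j)| ≤ ∑ f ∈ cut s t J, ∑ j, |ph l (f, j)| :=
      sum_le_sum fun f _ => abs_sum_le_sum_abs _ _
    have h3 : 0 ≤ ∑ f ∈ cut s t J, |∑ j, ph l (f, j)| := sum_nonneg fun f _ => abs_nonneg _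
    have h4 : (2 : ℤ) ∣ ∑ f ∈ cut s t J, ∑ j, |ph l (f, j)| -
        ∑ f ∈ cut s t J, |∑ j, ph l (f, j)| := by
      rw [← sum_sub_distrib]
      refine dvd_sum fun f _ => ?_
      have h5 : (2 : ℤ) ∣ ∑ j, |ph l (f, j)| - ∑ j, ph l (f, j) := by
        rw [← sum_sub_distrib]
        exact dvd_sum fun j _ => l0_par _
      have h6 := l0_par (∑ j, ph l (f, j))
      omega
    dsimp only
    omega
  · obtain ⟨x, hx, hxI, hf⟩ : ∃ x ∈ J, x ∉ I ∧ (s f = x ∨ t f = x) := by
      rw [mem_cut] at hf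
      by_cases h : s f ∈ J
      · exact ⟨s f, h, fun h' => hf (iff_of_true h (hJ (ball_step_t (r := 0) h'))), Or.inl rfl⟩
      · exact ⟨t f, by tauto, fun h' => h (hJ (ball_step_s (r := 0) h')), Or.inr rfl⟩
    have h1 := l0_one hxI hf (hL x hx 0)
    have h2 := l0_one hxI hf (hMt x 0)
    have h3 : ∑ j, ∑ l, |ph l (f, j)| ≤ ∑ j, (ind L (f, j) + ind Mt (f, j)) :=
      sum_le_sum fun j _ => (P4 _).trans (by
        unfold ind
        simp only [mem_union]
        split_ifs <;> first | omega | tauto)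
    rw [sum_add_distrib] at h3
    have h4 := l0_abs ph f
    dsimp only
    omega
  · refine (l0_abs ph e).trans ?_
    simpa using sum_le_sum (s := univ) fun j _ => (P4 (e, j)).trans (ind_le_one _ _)
  · dsimp only
    rw [sum_comm, sum_congr rfl fun j _ => P2 (c, j) (hcL j) j rfl, sum_sub_distrib, hsum]
    simp [hcI]
  · obtain ⟨N, hN, e⟩ := P1 Λ
    refine ⟨sheet N, ⟨fun j x hx => ?_, fun x hx => ?_⟩, fun f => ?_⟩
    · have := T1 N x j
      rw [hN _ ((hU _ _).2 (hIJ hx)), if_pos hx] at this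
      exact this.symm
    · have := T1 N x 0
      rw [hN _ ((hU _ _).2 (mem_sdiff.1 hx).1), if_neg (mem_sdiff.1 hx).2] at this
      exact this.symm
    · dsimp only
      rw [sum_comm, sum_congr rfl fun j _ => e (f, j), sum_sub_distrib, hsum]
      simp only [ind, mem_sheet, Nat.cast_ite, Nat.cast_one]

end Pool.Agent.P.MP_40718a_co.Bc

end

section
/-! Step INEQ. -/

set_option linter.unusedSectionVars false

namespace Pool.Agent.P.MP_40718a_co.Bc

open Finset ABF

theorem p_INEQ :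
    S_INEQ := by
  intro V E _ _ _ _ s t k M I I' J X N hk hM hI hE hS hX ho
  have K : ∀ e ∈ M, ∀ x, s e = x ∨ t e = x → (x ∈ I' ↔ s e ∈ I ∧ t e ∈ I) := fun e he x hx => by
    rw [hI]
    refine ⟨fun ⟨f, hf, h⟩ => ?_, fun h => ⟨e, mem_inter.2 ⟨he, mem_ins.2 h⟩, hx⟩⟩
    rw [edge_unique (hM x).le he (mem_inter.1 hf).1 hx h]
    exact mem_ins.1 (mem_inter.1 hf).2
  have hsub : ∀ x ∈ I', x ∈ I := fun x hx => by
    obtain ⟨e, he, h⟩ := (hI x).1 hx
    have := mem_ins.1 (mem_inter.1 he).2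
    rcases h with rfl | rfl <;> tauto
  have h1 : M ∩ cut s t (X \ I') = M ∩ (cut s t X \ ins s t I) := by
    ext e
    simp only [mem_inter, mem_cut, mem_sdiff, mem_ins]
    refine and_congr_right fun he => ?_
    rw [K e he _ (Or.inl rfl), K e he _ (Or.inr rfl)]
    tauto
  have p1 := Nat.even_iff.1 (parity_of_odd (s := s) (t := t) (M := M) (X := X \ I')
    fun v _ => by rw [hM v]; exact odd_one)
  have p2 : k * (X ∩ I').card + (X \ I').card =
      2 * ∑ j, (N j ∩ ins s t X).card + ∑ j, (N j ∩ cut s t X).card := by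
    rw [mul_sum, ← sum_add_distrib, ← sum_congr rfl fun j _ => handshake (N j) X, sum_comm,
      ← sum_inter_add_sum_sdiff X I', sum_congr rfl (g := fun _ => k) fun v hv => by
        simp [fun j => hS.1 j v (mem_inter.1 hv).2],
      sum_congr rfl (s₁ := X \ I') (g := fun _ => 1) fun v hv =>
        hS.2 v (sdiff_subset_sdiff hX (Subset.refl _) hv)]
    simp [mul_comm]
  have p3 := card_sdiff_add_card_inter X I'
  have p4 : (M ∩ (cut s t X \ ins s t I)).card ≤ (cut s t X \ ins s t I).card :=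
    card_le_card inter_subset_right
  have p5 : Odd (X ∩ I').card → (M ∩ (cut s t X \ ins s t I)).card = 0 →
      k ≤ ∑ j, (N j ∩ cut s t X).card + ((cut s t X \ ins s t I).card - 1) := fun hx h0 => by
    have a1 : k ≤ ∑ j, (N j ∩ cut s t X).card +
        (univ.filter fun j => N j ∩ cut s t X = ∅).card := by
      rw [card_filter, ← sum_add_distrib]
      refine le_trans (by simp) (sum_le_sum (f := fun _ => 1) fun j _ => ?_)
      split_ifs with h
      · omega
      · exact card_pos.2 (nonempty_iff_ne_empty.2 h)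
    have a2 : (univ.filter fun j => N j ∩ cut s t X = ∅).card ≤
        (cut s t (X \ I) ∩ cut s t I).card := by
      refine card_le_card_of_forall_subsingleton (fun j f => ∃ w ∈ J \ I',
        w = (if f ∈ M ↔ s f ∈ I then s f else t f) ∧ deg s t (N j) w ≠ 0) (fun j hj => ?_) ?_
      · obtain ⟨e, he⟩ := card_pos.1 (odd_cut (fun v hv => hS.1 j v (mem_inter.1 hv).2) hx).pos
        have b1 : e ∉ cut s t X := fun h => by
          have := mem_inter.2 ⟨(mem_inter.1 he).1, h⟩
          simp [(mem_filter.1 hj).2] at this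
        obtain ⟨w, x, hw, hw', hx, hx', h⟩ : ∃ w x, w ∈ X ∧ w ∉ I' ∧ x ∈ X ∧ x ∈ I' ∧
            (s e = w ∧ t e = x ∨ s e = x ∧ t e = w) := by
          have := (mem_inter.1 he).2
          simp only [mem_cut, mem_inter] at this b1
          by_cases h : s e ∈ I'
          · exact ⟨t e, s e, by tauto⟩
          · exact ⟨s e, t e, by tauto⟩
        have hd : deg s t (N j) w ≠ 0 := fun h0 => by
          have := deg_eq_zero.1 h0 e (mem_inter.1 he).1
          tauto
        have hJ := mem_sdiff.2 ⟨hX hw, hw'⟩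
        have hxI := hsub x hx'
        by_cases hwI : w ∈ I
        · obtain ⟨f, hf, h'⟩ := exists_edge (hM w)
          have c1 := K f hf w h'
          have c2 : f ∉ M ∩ (cut s t X \ ins s t I) := by simp [card_eq_zero.1 h0]
          simp only [mem_inter, mem_sdiff, mem_cut, mem_ins] at c2
          refine ⟨f, ?_, w, hJ, ?_, hd⟩
          · simp only [mem_inter, mem_sdiff, mem_cut]
            rcases h' with rfl | rfl <;> tauto
          · rcases h' with rfl | rfl
            · rw [if_pos (by tauto)]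
            · rw [if_neg (by tauto)]
        · have c1 : e ∉ M := fun hm => by
            have := (K e hm x (by tauto)).1 hx'
            rcases h with ⟨rfl, -⟩ | ⟨-, rfl⟩ <;> tauto
          refine ⟨e, ?_, w, hJ, ?_, hd⟩
          · simp only [mem_inter, mem_sdiff, mem_cut]
            rcases h with ⟨rfl, rfl⟩ | ⟨rfl, rfl⟩ <;> tauto
          · rcases h with ⟨rfl, rfl⟩ | ⟨rfl, rfl⟩
            · rw [if_pos (by tauto)]
            · rw [if_neg (by tauto)]
      · rintro f - i ⟨-, w, hw, rfl, hi⟩ j ⟨-, w, -, rfl, hj⟩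
        by_contra hne
        have := sum_le_sum_of_subset (f := fun i => deg s t (N i)
          (if f ∈ M ↔ s f ∈ I then s f else t f)) (subset_univ {i, j})
        rw [sum_pair hne, hS.2 _ hw] at this
        omega
    have a3 : (cut s t (X \ I) \ cut s t I).card ≤ (cut s t X \ ins s t I).card :=
      card_le_card fun e => by
        simp only [mem_sdiff, mem_cut, mem_ins]
        tauto
    rcases (X \ I).eq_empty_or_nonempty with h | h
    · rw [h, cut_empty, empty_inter, card_empty] at a2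
      omega
    · have := hE _ (sdiff_subset_sdiff hX (Subset.refl _)) h
      omega
  rw [h1] at p1
  have p6 := Nat.mul_mod k (X ∩ I').card 2
  rw [Nat.odd_iff] at ho p5
  generalize (M ∩ (cut s t X \ ins s t I)).card = j at *
  rcases Nat.mod_two_eq_zero_or_one (X ∩ I').card with h | h <;> rw [h] at p6 <;>
    refine ⟨fun h2 => ?_, fun h2 => ?_⟩ <;>
    obtain rfl | rfl | rfl | rfl : j = 0 ∨ j = 1 ∨ j = 2 ∨ j = 3 := by omega
  all_goals omega

end Pool.Agent.P.MP_40718a_co.Bc

end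

section
/-! Step L1. -/

set_option linter.unusedSectionVars false

namespace Pool.Agent.P.MP_40718a_co.Bc

open Finset ABF

theorem p_L1 (hL0 : S_L0) (hINEQ : S_INEQ) :
    S_L1 := by
  intro V E _ _ _ _ s t k c M I J b hk hC hE hM hIJ hB hS hb hX
  classical
  have : NeZero k := ⟨by omega⟩
  obtain ⟨I', hI'⟩ : ∃ I' : Finset V,
      ∀ x, x ∈ I' ↔ ∃ e ∈ M ∩ ins s t I, s e = x ∨ t e = x :=
    ⟨univ.filter fun x => ∃ e ∈ M ∩ ins s t I, s e = x ∨ t e = x, fun x => by
      rw [mem_filter]; simp only [mem_univ, true_and]⟩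
  have key : ∀ e ∈ M, ∀ x, s e = x ∨ t e = x → (x ∈ I' ↔ e ∈ ins s t I) := by
    intro e he x hx
    rw [hI']
    constructor
    · rintro ⟨f, hf, hfx⟩
      rw [mem_inter] at hf
      rw [edge_unique (hM x).le he hf.1 hx hfx]
      exact hf.2
    · intro h
      exact ⟨e, mem_inter.2 ⟨he, h⟩, hx⟩
  have hcl : ∀ e ∈ M, s e ∈ I' ↔ t e ∈ I' := fun e he =>
    (key e he _ (Or.inl rfl)).trans (key e he _ (Or.inr rfl)).symm
  have hsub : I' ⊆ I := by
    intro x hx
    obtain ⟨e, he, hex⟩ := (hI' x).1 hx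
    have := mem_ins.1 (mem_inter.1 he).2
    rcases hex with rfl | rfl
    · exact this.1
    · exact this.2
  have hB' : ball s t (ends s t c) b ⊆ I' := by
    intro x hx
    obtain ⟨e, he, hex⟩ := exists_edge (hM x)
    refine (key e he x hex).2 (mem_ins.2 ?_)
    rcases hex with rfl | rfl
    · exact ⟨hB (ball_mono_r (Nat.le_succ b) hx), hB (ball_step_t hx)⟩
    · exact ⟨hB (ball_step_s hx), hB (ball_mono_r (Nat.le_succ b) hx)⟩
  obtain ⟨φ, h0, hΛ⟩ := hL0 V E s t k c M I' J b hC hE hM hcl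
    ((ball_mono hsub 1).trans hIJ) hB' hS hb
  refine ⟨φ, h0, fun Λ => ?_⟩
  obtain ⟨N, hN, hφ⟩ := hΛ Λ
  have hk' : (4 : ℤ) ≤ k := by exact_mod_cast hk
  have hid : ∀ e, k * ind M e + ∑ l ∈ Λ, φ l e =
      ∑ j, ind (N j) e + ((k : ℤ) - 1) * ind (M \ ins s t I) e := by
    intro e
    rw [hφ e]
    by_cases he : e ∈ M
    · have h1 := key e he _ (Or.inl rfl)
      by_cases h2 : e ∈ ins s t I
      · have h3 : e ∉ M \ ins s t I := fun h => (mem_sdiff.1 h).2 h2
        rw [if_pos (h1.2 h2), show ind (M \ ins s t I) e = 0 from if_neg h3]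
        ring
      · have h3 : e ∈ M \ ins s t I := mem_sdiff.2 ⟨he, h2⟩
        rw [if_neg (fun h => h2 (h1.1 h)), show ind (M \ ins s t I) e = 1 from if_pos h3,
          show ind M e = 1 from if_pos he]
        ring
    · have h3 : e ∉ M \ ins s t I := fun h => he (mem_sdiff.1 h).1
      rw [show ind (M \ ins s t I) e = 0 from if_neg h3, show ind M e = 0 from if_neg he]
      ring
  have hNn : ∀ e, 0 ≤ ∑ j, ind (N j) e := fun e => sum_nonneg fun j _ => ind_nonneg _ _
  refine ⟨fun e => ?_, fun e he => ?_, fun X hXJ hXo => ?_⟩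
  · rw [hid e]
    exact add_nonneg (hNn e) (mul_nonneg (by omega) (ind_nonneg _ _))
  · have h1 := hid e
    have h2 := hNn e
    by_cases h : e ∈ M
    · have h3 : e ∈ M \ ins s t I := mem_sdiff.2 ⟨h, he⟩
      rw [show ind (M \ ins s t I) e = 1 from if_pos h3,
          show ind M e = 1 from if_pos h] at h1
      rw [show ind M e = 1 from if_pos h]
      omega
    · have h3 : e ∉ M \ ins s t I := fun h' => h (mem_sdiff.1 h').1
      rw [show ind (M \ ins s t I) e = 0 from if_neg h3, show ind M e = 0 from if_neg h] at h1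
      rw [show ind M e = 0 from if_neg h]
      omega
  · have hsum : ∑ e ∈ cut s t X, (k * ind M e + ∑ l ∈ Λ, φ l e) =
        ((∑ j, (N j ∩ cut s t X).card : ℕ) : ℤ) +
          ((k : ℤ) - 1) * ((M ∩ (cut s t X \ ins s t I)).card : ℕ) := by
      rw [sum_congr rfl fun e _ => hid e, sum_add_distrib, sum_comm, ← mul_sum, sum_ind]
      have h1 : (M \ ins s t I) ∩ cut s t X = M ∩ (cut s t X \ ins s t I) := by
        ext e
        simp only [mem_inter, mem_sdiff]
        tauto
      rw [h1]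
      push_cast
      simp only [sum_ind]
    obtain ⟨h1, h2⟩ := hINEQ V E s t k M I I' J X N hk hM hI' hX hN hXJ hXo
    rw [hsum]
    refine ⟨fun h => ?_, fun h => ?_⟩
    · have h3 := h1 h
      zify at h3
      push_cast
      linarith
    · have h3 := h2 h
      zify at h3
      push_cast
      linarith

end Pool.Agent.P.MP_40718a_co.Bc

end

section
/-! Step LOC. -/

set_option linter.unusedSectionVars false

namespace Pool.Agent.P.MP_40718a_co.Bc

open Finset ABF

theorem loc_split {A B : Type} [Fintype A] [Fintype B] [DecidableEq A] [DecidableEq B]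
    (Λ : Finset (A × B)) (g : A → B → ℤ) :
    ∑ w ∈ Λ, g w.1 w.2 = ∑ i, ∑ l ∈ univ.filter (fun l => (i, l) ∈ Λ), g i l := by
  simp only [sum_filter]
  rw [← Fintype.sum_prod_type' (fun i l => if (i, l) ∈ Λ then g i l else 0), ← sum_filter]
  congr 1
  ext w
  simp

theorem p_LOC :
    S_LOC := by
  intro V E _ _ _ _ s t q k c I J M φ hc hq h
  have hq' : ∀ e, s e ∈ J ∨ t e ∈ J → ∑ i, ind (M i) e = q := fun e he => by
    rw [sum_ind_cnt, hq e he]
  have hcon : ∀ z : ℤ, ∑ _i : Fin (3 * q), z = 3 * q * z := fun z => by simp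
  have hz : ∀ (Λ : Finset (Fin (3 * q) × Fin k)) e, ¬ (s e ∈ J ∨ t e ∈ J) →
      ∑ w ∈ Λ, φ w.1 w.2 e = 0 := fun Λ e he =>
    sum_eq_zero fun w _ => (h w.1).1.1 w.2 e (fun h => he (Or.inl h)) (fun h => he (Or.inr h))
  have hs : ∀ (Λ : Finset (Fin (3 * q) × Fin k)) e, s e ∈ J ∨ t e ∈ J →
      (q * k : ℤ) + ∑ w ∈ Λ, φ w.1 w.2 e =
        ∑ i, (k * ind (M i) e + ∑ l ∈ univ.filter (fun l => (i, l) ∈ Λ), φ i l e) := by
    intro Λ e he
    rw [sum_add_distrib, ← mul_sum, hq' e he, loc_split Λ (fun i l => φ i l e), mul_comm]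
  refine ⟨fun w e => (h w.1).1.1 w.2 e, fun w => (h w.1).1.2.1 w.2, fun w => (h w.1).1.2.2.1 w.2,
    fun f hf => ?_, fun e => ?_, ?_, fun Λ => ⟨fun e => ?_, fun e he => ?_, fun X hX ho h3 => ?_⟩⟩
  · rw [Fintype.sum_prod_type' (fun i l => |φ i l f|)]
    refine (sum_le_sum fun i _ => (h i).1.2.2.2.1 f hf).trans (le_of_eq ?_)
    rw [hcon]; ring
  · rw [Fintype.sum_prod_type' (fun i l => |φ i l e|)]
    exact (sum_le_sum fun i _ => (h i).1.2.2.2.2.1 e).trans (le_of_eq (hcon _))
  · rw [Fintype.sum_prod_type' (fun i l => φ i l c),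
      sum_congr rfl fun i _ => (h i).1.2.2.2.2.2, sum_sub_distrib, hcon, ← mul_sum,
      hq' c (Or.inl hc)]
    ring
  · by_cases he : s e ∈ J ∨ t e ∈ J
    · rw [hs Λ e he]
      exact sum_nonneg fun i _ => ((h i).2 _).1 e
    · rw [hz Λ e he]; positivity
  · by_cases he' : s e ∈ J ∨ t e ∈ J
    · rw [loc_split Λ (fun i l => φ i l e), ← hq' e he', ← sum_neg_distrib]
      exact sum_le_sum fun i _ => ((h i).2 _).2.1 e he
    · rw [hz Λ e he']; simp
  · have hm : ∀ e ∈ cut s t X, s e ∈ J ∨ t e ∈ J := fun e he => by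
      rw [mem_cut] at he
      by_contra hn
      rw [not_or] at hn
      exact he ⟨fun h => absurd (hX h) hn.1, fun h => absurd (hX h) hn.2⟩
    rw [sum_congr rfl fun e he => hs Λ e (hm e he), sum_comm]
    rcases Nat.lt_or_ge (cut s t X \ ins s t I).card 3 with h2 | h2
    · rw [← hcon]
      exact sum_le_sum fun i _ => (((h i).2 _).2.2 X hX ho).1 (by omega)
    · have h4 := sum_le_sum fun i (_ : i ∈ univ) =>
        (((h i).2 (univ.filter (fun l => (i, l) ∈ Λ))).2.2 X hX ho).2 h3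
      have h5 : ∑ i, ((M i ∩ (cut s t X \ ins s t I)).card : ℤ) = 3 * q := by
        simp only [← sum_ind]
        rw [sum_comm, sum_congr rfl fun e he => hq' e (hm e (mem_sdiff.1 he).1), sum_const,
          le_antisymm h3 h2]
        simp
      rw [sum_add_distrib, sum_add_distrib, hcon, hcon, ← mul_sum, h5] at h4
      linarith

end Pool.Agent.P.MP_40718a_co.Bc

end

section
/-! Step MIN. -/

set_option linter.unusedSectionVars false

namespace Pool.Agent.P.MP_40718a_co.Bc

open Finset ABF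

theorem min_exists {V : Type} [Fintype V] [DecidableEq V] (f : Finset V → ℕ) {B Ω : Finset V}
    (h : B ⊆ Ω) : ∃ I, B ⊆ I ∧ I ⊆ Ω ∧ (∀ I', B ⊆ I' → I' ⊆ Ω → f I ≤ f I') ∧
      ∀ I', B ⊆ I' → I' ⊆ Ω → f I' = f I → I'.card ≤ I.card := by
  obtain ⟨I1, h1, h2⟩ := exists_min_image (univ.filter fun I : Finset V => B ⊆ I ∧ I ⊆ Ω) f
    ⟨B, by simp [h]⟩
  obtain ⟨I, h3, h4⟩ := exists_max_image
    (univ.filter fun I : Finset V => (B ⊆ I ∧ I ⊆ Ω) ∧ f I = f I1) card
    ⟨I1, by simpa using h1⟩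
  simp only [mem_filter, mem_univ, true_and] at h1 h2 h3 h4
  refine ⟨I, h3.1.1, h3.1.2, fun I' a b => ?_, fun I' a b c => h4 I' ⟨⟨a, b⟩, c.trans h3.2⟩⟩
  rw [h3.2]; exact h2 I' ⟨a, b⟩

theorem p_MIN :
    S_MIN := by
  intro V E _ _ _ _ s t B Ω a b hc h1 hB ha hs hb
  obtain ⟨I, hBI, hIΩ, hmin, hmax⟩ := min_exists (fun X => (cut s t X).card) hB
  have hcard : I.card ≤ b := by
    have h2 := hmin B (Subset.refl _) hB
    have h3 := cut_card_le hc B
    rcases hs I (by omega) with h4 | h4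
    · exact h4
    · have := card_le_card (compl_subset_compl.2 hIΩ)
      omega
  refine ⟨I, hBI, hIΩ, hcard, ?_, ?_⟩
  · obtain ⟨r, hr, hsph⟩ := exists_sphere (s := s) (t := t) I B
    have hcut := cut_inter_ball hsph
    by_contra hn
    have hne : (I \ (I ∩ ball s t B r)).Nonempty := by
      by_contra h0
      rw [not_nonempty_iff_eq_empty, sdiff_eq_empty_iff_subset] at h0
      exact hn ((h0.trans inter_subset_right).trans (ball_mono_r (by omega)))
    have hnu : I \ (I ∩ ball s t B r) ≠ univ := by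
      intro h0
      have h2 : Ωᶜ ⊆ ∅ := by
        intro x hx
        have h3 : x ∈ I \ (I ∩ ball s t B r) := h0 ▸ mem_univ x
        exact absurd (hIΩ (mem_sdiff.1 h3).1) (mem_compl.1 hx)
      have := card_le_card h2
      rw [card_empty] at this
      omega
    obtain ⟨e, he⟩ := card_pos.1 (h1 _ hne hnu)
    have he1 := cut_sdiff_subset inter_subset_left hcut he
    have he2 : e ∉ cut s t (I ∩ ball s t B r) := by
      simp only [mem_cut, mem_sdiff, mem_inter] at he he1 ⊢
      tauto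
    have h4 := card_lt_card (⟨hcut, fun h => he2 (h he1)⟩ : cut s t (I ∩ ball s t B r) ⊂ cut s t I)
    have h5 := hmin (I ∩ ball s t B r) (subset_inter hBI (subset_ball r))
      (inter_subset_left.trans hIΩ)
    omega
  · intro Y hY hne
    have hd : Disjoint I Y := by
      rw [disjoint_right]
      exact fun x hx => (mem_sdiff.1 (hY hx)).2
    have hsub : I ∪ Y ⊆ Ω := union_subset hIΩ (hY.trans sdiff_subset)
    have hB' : B ⊆ I ∪ Y := hBI.trans subset_union_left
    have h2 := hmin _ hB' hsub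
    have h3 : (cut s t (I ∪ Y)).card ≠ (cut s t I).card := by
      intro h
      have h4 := hmax _ hB' hsub h
      rw [card_union_of_disjoint hd] at h4
      have := card_pos.2 hne
      omega
    have h4 : cut s t (I ∪ Y) = symmDiff (cut s t Y) (cut s t I) := by
      rw [← cut_symmDiff, symmDiff_comm, hd.symmDiff_eq_sup, sup_eq_union]
    have h5 := card_symmDiff_add (cut s t Y) (cut s t I)
    have h6 := card_sdiff_add_card_inter (cut s t Y) (cut s t I)
    rw [← h4] at h5
    omega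

end Pool.Agent.P.MP_40718a_co.Bc

end

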