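import Pool.Agent.P.MP_40718a_co.Bc.Iface
import Pool.Agent.P.MP_40718a_co.ABF.ED

section
/-! Step PRE. -/

set_option linter.unusedSectionVars false

namespace Pool.Agent.P.MP_40718a_co.Bc

open Finset ABF

theorem p_PRE (hMIN : S_MIN) (hL1 : S_L1) (hLAW : S_LAW) (hLOC : S_LOC) :
    S_PRE := by
  intro bs k hk
  obtain ⟨b2, hb2⟩ : ∃ b2, b2 = bs (6 * k) := ⟨_, rfl⟩
  obtain ⟨n1, hn1⟩ : ∃ n1, n1 = 2 * 4 ^ (b2 + 1) := ⟨_, rfl⟩
  obtain ⟨bI, hbI⟩ : ∃ bI, bI = bs (3 * n1) := ⟨_, rfl⟩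
  obtain ⟨n2, hn2⟩ : ∃ n2, n2 = bI * 4 ^ (bs 5 + 1) := ⟨_, rfl⟩
  obtain ⟨bJ, hbJ⟩ : ∃ bJ, bJ = bs (3 * n2) := ⟨_, rfl⟩
  obtain ⟨q, hq, hq'⟩ := hLAW (3 * (b2 + bI + bJ))
  refine ⟨q, b2 + 1 + bI + (bs 5 + 1) + bJ, b2 + bI + bJ, 6 * k + 3 * n1 + 3 * n2 + 1, hq, ?_⟩
  intro V E _ _ _ _ s t c Ω hC hE hS hΩ hn
  have hE1 : EC 1 s t := fun X h1 h2 => le_trans (by norm_num) (hE X h1 h2)
  have hE2 : EC 2 s t := fun X h1 h2 => le_trans (by norm_num) (hE X h1 h2)
  have hS2 : Small s t (6 * k) b2 := hb2 ▸ hS _ (by omega)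
  have hSI : Small s t (3 * n1) bI := hbI ▸ hS _ (by omega)
  have hSJ : Small s t (3 * n2) bJ := hbJ ▸ hS _ (by omega)
  have hB1 : (ball s t (ends s t c) (b2 + 1)).card ≤ n1 := by
    rw [hn1]
    exact (ball_card hC _ _).trans (Nat.mul_le_mul_right _ (ends_card c))
  obtain ⟨I, hI1, -, hI3, hI4, hI5⟩ := hMIN V E s t (ball s t (ends s t c) (b2 + 1)) Ω (3 * n1) bI
    hC hE1 ((ball_mono_r (by omega)).trans hΩ) (by omega) hSI (by omega)
  rw [ball_add] at hI4
  have hB2 : (ball s t I (bs 5 + 1)).card ≤ n2 := by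
    rw [hn2]
    exact (ball_card hC _ _).trans (Nat.mul_le_mul_right _ hI3)
  have hB3 : ball s t I (bs 5 + 1) ⊆ ball s t (ends s t c) (b2 + 1 + bI + (bs 5 + 1)) := by
    rw [← ball_add (b2 + 1 + bI)]
    exact ball_mono hI4 _
  obtain ⟨J, hJ1, hJ2, hJ3, hJ4, hJ5⟩ := hMIN V E s t (ball s t I (bs 5 + 1)) Ω (3 * n2) bJ
    hC hE1 (hB3.trans ((ball_mono_r (by omega)).trans hΩ)) (by omega) hSJ (by omega)
  have hIJ : I ⊆ J := (subset_ball _).trans hJ1
  have hsc : s c ∈ J := hIJ (hI1 (subset_ball _ (s_mem_ends c)))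
  have hJc : b2 < Jᶜ.card := by
    have := card_le_card (compl_subset_compl.2 hJ2)
    omega
  obtain ⟨M, hM1, hM2⟩ := hq' V E s t (univ.filter fun e => s e ∈ J ∨ t e ∈ J) hC hE2
    ((meet_card_le hC J).trans (by omega))
  have hφ := fun i => hL1 V E s t k c (M i) I J b2 hk hC hE (hM1 i)
    ((ball_mono_r (by omega)).trans hJ1) hI1 hS2 hJc (hI5.mono hJ2)
  choose φ hφ using hφ
  refine ⟨I, J, fun w => φ w.1 w.2, hLOC V E s t q k c I J M φ hsc
    (fun e he => hM2 e (by simpa using he)) hφ, hsc, hIJ,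
    (ball_mono_r (by omega)).trans hJ1, hJ4.trans ?_, by omega, hI5, hJ5⟩
  rw [← ball_add (b2 + 1 + bI + (bs 5 + 1))]
  exact ball_mono hB3 _

end Pool.Agent.P.MP_40718a_co.Bc

end

section
/-! Step DEN. -/

set_option linter.unusedSectionVars false

namespace Pool.Agent.P.MP_40718a_co.Bc

open Finset ABF

theorem p_DEN :
    S_DEN := by
  intro V E _ _ _ _ s t B Z K ρ a p hN hKZ
  induction p with
  | zero => exact Or.inr (Nat.zero_le _)
  | succ p ih =>
    have hmul : (p + 1) * (2 * ρ + 2) = p * (2 * ρ + 2) + (2 * ρ + 2) := by ring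
    rcases ih with ⟨r, h1, h2, h3⟩ | ih
    · exact Or.inl ⟨r, h1, by omega, h3⟩
    generalize hq : a + p * (2 * ρ + 2) = q at ih
    have hq' : a + (p + 1) * (2 * ρ + 2) = q + (2 * ρ + 2) := by omega
    have haq : a ≤ q := by omega
    rw [hq']
    by_cases hc : K ∩ ball s t B (q + ρ + 1) ⊆ ball s t B (q + ρ)
    · exact Or.inl ⟨q + ρ, by omega, by omega, hc⟩
    right
    obtain ⟨x, hx, hx'⟩ := not_subset.1 hc
    obtain ⟨hxK, hxb⟩ := mem_inter.1 hx
    obtain ⟨z, hzZ, hz⟩ := hN x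
    have hzK : z ∉ K := fun h => disjoint_left.1 hKZ h hzZ
    obtain ⟨e, he, hs, ht⟩ := exists_exit (singleton_subset_iff.2 hxK) hz hzK
    have key : ∀ y ∈ ball s t {x} ρ,
        y ∈ ball s t B (q + (2 * ρ + 2)) ∧ y ∉ ball s t B q := by
      intro y hy
      refine ⟨ball_mono_r (by omega) (ball_trans hxb hy), fun h => hx' ?_⟩
      exact ball_trans h (ball_symm hy)
    have hsub : cut s t K ∩ ins s t (ball s t B q \ ball s t B a) ⊂
        cut s t K ∩ ins s t (ball s t B (q + (2 * ρ + 2)) \ ball s t B a) := by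
      refine ⟨fun f hf => ?_, fun h => ?_⟩
      · simp only [mem_inter, mem_ins, mem_sdiff] at hf ⊢
        exact ⟨hf.1, ⟨ball_mono_r (by omega) hf.2.1.1, hf.2.1.2⟩,
          ⟨ball_mono_r (by omega) hf.2.2.1, hf.2.2.2⟩⟩
      · have h5 : e ∈ cut s t K ∩ ins s t (ball s t B (q + (2 * ρ + 2)) \ ball s t B a) := by
          simp only [mem_inter, mem_ins, mem_sdiff]
          exact ⟨he, ⟨(key _ hs).1, fun h => (key _ hs).2 (ball_mono_r haq h)⟩,
            ⟨(key _ ht).1, fun h => (key _ ht).2 (ball_mono_r haq h)⟩⟩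
        have h6 := h h5
        simp only [mem_inter, mem_ins, mem_sdiff] at h6
        exact (key _ hs).2 h6.2.1.1
    have := card_lt_card hsub
    omega

end Pool.Agent.P.MP_40718a_co.Bc

end

section
/-! Step TREE. -/

set_option linter.unusedSectionVars false

namespace Pool.Agent.P.MP_40718a_co.Bc

open Finset ABF

theorem p_TREE :
    S_TREE := by
  classical
  intro V E _ _ _ _ s t A R
  let P : Finset V → Prop := fun W => ∃ d : V → ℕ, R ⊆ W ∧
    ∀ v ∈ W, v ∉ R → ∃ e ∈ A, ∃ u ∈ W, d u + 1 = d v ∧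
        ((s e = v ∧ t e = u) ∨ (s e = u ∧ t e = v))
  have hR : P R := ⟨fun _ => 0, Subset.refl _, fun v hv hv' => absurd hv hv'⟩
  obtain ⟨W, hW, hmax⟩ := exists_max_image (univ.filter P) card ⟨R, by simpa using hR⟩
  obtain ⟨d, hRW, hd⟩ : P W := (mem_filter.1 hW).2
  refine ⟨W, d, hRW, ?_, hd⟩
  have key : ∀ e ∈ A, ∀ u ∈ W, ∀ v, v ∉ W →
      ((s e = v ∧ t e = u) ∨ (s e = u ∧ t e = v)) → False := by
    intro e he u hu v hv huv
    have hP : P (insert v W) := by
      refine ⟨Function.update d v (d u + 1), hRW.trans (subset_insert _ _), ?_⟩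
      intro x hx hxR
      rcases mem_insert.1 hx with rfl | hx
      · refine ⟨e, he, u, mem_insert_of_mem hu, ?_, huv⟩
        have hne : u ≠ x := fun h => hv (h ▸ hu)
        rw [Function.update_of_ne hne, Function.update_self]
      · obtain ⟨e', he', u', hu', h1, h2⟩ := hd x hx hxR
        refine ⟨e', he', u', mem_insert_of_mem hu', ?_, h2⟩
        have hne : u' ≠ v := fun h => hv (h ▸ hu')
        have hne' : x ≠ v := fun h => hv (h ▸ hx)
        rw [Function.update_of_ne hne, Function.update_of_ne hne', h1]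
    have := hmax _ (mem_filter.2 ⟨mem_univ _, hP⟩)
    rw [card_insert_of_notMem hv] at this
    omega
  rw [disjoint_left]
  intro e he heA
  by_cases h1 : s e ∈ W
  · by_cases h2 : t e ∈ W
    · simp [cut, h1, h2] at he
    · exact key e heA _ h1 _ h2 (Or.inr ⟨rfl, rfl⟩)
  · by_cases h2 : t e ∈ W
    · exact key e heA _ h2 _ h1 (Or.inl ⟨rfl, rfl⟩)
    · simp [cut, h1, h2] at he

end Pool.Agent.P.MP_40718a_co.Bc

end

section
/-! Step WALK. -/

set_option linter.unusedSectionVars false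

namespace Pool.Agent.P.MP_40718a_co.Bc

open Finset ABF

theorem p_WALK (hTREE : S_TREE) :
    S_WALK := by
  intro V E _ _ _ _ s t A Z w hw
  obtain ⟨W, d, hZ, hW, h⟩ := hTREE V E s t A Z
  have hwW : w ∈ W := by
    by_contra hn
    obtain ⟨e, he⟩ := hw Wᶜ (mem_compl.2 hn)
      (disjoint_left.2 fun x hx hz => mem_compl.1 hx (hZ hz))
    rw [cut_compl, mem_inter] at he
    exact disjoint_left.1 hW he.1 he.2
  have key : ∀ n, ∀ v ∈ W, d v = n → ∃ (ψ : E → ℤ) (z : V) (ε : ℤ), z ∈ Z ∧ Sgn ε ∧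
      (∀ e, |ψ e| ≤ ind A e) ∧ (∀ x, vs s t ψ x = pt v 1 x + pt z ε x) ∧
      ∀ e, ψ e ≠ 0 → d (s e) ≤ d v ∧ d (t e) ≤ d v := by
    intro n
    induction n using Nat.strong_induction_on with
    | _ n ih =>
      intro v hv hn
      by_cases hz : v ∈ Z
      · refine ⟨fun _ => 0, v, -1, hz, Or.inr rfl, fun e => by simpa using ind_nonneg A e,
          fun x => ?_, fun e he => absurd rfl he⟩
        rw [vs_zero]
        unfold pt
        split_ifs <;> simp
      · obtain ⟨e, he, u, hu, hd, hs⟩ := h v hv hz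
        obtain ⟨ψ, z, ε, h1, h2, h3, h4, h5⟩ := ih (d u) (by omega) u hu rfl
        have h0 : ψ e = 0 := by
          by_contra hc
          have := h5 e hc
          rcases hs with ⟨a, b⟩ | ⟨a, b⟩ <;> rw [a, b] at this <;> omega
        refine ⟨fun f => ind {e} f - ψ f, z, -ε, h1, h2.neg, fun f => ?_, fun x => ?_,
          fun f hf => ?_⟩
        · by_cases hf : f = e
          · subst hf
            simp [ind, h0, he]
          · simpa [ind, hf] using h3 f
        · have e1 : pt z (-ε) x = -pt z ε x := by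
            unfold pt
            split_ifs <;> simp
          rw [vs_sub, vs_single, h4, e1]
          rcases hs with ⟨a, b⟩ | ⟨a, b⟩ <;> rw [a, b] <;> ring
        · by_cases hfe : f = e
          · subst hfe
            rcases hs with ⟨a, b⟩ | ⟨a, b⟩ <;> rw [a, b] <;> omega
          · have := h5 f (by simpa [ind, hfe] using hf)
            omega
  obtain ⟨ψ, z, ε, h1, h2, h3, h4, -⟩ := key _ w hwW rfl
  exact ⟨ψ, z, ε, h1, h2, h3, h4⟩

end Pool.Agent.P.MP_40718a_co.Bc

end

section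
/-! Step MG. -/

set_option linter.unusedSectionVars false

namespace Pool.Agent.P.MP_40718a_co.Bc

open Finset ABF

section

variable {V E P : Type} (s t : E → V) (w : P → V) (k : ℕ)

/-- tails of the arcs of the auxiliary digraph -/
def mg_tl : (E × Bool) ⊕ P ⊕ (V × Fin k) ⊕ (V × Fin k) → V ⊕ Bool
  | .inl a => .inl (if a.2 then s a.1 else t a.1)
  | .inr (.inl _) => .inr false
  | .inr (.inr (.inl _)) => .inr true
  | .inr (.inr (.inr a)) => .inl a.1

/-- heads of the arcs of the auxiliary digraph -/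
def mg_hd : (E × Bool) ⊕ P ⊕ (V × Fin k) ⊕ (V × Fin k) → V ⊕ Bool
  | .inl a => .inl (if a.2 then t a.1 else s a.1)
  | .inr (.inl p) => .inl (w p)
  | .inr (.inr (.inl a)) => .inl a.1
  | .inr (.inr (.inr _)) => .inr true

/-- the arcs that are present -/
def mg_ok (F : Finset E) (Z : Finset V) : (E × Bool) ⊕ P ⊕ (V × Fin k) ⊕ (V × Fin k) → Prop
  | .inl a => a.1 ∈ F
  | .inr (.inl _) => True
  | .inr (.inr (.inl _)) => True
  | .inr (.inr (.inr a)) => a.1 ∈ Z

end

theorem p_MG :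
    S_MG := by
  intro V E _ _ _ _ s t P _ w F Z h
  classical
  set k := Fintype.card P with hk
  obtain ⟨B, hB, hdis⟩ := ed_many (tl := mg_tl (P := P) s t k) (hd := mg_hd s t w k)
    (S := univ) (r := Sum.inr false) k (univ.filter (mg_ok k F Z)) (fun _ _ => mem_univ _) (by
    intro X _ hrX hne
    by_cases h1 : Sum.inr true ∈ X
    · by_cases h2 : ∃ z ∈ Z, Sum.inl z ∉ X
      · obtain ⟨z, hz, hzX⟩ := h2
        refine le_trans (by simp) (card_le_card_of_injOn (s := (univ : Finset (Fin k)))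
          (fun i => Sum.inr (Sum.inr (Sum.inr (z, i)))) ?_ ?_)
        · intro i _
          simp [mem_edIn, mg_ok, mg_tl, mg_hd, hz, hzX, h1]
        · intro i _ j _ hij
          simpa using hij
      · push Not at h2
        set Y : Finset V := univ.filter fun v => Sum.inl v ∉ X with hY
        have hmem : ∀ v, v ∈ Y ↔ Sum.inl v ∉ X := fun v => by simp [hY]
        have h3 := h Y (disjoint_left.2 fun v hv hz => (hmem v).1 hv (h2 v hz))
        have h4 := cnt_add_not (fun p => w p ∈ Y)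
        have h5 : ((cut s t Y ∩ F).disjSum (univ.filter fun p => ¬ w p ∈ Y)).card ≤
            (edIn (mg_tl (P := P) s t k) (mg_hd s t w k) (univ.filter (mg_ok k F Z)) X).card := by
          refine card_le_card_of_injOn (Sum.map (fun e => (e, decide (s e ∈ Y))) Sum.inl) ?_ ?_
          · rintro (e | p) he
            · simp only [mem_coe, inl_mem_disjSum, mem_inter, mem_cut, hmem] at he
              simp only [mem_coe, mem_edIn, Sum.map_inl, mem_filter, mem_univ, true_and, mg_ok,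
                mg_tl, mg_hd, hmem]
              by_cases h6 : Sum.inl (s e) ∈ X <;> simp [h6] at he ⊢ <;> tauto
            · simp only [mem_coe, inr_mem_disjSum, mem_filter, mem_univ, true_and, hmem,
                not_not] at he
              simp [mem_edIn, mg_ok, mg_tl, mg_hd, he, hrX]
          · rintro (e | p) _ (e' | p') _ hh <;> simp_all
        rw [card_disjSum, ← cnt_eq] at h5
        omega
    · obtain ⟨(v | b), hv⟩ := hne
      · refine le_trans (by simp) (card_le_card_of_injOn (s := (univ : Finset (Fin k)))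
          (fun i => Sum.inr (Sum.inr (Sum.inl (v, i)))) ?_ ?_)
        · intro i _
          simp [mem_edIn, mg_ok, mg_tl, mg_hd, hv, h1]
        · intro i _ j _ hij
          simpa using hij
      · cases b
        · exact absurd hv hrX
        · exact absurd hv h1)
  have hroot : ∀ j, ∃ p, Sum.inr (Sum.inl p) ∈ B j := fun j => by
    obtain ⟨a, ha⟩ := (hB j).2 (univ.erase (Sum.inr false)) (subset_univ _) (by simp)
      ⟨Sum.inr true, by simp⟩
    rw [mem_edIn] at ha
    rcases a with a | p | a | a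
    · simp [mg_tl] at ha
    · exact ⟨p, ha.1⟩
    · simp [mg_tl] at ha
    · simp [mg_tl] at ha
  choose g hg using hroot
  have hginj : Function.Injective g := fun i j hij => hdis i j _ (hg i) (hij ▸ hg j)
  have hgsurj : Function.Surjective g :=
    ((Fintype.bijective_iff_injective_and_card g).2 ⟨hginj, by simp [hk]⟩).2
  have huniq : ∀ j p, Sum.inr (Sum.inl p) ∈ B j → p = g j := fun j p hp => by
    obtain ⟨i, rfl⟩ := hgsurj p
    rw [hdis i j _ (hg i) hp]
  refine ⟨fun p => univ.filter fun e => ∃ j, p = g j ∧ ∃ b, Sum.inl (e, b) ∈ B j,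
    fun p => ⟨?_, fun Y hp hYZ => ?_⟩, fun e => ?_⟩
  · intro e he
    obtain ⟨j, -, b, hb⟩ := (mem_filter.1 he).2
    exact (mem_filter.1 ((hB j).1 hb)).2
  · obtain ⟨j, rfl⟩ := hgsurj p
    obtain ⟨a, ha⟩ := (hB j).2 (Yᶜ.disjSum {true}) (subset_univ _) (by simp)
      ⟨Sum.inr true, by simp⟩
    rw [mem_edIn] at ha
    rcases a with ⟨e, b⟩ | p | a | a
    · refine ⟨e, mem_inter.2 ⟨mem_cut.2 ?_, mem_filter.2 ⟨mem_univ _, j, rfl, b, ha.1⟩⟩⟩
      have h1 := ha.2
      cases b <;> simp [mg_tl, mg_hd] at h1 <;> tauto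
    · have h1 := ha.2.1
      rw [huniq j p ha.1] at h1
      simp [mg_hd, hp] at h1
    · have h1 := ha.2.2
      simp [mg_tl] at h1
    · have h1 := ha.2.2
      have h2 : a.1 ∈ Z := (mem_filter.1 ((hB j).1 ha.1)).2
      simp only [mg_tl, inl_mem_disjSum, mem_compl, not_not] at h1
      exact absurd h2 (disjoint_left.1 hYZ h1)
  · have h1 : ∀ b, cnt (fun p => ∃ j, p = g j ∧ Sum.inl (e, b) ∈ B j) ≤ 1 := fun b => by
      rw [cnt_eq, card_le_one]
      intro p hp p' hp'
      obtain ⟨i, rfl, hi⟩ := (mem_filter.1 hp).2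
      obtain ⟨j, rfl, hj⟩ := (mem_filter.1 hp').2
      rw [hdis i j _ hi hj]
    refine (cnt_le_add (Q := fun p => ∃ j, p = g j ∧ Sum.inl (e, true) ∈ B j)
      (R := fun p => ∃ j, p = g j ∧ Sum.inl (e, false) ∈ B j) ?_).trans
      (add_le_add (h1 _) (h1 _))
    intro p hp
    obtain ⟨j, hj, b, hb⟩ := (mem_filter.1 hp).2
    cases b
    · exact Or.inr ⟨j, hj, hb⟩
    · exact Or.inl ⟨j, hj, hb⟩

end Pool.Agent.P.MP_40718a_co.Bc

end

section
/-! Step EXIT. -/

set_option linter.unusedSectionVars false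

namespace Pool.Agent.P.MP_40718a_co.Bc

open Finset ABF

theorem exit_cut (hDEN : S_DEN) {V E : Type} [Fintype V] [Fintype E] [DecidableEq V]
    [DecidableEq E] {s t : E → V} {B J Z : Finset V} {ρ a p : ℕ} (hZ : Near s t Z ρ)
    (hJ : J ⊆ ball s t B a) (hp : (cut s t J).card ≤ p)
    (hE : Exp s t J (ball s t B (a + p * (2 * ρ + 2)))) {Y : Finset V} (hY : Disjoint Y Z) :
    ((cut s t J).filter fun f => (if s f ∈ J then t f else s f) ∈ Y).card ≤
      (cut s t Y ∩ ins s t (ball s t B (a + p * (2 * ρ + 2)) \ J)).card := by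
  generalize hO : ball s t B (a + p * (2 * ρ + 2)) = O at hE ⊢
  rcases hDEN V E s t B Z (Y ∩ (O \ J)) ρ a p hZ (hY.mono_left inter_subset_left) with
    ⟨r, h1, h2, h3⟩ | h
  · have hO' : ball s t B (r + 1) ⊆ O := hO ▸ ball_mono_r h2
    have hr : ball s t B r ⊆ O := (ball_mono_r (Nat.le_succ r)).trans hO'
    have hJr : J ⊆ ball s t B r := hJ.trans (ball_mono_r h1)
    have key : ∀ x ∈ Y, x ∉ J → x ∈ ball s t B (r + 1) → x ∈ ball s t B r :=
      fun x a b c => h3 (mem_inter.2 ⟨mem_inter.2 ⟨a, mem_sdiff.2 ⟨hO' c, b⟩⟩, c⟩)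
    have hs : ∀ e, t e ∈ ball s t B r → s e ∈ ball s t B (r + 1) := fun e => ball_step_s
    have ht : ∀ e, s e ∈ ball s t B r → t e ∈ ball s t B (r + 1) := fun e => ball_step_t
    have a1 : ((cut s t J).filter fun f => (if s f ∈ J then t f else s f) ∈ Y) ⊆
        cut s t (Y ∩ (ball s t B r \ J)) ∩ cut s t J := by
      intro f hf
      obtain ⟨b1, b2⟩ := mem_filter.1 hf
      refine mem_inter.2 ⟨?_, b1⟩
      simp only [mem_cut, mem_inter, mem_sdiff] at b1 ⊢
      by_cases c : s f ∈ J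
      · rw [if_pos c] at b2
        have c1 : t f ∉ J := by grind
        have := key _ b2 c1 (ht f (hJr c))
        grind
      · rw [if_neg c] at b2
        have c1 : t f ∈ J := by grind
        have := key _ b2 c (hs f (hJr c1))
        grind
    refine (card_le_card a1).trans ?_
    rcases (Y ∩ (ball s t B r \ J)).eq_empty_or_nonempty with h0 | h0
    · simp [h0]
    refine (hE _ (inter_subset_right.trans (sdiff_subset_sdiff hr (Subset.refl _))) h0).le.trans
      (card_le_card fun e he => ?_)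
    have b1 := key (s e)
    have b2 := key (t e)
    have b3 := hs e
    have b4 := ht e
    have b5 := @hO' (s e)
    have b6 := @hO' (t e)
    have b7 := @hr (s e)
    have b8 := @hr (t e)
    simp only [mem_cut, mem_inter, mem_sdiff, mem_ins] at he ⊢
    grind
  · rw [hO] at h
    refine ((card_filter_le _ _).trans (hp.trans h)).trans (card_le_card fun e he => ?_)
    have b1 := @hJ (s e)
    have b2 := @hJ (t e)
    simp only [mem_cut, mem_inter, mem_sdiff, mem_ins] at he ⊢
    grind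

theorem p_EXIT (hDEN : S_DEN) (hMG : S_MG) (hWALK : S_WALK) :
    S_EXIT := by
  intro V E _ _ _ _ s t B J Z ρ a p hZ hJ hp hE
  obtain ⟨A, hA, hl⟩ := hMG V E s t (cut s t J) (fun f => if s f ∈ J then t f else s f)
    (ins s t (ball s t B (a + p * (2 * ρ + 2)) \ J)) Z fun Y hY => by
      refine le_trans (le_of_eq ?_) (exit_cut hDEN hZ hJ hp hE hY)
      rw [cnt_eq, univ_eq_attach, filter_attach (fun f => (if s f ∈ J then t f else s f) ∈ Y),
        card_map, card_attach]
  choose ψ z ε h1 h2 h3 h4 using fun f : cut s t J => hWALK V E s t (A f) Z _ (hA f).2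
  refine ⟨fun f => if h : f ∈ cut s t J then ψ ⟨f, h⟩ else 0,
    fun f => if h : f ∈ cut s t J then z ⟨f, h⟩ else s f,
    fun f => if h : f ∈ cut s t J then ε ⟨f, h⟩ else 0, fun f hf => ?_, fun e => ?_⟩
  · simp only [dif_pos hf]
    refine ⟨h1 _, h2 _, fun e he => ?_, h4 _⟩
    have := h3 ⟨f, hf⟩ e
    rw [ind, if_neg fun h => he ((hA _).1 h)] at this
    exact abs_nonpos_iff.1 this
  · rw [← sum_coe_sort]
    calc _ ≤ ∑ f : cut s t J, ind (A f) e := sum_le_sum fun f _ => by
          simpa only [dif_pos f.2] using h3 f e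
      _ ≤ 2 := by rw [sum_ind_cnt]; exact_mod_cast hl e

end Pool.Agent.P.MP_40718a_co.Bc

end

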