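import Pool.Agent.P.MP_40718a_co.Bc.Iface

section
/-! Step OBJ. -/

set_option linter.unusedSectionVars false

namespace Pool.Agent.P.MP_40718a_co.Bc

open Finset ABF

theorem obj_step {E : Type} [DecidableEq E] (T : Finset E) (h : E → ℤ) (n : ℤ) (hn : 0 ≤ n)
    (H : ∑ f ∈ T, |h f| = n + 1) :
    ∃ a ∈ T, ∃ x, Sgn x ∧ ∑ f ∈ T, |h f - (if f = a then x else 0)| = n := by
  obtain ⟨a, ha, h0⟩ : ∃ a ∈ T, |h a| ≠ 0 :=
    exists_ne_zero_of_sum_ne_zero (by rw [H]; omega)
  have key : ∀ x : ℤ, |h a - x| + 1 = |h a| →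
      ∑ f ∈ T, |h f - (if f = a then x else 0)| = n := by
    intro x hx
    rw [← add_sum_erase _ _ ha] at H ⊢
    rw [sum_congr rfl (g := fun f => |h f|) fun f hf => by simp [(mem_erase.1 hf).1], if_pos rfl]
    omega
  rcases lt_or_gt_of_ne (abs_ne_zero.1 h0) with h1 | h1
  · refine ⟨a, ha, -1, Or.inr rfl, key _ ?_⟩
    rw [abs_of_nonpos (by omega), abs_of_neg h1]; ring
  · refine ⟨a, ha, 1, Or.inl rfl, key _ ?_⟩
    rw [abs_of_nonneg (by omega), abs_of_pos h1]; ring

theorem obj_zero {E : Type} (T : Finset E) (h : E → ℤ) (H : ∑ f ∈ T, |h f| = 0) :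
    ∀ f ∈ T, h f = 0 := fun f hf =>
  abs_eq_zero.1 ((sum_eq_zero_iff_of_nonneg fun _ _ => abs_nonneg _).1 H f hf)

theorem obj_two {E : Type} [DecidableEq E] (T : Finset E) (h : E → ℤ)
    (H : ∑ f ∈ T, |h f| = 2) :
    ∃ a ∈ T, ∃ b ∈ T, ∃ x y, Sgn x ∧ Sgn y ∧
      ∀ g : E → ℤ, ∑ f ∈ T, h f * g f = x * g a + y * g b := by
  obtain ⟨a, ha, x, hx, H1⟩ := obj_step T h 1 (by omega) H
  obtain ⟨b, hb, y, hy, H2⟩ := obj_step T _ 0 le_rfl H1
  refine ⟨a, ha, b, hb, x, y, hx, hy, fun g => ?_⟩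
  rw [sum_congr rfl (g := fun f => (if f = a then x * g f else 0) + (if f = b then y * g f else 0))
    fun f hf => ?_, sum_add_distrib, sum_ite_eq', sum_ite_eq', if_pos ha, if_pos hb]
  have h3 := obj_zero T _ H2 f hf
  have h4 : h f = (if f = a then x else 0) + (if f = b then y else 0) := by omega
  rw [h4]
  split_ifs <;> ring

theorem obj_vs {V E : Type} [Fintype V] [Fintype E] [DecidableEq V] [DecidableEq E]
    (s t : E → V) (J : Finset V) (φ : E → ℤ) (h1 : ∀ e, s e ∉ J → t e ∉ J → φ e = 0)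
    (h2 : ∀ v ∈ J, vs s t φ v = 0) (v : V) :
    vs s t φ v = ∑ f ∈ cut s t J, φ f * pt (if s f ∈ J then t f else s f) 1 v := by
  by_cases hv : v ∈ J
  · rw [h2 v hv, eq_comm]
    refine sum_eq_zero fun f hf => ?_
    rw [mem_cut] at hf
    have : (if s f ∈ J then t f else s f) ≠ v := by
      rintro rfl
      split_ifs at hv <;> tauto
    simp [pt, this]
  · unfold vs cut
    rw [sum_filter]
    refine sum_congr rfl fun e _ => ?_
    have h3 : s e ∈ J → s e ≠ v := fun a b => hv (b ▸ a)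
    have h4 : t e ∈ J → t e ≠ v := fun a b => hv (b ▸ a)
    by_cases a : s e ∈ J <;> by_cases b : t e ∈ J
    · simp [a, b, h3 a, h4 b]
    · simp [a, b, h3 a, pt]
    · simp [a, b, h4 b, pt]
    · simp [a, b, h1 e a b]

theorem p_OBJ (hEXIT : S_EXIT) :
    S_OBJ := by
  intro V E _ _ _ _ s t q k c B I J Z ρ a p φ hL hN hJ hp hE
  obtain ⟨ps, z, ε, h1, h2⟩ := hEXIT V E s t B J Z ρ a p hN hJ hp hE
  obtain ⟨l1, l2, l3, l4, -⟩ := hL
  refine ⟨fun w e => ∑ f ∈ cut s t J, -φ w f * ps f e, fun w e he => ?_, fun e => ?_, fun w => ?_⟩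
  · exact sum_eq_zero fun f hf => by rw [(h1 f hf).2.2.1 e he, mul_zero]
  · calc ∑ w, |∑ f ∈ cut s t J, -φ w f * ps f e|
        ≤ ∑ w, ∑ f ∈ cut s t J, |φ w f| * |ps f e| :=
          sum_le_sum fun w _ => (abs_sum_le_sum_abs _ _).trans
            (le_of_eq (sum_congr rfl fun f _ => by rw [abs_mul, abs_neg]))
      _ = ∑ f ∈ cut s t J, (∑ w, |φ w f|) * |ps f e| := by
          rw [sum_comm]; exact sum_congr rfl fun f _ => by rw [sum_mul]
      _ ≤ ∑ f ∈ cut s t J, (6 * q : ℤ) * |ps f e| :=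
          sum_le_sum fun f hf => mul_le_mul_of_nonneg_right (l4 f hf) (abs_nonneg _)
      _ ≤ 12 * q := by
          rw [← mul_sum]
          have := mul_le_mul_of_nonneg_left (h2 e) (show (0 : ℤ) ≤ 6 * q by positivity)
          linarith
  · have key : ∀ v, vs s t (fun e => φ w e + ∑ f ∈ cut s t J, -φ w f * ps f e) v =
        ∑ f ∈ cut s t J, φ w f * pt (z f) (-ε f) v := by
      intro v
      rw [vs_add, vs_sum, obj_vs s t J (φ w) (l1 w) (l2 w), ← sum_add_distrib]
      refine sum_congr rfl fun f hf => ?_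
      rw [vs_mul, (h1 f hf).2.2.2 v]
      unfold pt
      split_ifs <;> ring
    rcases l3 w with h0 | h0
    · obtain ⟨x, hx, -⟩ := hN (s c)
      refine ⟨x, hx, x, hx, 1, -1, Or.inl rfl, Or.inr rfl, fun v => ?_⟩
      rw [key, sum_eq_zero fun f hf => by rw [obj_zero _ _ h0 f hf, zero_mul]]
      unfold pt
      split_ifs <;> simp
    · obtain ⟨f, hf, g, hg, x, y, hx, hy, h3⟩ := obj_two _ _ h0
      refine ⟨z f, (h1 f hf).1, z g, (h1 g hg).1, x * -ε f, y * -ε g, hx.mul (h1 f hf).2.1.neg,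
        hy.mul (h1 g hg).2.1.neg, fun v => ?_⟩
      rw [key, h3 fun f => pt (z f) (-ε f) v]
      unfold pt
      split_ifs <;> simp

end Pool.Agent.P.MP_40718a_co.Bc

end

section
/-! Step SGT. -/

set_option linter.unusedSectionVars false

namespace Pool.Agent.P.MP_40718a_co.Bc

open Finset ABF

section
variable {V O : Type} [DecidableEq V] [DecidableEq O]

theorem sgt_end {W : Finset V} {a b v : V} {x y : ℤ} (h : a ∈ W ∧ b ∈ W ∧ Sgn x ∧ Sgn y)
    (hv : a = v ∨ b = v) : ∃ c z z', c ∈ W ∧ Sgn z ∧ Sgn z' ∧ x * y = z * z' ∧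
      ∀ u, pt a x u + pt b y u = pt v z u + pt c z' u := by
  rcases hv with rfl | rfl
  · exact ⟨b, x, y, h.2.1, h.2.2.1, h.2.2.2, rfl, fun _ => rfl⟩
  · exact ⟨a, y, x, h.1, h.2.2.2, h.2.2.1, mul_comm _ _, fun _ => add_comm _ _⟩

/-- the conclusion of the step -/
def SgtC (r : V) (p : V → V) (W : Finset V) (D : Finset O) (a b : O → V) (x y : O → ℤ) : Prop :=
  ∃ (σ : O → ℤ) (f : V → ℤ), (∀ o ∈ D, Sgn (σ o)) ∧ (∀ v, |f v| ≤ 2) ∧ f r = 0 ∧
    ∀ v ∈ W, f v = ∑ o ∈ D, σ o * (pt (a o) (x o) v + pt (b o) (y o) v) +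
      ∑ u ∈ (W.erase r).filter fun u => p u = v, f u

/-- two objects with an end at the same vertex are merged -/
theorem sgt_merge {r : V} {p : V → V} {W : Finset V} {D : Finset O} {a b : O → V} {x y : O → ℤ}
    (ih : ∀ (D' : Finset O) (a b : O → V) (x y : O → ℤ), D'.card < D.card →
      (∀ o ∈ D', a o ∈ W ∧ b o ∈ W ∧ Sgn (x o) ∧ Sgn (y o)) → ∏ o ∈ D', -(x o * y o) = 1 →
      SgtC r p W D' a b x y)
    (hD : ∀ o ∈ D, a o ∈ W ∧ b o ∈ W ∧ Sgn (x o) ∧ Sgn (y o)) (hp : ∏ o ∈ D, -(x o * y o) = 1)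
    {v : V} {o o' : O} (ho : o ∈ D) (ho' : o' ∈ D) (hne : o ≠ o') (h1 : a o = v ∨ b o = v)
    (h2 : a o' = v ∨ b o' = v) : SgtC r p W D a b x y := by
  obtain ⟨c, z, z', hc, hz, hz', hm, he⟩ := sgt_end (hD o ho) h1
  obtain ⟨c', w, w', hc', hw, hw', hm', he'⟩ := sgt_end (hD o' ho') h2
  have hoe : o ∈ D.erase o' := mem_erase.2 ⟨hne, ho⟩
  obtain ⟨σ, f, hσ, hf, hr, hs⟩ := ih (D.erase o') (Function.update a o c)
    (Function.update b o c') (Function.update x o z') (Function.update y o (-(z * w * w')))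
    (card_erase_lt_of_mem ho') (by
      intro q hq
      by_cases h : q = o
      · subst h
        simp only [Function.update_self]
        exact ⟨hc, hc', hz', ((hz.mul hw).mul hw').neg⟩
      · simp only [Function.update_of_ne h]
        exact hD q (mem_of_mem_erase hq)) (by
      rw [← hp, ← mul_prod_erase _ _ ho', ← mul_prod_erase _ _ hoe, ← mul_prod_erase _ _ hoe,
        hm, hm', ← mul_assoc]
      simp only [Function.update_self]
      congr 1
      · ring
      · refine prod_congr rfl fun q hq => ?_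
        simp only [Function.update_of_ne (ne_of_mem_erase hq)])
  refine ⟨Function.update σ o' (-(z * w * σ o)), f, ?_, hf, hr, fun u hu => ?_⟩
  · intro q hq
    by_cases h : q = o'
    · subst h
      rw [Function.update_self]
      exact ((hz.mul hw).mul (hσ o hoe)).neg
    · rw [Function.update_of_ne h]
      exact hσ q (mem_erase.2 ⟨h, hq⟩)
  · rw [hs u hu, ← add_sum_erase _ _ ho', ← add_sum_erase _ _ hoe, ← add_sum_erase _ _ hoe,
      he, he', ← add_assoc]
    simp only [Function.update_self, Function.update_of_ne hne]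
    congr 2
    · have := hw.mul_self
      unfold pt
      split_ifs <;> first | ring1 | linear_combination (z * σ o) * this
    · refine sum_congr rfl fun q hq => ?_
      simp only [Function.update_of_ne (ne_of_mem_erase hq),
        Function.update_of_ne (ne_of_mem_erase (mem_of_mem_erase hq))]

theorem sgt_bound {D : Finset O} {a b : O → V} {x y σ : O → ℤ} {v : V}
    (hD : ∀ o ∈ D, Sgn (x o) ∧ Sgn (y o)) (hσ : ∀ o ∈ D, Sgn (σ o))
    (h : ∀ o ∈ D, ∀ o' ∈ D, a o = v ∨ b o = v → a o' = v ∨ b o' = v → o = o') :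
    |∑ o ∈ D, σ o * (pt (a o) (x o) v + pt (b o) (y o) v)| ≤ 2 := by
  by_cases h0 : ∃ o ∈ D, a o = v ∨ b o = v
  · obtain ⟨o, ho, h1⟩ := h0
    rw [sum_eq_single_of_mem o ho]
    · rw [abs_mul, (hσ o ho).abs, one_mul]
      obtain ⟨h2, h3⟩ := hD o ho
      unfold pt
      rcases h2 with h2 | h2 <;> rcases h3 with h3 | h3 <;> rw [h2, h3] <;> split_ifs <;> simp
    · intro q hq hne
      have : ¬(a q = v ∨ b q = v) := fun h2 => hne (h q hq o ho h2 h1)
      push Not at this
      simp [pt, this.1, this.2]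
  · push Not at h0
    rw [sum_eq_zero fun o ho => by simp [pt, (h0 o ho).1, (h0 o ho).2]]
    simp

/-- a leaf is removed -/
theorem sgt_leaf {r : V} {p : V → V} {W : Finset V} {D : Finset O} {a b : O → V} {x y : O → ℤ}
    {v : V} (hv : v ∈ W) (hr : v ≠ r) (hl : ∀ u ∈ W, u ≠ r → p u ≠ v)
    (hD : ∀ o ∈ D, Sgn (x o) ∧ Sgn (y o))
    (h : ∀ o ∈ D, ∀ o' ∈ D, a o = v ∨ b o = v → a o' = v ∨ b o' = v → o = o')
    (ih : SgtC r p (W.erase v) D (fun o => if a o = v then p v else a o)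
      (fun o => if b o = v then p v else b o) x y) : SgtC r p W D a b x y := by
  obtain ⟨σ, f, hσ, hf, hr0, hs⟩ := ih
  refine ⟨σ, Function.update f v (∑ o ∈ D, σ o * (pt (a o) (x o) v + pt (b o) (y o) v)),
    hσ, fun u => ?_, by rw [Function.update_of_ne hr.symm, hr0], fun u hu => ?_⟩
  · by_cases h1 : u = v
    · subst h1
      rw [Function.update_self]
      exact sgt_bound hD hσ h
    · rw [Function.update_of_ne h1]
      exact hf u
  · by_cases h1 : u = v
    · subst h1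
      rw [Function.update_self, filter_eq_empty_iff.2, sum_empty, add_zero]
      intro q hq
      exact hl q (mem_of_mem_erase hq) (ne_of_mem_erase hq)
    · rw [Function.update_of_ne h1, hs u (mem_erase.2 ⟨h1, hu⟩), sum_filter, sum_filter,
        ← add_sum_erase _ _ (mem_erase.2 ⟨hr, hv⟩), erase_right_comm, ← add_assoc,
        Function.update_self]
      congr 1
      · by_cases h2 : p v = u
        · rw [if_pos h2, ← sum_add_distrib]
          refine sum_congr rfl fun o _ => ?_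
          rw [← mul_add]
          congr 1
          unfold pt
          by_cases h3 : a o = v <;> by_cases h4 : b o = v <;>
            simp [h2, h3, h4, Ne.symm h1, add_comm]
        · rw [if_neg h2, add_zero]
          refine sum_congr rfl fun o _ => ?_
          unfold pt
          by_cases h3 : a o = v <;> by_cases h4 : b o = v <;> simp [h2, h3, h4, Ne.symm h1]
      · refine sum_congr rfl fun q hq => ?_
        rw [Function.update_of_ne (ne_of_mem_erase hq)]

theorem sgt_main (r : V) (d : V → ℕ) (p : V → V) (n : ℕ) : ∀ (W : Finset V) (D : Finset O)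
    (a b : O → V) (x y : O → ℤ), W.card + D.card < n → r ∈ W →
    (∀ v ∈ W, v ≠ r → p v ∈ W ∧ d (p v) < d v) →
    (∀ o ∈ D, a o ∈ W ∧ b o ∈ W ∧ Sgn (x o) ∧ Sgn (y o)) → ∏ o ∈ D, -(x o * y o) = 1 →
    SgtC r p W D a b x y := by
  induction n with
  | zero => intro W D a b x y h; omega
  | succ n ih =>
    intro W D a b x y hn hr hW hD hp
    by_cases hm : ∃ v, ∃ o ∈ D, ∃ o' ∈ D, o ≠ o' ∧ (a o = v ∨ b o = v) ∧ (a o' = v ∨ b o' = v)
    · obtain ⟨v, o, ho, o', ho', hne, h1, h2⟩ := hm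
      exact sgt_merge (fun D' a b x y h h3 h4 => ih W D' a b x y (by omega) hr hW h3 h4)
        hD hp ho ho' hne h1 h2
    have h : ∀ v, ∀ o ∈ D, ∀ o' ∈ D, a o = v ∨ b o = v → a o' = v ∨ b o' = v → o = o' := by
      intro v o ho o' ho' h1 h2
      by_contra hne
      exact hm ⟨v, o, ho, o', ho', hne, h1, h2⟩
    rcases (W.erase r).eq_empty_or_nonempty with h0 | h0
    · have hall : ∀ v ∈ W, v = r := by
        intro v hv
        by_contra hne
        exact notMem_empty v (h0 ▸ mem_erase.2 ⟨hne, hv⟩)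
      refine ⟨fun _ => 1, fun _ => 0, fun _ _ => Or.inl rfl, fun _ => by simp, rfl,
        fun v hv => ?_⟩
      rw [sum_const_zero, add_zero]
      refine (sum_eq_zero fun o ho => ?_).symm
      have hDo : D = {o} := eq_singleton_iff_unique_mem.2 ⟨ho, fun q hq =>
        h r q hq o ho (Or.inl (hall _ (hD q hq).1)) (Or.inl (hall _ (hD o ho).1))⟩
      rw [hDo, prod_singleton] at hp
      obtain ⟨h1, h2, h3, h4⟩ := hD o ho
      rw [hall _ h1, hall _ h2, hall _ hv]
      rcases h3 with h3 | h3 <;> rcases h4 with h4 | h4 <;> rw [h3, h4] at hp ⊢ <;>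
        simp [pt] at hp ⊢
    · obtain ⟨v, hv, hmax⟩ := exists_max_image _ d h0
      obtain ⟨hvr, hv⟩ := mem_erase.1 hv
      have hl : ∀ u ∈ W, u ≠ r → p u ≠ v := by
        intro u hu hur he
        have h1 := (hW u hu hur).2
        have h2 := hmax u (mem_erase.2 ⟨hur, hu⟩)
        rw [he] at h1
        omega
      have hc := card_erase_lt_of_mem hv
      have hmv : ∀ c ∈ W, (if c = v then p v else c) ∈ W.erase v := by
        intro c hc
        split_ifs with h1
        · exact mem_erase.2 ⟨hl v hv hvr, (hW v hv hvr).1⟩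
        · exact mem_erase.2 ⟨h1, hc⟩
      refine sgt_leaf hv hvr hl (fun o ho => (hD o ho).2.2) (h v)
        (ih _ D _ _ x y (by omega) (mem_erase.2 ⟨hvr.symm, hr⟩) (fun u hu hur => ?_)
          (fun o ho => ⟨hmv _ (hD o ho).1, hmv _ (hD o ho).2.1, (hD o ho).2.2⟩) hp)
      have hu' := mem_of_mem_erase hu
      exact ⟨mem_erase.2 ⟨hl u hu' hur, (hW u hu' hur).1⟩, (hW u hu' hur).2⟩

end

theorem p_SGT :
    S_SGT := by
  intro V O _ _ r d p W D a b x y hr hW hD hp
  exact sgt_main r d p _ W D a b x y (Nat.lt_succ_self _) hr hW hD hp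

end Pool.Agent.P.MP_40718a_co.Bc

end

section
/-! Step SG. -/

set_option linter.unusedSectionVars false

namespace Pool.Agent.P.MP_40718a_co.Bc

open Finset ABF

theorem sg_prod {O : Type} [DecidableEq O] (D : Finset O) (w : O → ℤ) (h : ∀ o ∈ D, Sgn (w o)) :
    ∃ X : Finset O, X.card ≤ 1 ∧ ∏ o ∈ D \ X, w o = 1 := by
  have hs : Sgn (∏ o ∈ D, w o) :=
    prod_induction w Sgn (fun _ _ h1 h2 => h1.mul h2) (Or.inl rfl) h
  rcases hs with hs | hs
  · exact ⟨∅, by simp, by simpa using hs⟩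
  · have : ∃ o ∈ D, w o = -1 := by
      by_contra hc
      push Not at hc
      rw [prod_eq_one fun o ho => (h o ho).resolve_right (hc o ho)] at hs
      omega
    obtain ⟨o, ho, h1⟩ := this
    refine ⟨{o}, by simp, ?_⟩
    rw [← mul_prod_erase D w ho, h1] at hs
    rw [sdiff_singleton_eq_erase]
    omega

theorem sg_pow (n : ℕ) : Sgn ((-1) ^ n) := by
  rcases neg_one_pow_eq_or ℤ n with h | h
  · exact Or.inl h
  · exact Or.inr h

theorem sg_pt {V : Type} [DecidableEq V] (τ : V → ℤ) (a u : V) (α : ℤ) :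
    pt a (τ a * α) u = τ u * pt a α u := by
  unfold pt
  split_ifs with h
  · rw [h]
  · simp

theorem p_SG (hTREE : S_TREE) (hSGT : S_SGT) :
    S_SG := by
  intro V E _ _ _ _ s t O _ A Z D a b α β hL hD
  rcases D.eq_empty_or_nonempty with rfl | ⟨o0, ho0⟩
  · refine ⟨fun _ => 0, fun _ => 0, ⟨∅, by simp, by simp, by simp⟩, fun e => ?_, by simp⟩
    have := ind_nonneg A e
    simp only [abs_zero]
    omega
  obtain ⟨r, hr⟩ : ∃ r, r = a o0 := ⟨_, rfl⟩
  have hrZ : r ∈ Z := hr ▸ (hD o0 ho0).1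
  obtain ⟨W, d, hRW, hcut, htree⟩ := hTREE V E s t A {r}
  have hrW : r ∈ W := hRW (mem_singleton_self r)
  have hZW : ∀ z ∈ Z, z ∈ W := fun z hz => (hL r hrZ z hz W hcut).1 hrW
  have hch : ∀ v, ∃ (F : Finset E) (u : V), v ∈ W → v ≠ r → ∃ e ∈ A, F = {e} ∧ u ∈ W ∧
      d u + 1 = d v ∧ ((s e = v ∧ t e = u) ∨ (s e = u ∧ t e = v)) := by
    intro v
    by_cases hv : v ∈ W ∧ v ≠ r
    · obtain ⟨e, he, u, hu, h1, h2⟩ := htree v hv.1 (by simpa using hv.2)
      exact ⟨{e}, u, fun _ _ => ⟨e, he, rfl, hu, h1, h2⟩⟩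
    · exact ⟨∅, v, fun h1 h2 => absurd ⟨h1, h2⟩ hv⟩
  choose F p hF using hch
  obtain ⟨τ, hτ⟩ : ∃ τ : V → ℤ, τ = fun v => (-1) ^ d v := ⟨_, rfl⟩
  have hτs : ∀ v, Sgn (τ v) := fun v => by rw [hτ]; exact sg_pow _
  have hτp : ∀ v ∈ W, v ≠ r → τ v = -τ (p v) := by
    intro v h1 h2
    obtain ⟨e, -, -, -, h3, -⟩ := hF v h1 h2
    simp only [hτ, ← h3, pow_succ]
    ring
  obtain ⟨X, hX1, hX2⟩ := sg_prod D (fun o => -((τ (a o) * α o) * (τ (b o) * β o))) fun o ho =>
    (((hτs _).mul (hD o ho).2.2.1).mul ((hτs _).mul (hD o ho).2.2.2)).neg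
  obtain ⟨σ, f, hσ, hf, hfr, hfl⟩ := hSGT V O r d p W (D \ X) a b (fun o => τ (a o) * α o)
    (fun o => τ (b o) * β o) hrW
    (fun v h1 h2 => by
      obtain ⟨e, -, -, h3, h4, -⟩ := hF v h1 h2
      exact ⟨h3, by omega⟩)
    (fun o ho => by
      obtain ⟨h1, h2, h3, h4⟩ := hD o (mem_sdiff.1 ho).1
      exact ⟨hZW _ h1, hZW _ h2, (hτs _).mul h3, (hτs _).mul h4⟩) hX2
  refine ⟨fun o => if o ∈ D \ X then σ o else 0,
    fun e => ∑ v ∈ W.erase r, (-τ v * f v) * ind (F v) e, ⟨X, hX1, ?_, ?_⟩, ?_, ?_⟩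
  · intro c h1 h2
    have h3 := mem_sdiff.2 ⟨h1, h2⟩
    simp only [h3, if_true]
    exact hσ c h3
  · intro c hc
    have h3 : c ∉ D \ X := by rw [mem_sdiff]; tauto
    simp only [h3, if_false]
  · intro e
    beta_reduce
    by_cases h0 : ∃ v ∈ W.erase r, e ∈ F v
    · obtain ⟨v, hv, hev⟩ := h0
      obtain ⟨hv1, hv2⟩ := mem_erase.1 hv
      obtain ⟨e1, he1, hF1, -, hd1, hen1⟩ := hF v hv2 hv1
      rw [hF1, mem_singleton] at hev
      subst hev
      rw [sum_eq_single_of_mem v hv]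
      · simp only [ind, hF1, mem_singleton, if_true, he1, mul_one, abs_mul, abs_neg,
          (hτs v).abs, one_mul]
        exact hf v
      · intro v' hv' hne
        obtain ⟨hv3, hv4⟩ := mem_erase.1 hv'
        obtain ⟨e2, -, hF2, -, hd2, hen2⟩ := hF v' hv4 hv3
        have : e ≠ e2 := by
          rintro rfl
          rcases hen1 with ⟨h1, h2⟩ | ⟨h1, h2⟩ <;> rcases hen2 with ⟨h3, h4⟩ | ⟨h3, h4⟩
          · exact hne (h3.symm.trans h1)
          · have h5 : p v' = v := h3.symm.trans h1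
            have h6 : p v = v' := h2.symm.trans h4
            rw [h5] at hd2; rw [h6] at hd1; omega
          · have h5 : p v' = v := h4.symm.trans h2
            have h6 : p v = v' := h1.symm.trans h3
            rw [h5] at hd2; rw [h6] at hd1; omega
          · exact hne (h4.symm.trans h2)
        simp [ind, hF2, this]
    · push Not at h0
      rw [sum_eq_zero fun v hv => by simp [ind, h0 v hv]]
      have := ind_nonneg A e
      simp only [abs_zero]
      omega
  · intro u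
    have e1 : ∑ o ∈ D, (if o ∈ D \ X then σ o else 0) * (pt (a o) (α o) u + pt (b o) (β o) u) =
        ∑ o ∈ D \ X, σ o * (pt (a o) (α o) u + pt (b o) (β o) u) := by
      rw [← sum_subset (sdiff_subset (s := D) (t := X)) fun o _ h => by
        simp only [h, if_false, zero_mul]]
      exact sum_congr rfl fun o ho => by simp only [ho, if_true]
    have e2 : vs s t (fun e => ∑ v ∈ W.erase r, (-τ v * f v) * ind (F v) e) u =
        ∑ v ∈ W.erase r, (-τ v * f v) * (pt v 1 u + pt (p v) 1 u) := by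
      rw [vs_sum]
      refine sum_congr rfl fun v hv => ?_
      obtain ⟨hv1, hv2⟩ := mem_erase.1 hv
      obtain ⟨e1, -, hF1, -, -, hen1⟩ := hF v hv2 hv1
      rw [vs_mul, hF1, vs_single]
      rcases hen1 with ⟨h1, h2⟩ | ⟨h1, h2⟩ <;> rw [h1, h2]
      rw [add_comm]
    rw [e1, e2]
    by_cases hu : u ∈ W
    · have e3 : ∑ v ∈ W.erase r, (-τ v * f v) * pt v 1 u = -τ u * f u := by
        by_cases hur : u = r
        · rw [hur, hfr, mul_zero]
          exact sum_eq_zero fun v hv => by simp [pt, (mem_erase.1 hv).1]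
        · rw [sum_eq_single_of_mem u (mem_erase.2 ⟨hur, hu⟩)]
          · simp [pt]
          · intro v _ h; simp [pt, h]
      have e4 : ∑ v ∈ W.erase r, (-τ v * f v) * pt (p v) 1 u =
          τ u * ∑ v ∈ (W.erase r).filter fun v => p v = u, f v := by
        rw [mul_sum, sum_filter]
        refine sum_congr rfl fun v hv => ?_
        obtain ⟨hv1, hv2⟩ := mem_erase.1 hv
        unfold pt
        split_ifs with h
        · rw [hτp v hv2 hv1, h]; ring
        · simp
      have e5 := hfl u hu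
      simp only [sg_pt τ, ← mul_add, mul_left_comm _ (τ u), ← mul_sum] at e5
      simp only [mul_add (-τ _ * f _), sum_add_distrib]
      rw [e3, e4, e5]
      linear_combination
        (-(∑ o ∈ D \ X, σ o * (pt (a o) (α o) u + pt (b o) (β o) u))) * (hτs u).mul_self
    · rw [sum_eq_zero, sum_eq_zero, add_zero]
      · intro o ho
        obtain ⟨h1, h2, -, -⟩ := hD o (mem_sdiff.1 ho).1
        have h3 : a o ≠ u := fun h => hu (h ▸ hZW _ h1)
        have h4 : b o ≠ u := fun h => hu (h ▸ hZW _ h2)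
        simp [pt, h3, h4]
      · intro v hv
        obtain ⟨hv1, hv2⟩ := mem_erase.1 hv
        obtain ⟨e1, -, -, h2, -, -⟩ := hF v hv2 hv1
        have h3 : v ≠ u := fun h => hu (h ▸ hv2)
        have h4 : p v ≠ u := fun h => hu (h ▸ h2)
        simp [pt, h3, h4]

end Pool.Agent.P.MP_40718a_co.Bc

end

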