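import Pool.Agent.P.MP_40718a_co.Bc.Iface

section
/-! Step NEST. -/

set_option linter.unusedSectionVars false

namespace Pool.Agent.P.MP_40718a_co.Bc

open Finset ABF

/-- the good alternative for a class `P` -/
def nest_G {C : Type} (n : ℕ) (R : ℕ → (C → ℤ) → Prop) (D : Finset C) (P : C → Prop) : Prop :=
  ∃ σ : ℕ → C → ℤ, (∀ i < n, R i (σ i)) ∧ (∀ c ∉ D, ∀ i, σ i c = 0) ∧
    ∀ c ∈ D, ∃ τ, (P c → n ≤ τ) ∧ ∀ i < n, (i < τ → σ i c = 1) ∧
      (i = τ → σ i c = 0 ∨ σ i c = -1) ∧ (τ < i → σ i c = 0)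

theorem nest_step {C : Type} [DecidableEq C] {n : ℕ} {R : ℕ → (C → ℤ) → Prop} {D : Finset C}
    {P Q : C → Prop} {σ0 : C → ℤ} (h0 : R 0 σ0) (hz : ∀ c ∉ D, σ0 c = 0)
    (hv : ∀ c, σ0 c = 1 ∨ σ0 c = 0 ∨ σ0 c = -1) (hQ : ∀ c ∈ D, Q c → σ0 c = 1 ∧ P c)
    (h : nest_G n (fun i => R (i + 1)) (D.filter fun c => σ0 c = 1) P) :
    nest_G (n + 1) R D Q := by
  obtain ⟨σ, hR, hD, hτ⟩ := h
  refine ⟨fun i => Nat.casesOn i σ0 σ, ?_, ?_, ?_⟩
  · rintro (_ | i) hi
    · exact h0
    · exact hR i (by omega)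
  · rintro c hc (_ | i)
    · exact hz c hc
    · exact hD c (fun h => hc (mem_filter.1 h).1) i
  · intro c hc
    by_cases h1 : σ0 c = 1
    · obtain ⟨τ, hP, hi⟩ := hτ c (mem_filter.2 ⟨hc, h1⟩)
      refine ⟨τ + 1, fun hq => Nat.succ_le_succ (hP (hQ c hc hq).2), ?_⟩
      rintro (_ | i) hi'
      · exact ⟨fun _ => h1, fun h => by omega, fun h => by omega⟩
      · obtain ⟨a, b, d⟩ := hi i (by omega)
        exact ⟨fun h => a (by omega), fun h => b (by omega), fun h => d (by omega)⟩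
    · refine ⟨0, fun hq => absurd (hQ c hc hq).1 h1, ?_⟩
      rintro (_ | i) hi'
      · exact ⟨fun h => by omega, fun _ => (hv c).resolve_left h1, fun h => by omega⟩
      · exact ⟨fun h => by omega, fun h => by omega,
          fun _ => hD c (fun h => h1 (mem_filter.1 h).2) i⟩

theorem nest_main (n : ℕ) : ∃ K : ℕ, ∀ (C : Type) [DecidableEq C] (R : ℕ → (C → ℤ) → Prop)
    (D : Finset C), (∀ i < n, ∀ D' ⊆ D, ∃ σ, Sig D' σ ∧ R i σ ∧ R i fun c => -σ c) →
    ∃ cls : C → Fin K, ∀ κ, (D.filter fun c => cls c = κ).card ≤ 1 ∨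
      nest_G n R D fun c => cls c = κ := by
  induction n with
  | zero =>
    refine ⟨1, fun C _ R D _ => ⟨fun _ => 0, fun κ => Or.inr ⟨fun _ _ => 0, ?_, ?_, ?_⟩⟩⟩
    · intro i hi; omega
    · intro c _ i; rfl
    · intro c _; exact ⟨0, fun _ => le_rfl, fun i hi => by omega⟩
  | succ n ih =>
    obtain ⟨K, hK⟩ := ih
    refine ⟨Fintype.card (Option (Bool × Fin K)), fun C _ R D h => ?_⟩
    obtain ⟨σ0, ⟨x, hx, hs, hz⟩, hp, hm⟩ := h 0 (Nat.succ_pos n) D (Subset.refl _)
    have hv : ∀ c, σ0 c = 1 ∨ σ0 c = 0 ∨ σ0 c = -1 := by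
      intro c
      by_cases hc : c ∉ D ∨ c ∈ x
      · exact Or.inr (Or.inl (hz c hc))
      · rw [not_or, not_not] at hc
        rcases hs c hc.1 hc.2 with h | h
        · exact Or.inl h
        · exact Or.inr (Or.inr h)
    obtain ⟨cp, hcp⟩ := hK C (fun i => R (i + 1)) (D.filter fun c => σ0 c = 1)
      fun i hi D' hD' => h (i + 1) (by omega) D' (hD'.trans (filter_subset _ _))
    obtain ⟨cm, hcm⟩ := hK C (fun i => R (i + 1)) (D.filter fun c => -σ0 c = 1)
      fun i hi D' hD' => h (i + 1) (by omega) D' (hD'.trans (filter_subset _ _))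
    let e := Fintype.equivFin (Option (Bool × Fin K))
    let f : C → Option (Bool × Fin K) := fun c =>
      if σ0 c = 1 then some (true, cp c) else if -σ0 c = 1 then some (false, cm c) else none
    have fn : ∀ c, f c = none → σ0 c ≠ 1 ∧ -σ0 c ≠ 1 := by
      intro c hc
      simp only [f] at hc
      split_ifs at hc with h1 h2
      exact ⟨h1, h2⟩
    have ft : ∀ c k, f c = some (true, k) → σ0 c = 1 ∧ cp c = k := by
      intro c k hc
      simp only [f] at hc
      split_ifs at hc with h1 h2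
      · exact ⟨h1, by simpa using hc⟩
      · simp at hc
    have ff : ∀ c k, f c = some (false, k) → -σ0 c = 1 ∧ cm c = k := by
      intro c k hc
      simp only [f] at hc
      split_ifs at hc with h1 h2
      · simp at hc
      · exact ⟨h2, by simpa using hc⟩
    refine ⟨fun c => e (f c), fun κ => ?_⟩
    obtain ⟨l, rfl⟩ := e.surjective κ
    rcases l with _ | ⟨_ | _, k⟩
    · refine Or.inl ((card_le_card fun c hc => ?_).trans hx)
      obtain ⟨hD, hc⟩ := mem_filter.1 hc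
      obtain ⟨h1, h2⟩ := fn c (e.injective hc)
      by_contra hcx
      rcases hs c hD hcx with h | h
      · exact h1 h
      · exact h2 (by rw [h]; rfl)
    · rcases hcm k with hc | hc
      · refine Or.inl ((card_le_card fun c hc => ?_).trans hc)
        obtain ⟨hD, hc⟩ := mem_filter.1 hc
        obtain ⟨h1, h2⟩ := ff c k (e.injective hc)
        exact mem_filter.2 ⟨mem_filter.2 ⟨hD, h1⟩, h2⟩
      · refine Or.inr (nest_step (σ0 := fun c => -σ0 c) hm (fun c hc => ?_) (fun c => ?_)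
          (fun c _ hq => ff c k (e.injective hq)) hc)
        · simp [hz c (Or.inl hc)]
        · rcases hv c with h | h | h <;> simp [h]
    · rcases hcp k with hc | hc
      · refine Or.inl ((card_le_card fun c hc => ?_).trans hc)
        obtain ⟨hD, hc⟩ := mem_filter.1 hc
        obtain ⟨h1, h2⟩ := ft c k (e.injective hc)
        exact mem_filter.2 ⟨mem_filter.2 ⟨hD, h1⟩, h2⟩
      · exact Or.inr (nest_step hp (fun c hc => hz c (Or.inl hc)) hv
          (fun c _ hq => ft c k (e.injective hq)) hc)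

theorem p_NEST :
    S_NEST := nest_main

end Pool.Agent.P.MP_40718a_co.Bc

end

section
/-! Step NEST2. -/

set_option linter.unusedSectionVars false

namespace Pool.Agent.P.MP_40718a_co.Bc

open Finset ABF

theorem nest2_lt {m N i r : ℕ} (hi : i < m) (hr : r < N) : i * N + r < m * N :=
  calc i * N + r < i * N + N := by omega
    _ = (i + 1) * N := by ring
    _ ≤ m * N := Nat.mul_le_mul_right N hi

theorem nest2_inj {N i r i' r' : ℕ} (hr : r < N) (hr' : r' < N)
    (h : i * N + r = i' * N + r') : i = i' ∧ r = r' := by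
  have hN : 0 < N := by omega
  have h1 : (i * N + r) / N = i := by
    rw [add_comm, Nat.add_mul_div_right _ _ hN, Nat.div_eq_of_lt hr, zero_add]
  have h2 : (i' * N + r') / N = i' := by
    rw [add_comm, Nat.add_mul_div_right _ _ hN, Nat.div_eq_of_lt hr', zero_add]
  have h3 : i = i' := by rw [← h1, h, h2]
  subst h3
  exact ⟨rfl, by omega⟩

theorem nest2_nonneg {m N r τ : ℕ} (hr : r < N) (hτ : N ≤ τ) (a : ℕ → ℤ)
    (ha : ∀ i < m * N, (i < τ → a i = 1) ∧ (i = τ → a i = 0 ∨ a i = -1) ∧ (τ < i → a i = 0)) :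
    0 ≤ ∑ i : Fin m, a (i * N + r) := by
  rcases Nat.eq_zero_or_pos m with rfl | hm
  · simp
  have key : ∀ i : Fin m, (if i = ⟨0, hm⟩ then (1 : ℤ) else 0) -
      (if (i : ℕ) * N + r = τ then 1 else 0) ≤ a (i * N + r) := by
    intro i
    obtain ⟨h1, h2, h3⟩ := ha _ (nest2_lt i.2 hr)
    by_cases hi : i = ⟨0, hm⟩
    · have h0 : (i : ℕ) * N + r < τ := by rw [hi]; simp; omega
      rw [if_pos hi, if_neg h0.ne, h1 h0]
      norm_num
    · rw [if_neg hi]
      rcases lt_trichotomy ((i : ℕ) * N + r) τ with h | h | h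
      · rw [if_neg h.ne, h1 h]; norm_num
      · rw [if_pos h]
        rcases h2 h with h | h <;> rw [h] <;> norm_num
      · rw [if_neg h.ne', h3 h]; norm_num
  refine le_trans ?_ (sum_le_sum fun i _ => key i)
  rw [sum_sub_distrib, sum_ite_eq' univ, if_pos (mem_univ _), sum_boole, sub_nonneg]
  have : (univ.filter fun i : Fin m => (i : ℕ) * N + r = τ).card ≤ 1 := by
    refine card_le_one.2 fun i hi j hj => Fin.ext ?_
    exact (nest2_inj hr hr ((mem_filter.1 hi).2.trans (mem_filter.1 hj).2.symm)).1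
  exact_mod_cast this

theorem nest2_abs {n τ : ℕ} (a : ℕ → ℤ)
    (ha : ∀ i < n, (i < τ → a i = 1) ∧ (i = τ → a i = 0 ∨ a i = -1) ∧ (τ < i → a i = 0))
    {i : ℕ} (hi : i < n) : |a i| ≤ 1 := by
  obtain ⟨h1, h2, h3⟩ := ha i hi
  rcases lt_trichotomy i τ with h | h | h
  · rw [h1 h]; norm_num
  · rcases h2 h with h | h <;> rw [h] <;> norm_num
  · rw [h3 h]; norm_num

theorem nest2_small {m N r τ : ℕ} (hr : r < N) (hτ : τ < N) (a : ℕ → ℤ)
    (ha : ∀ i < m * N, (i < τ → a i = 1) ∧ (i = τ → a i = 0 ∨ a i = -1) ∧ (τ < i → a i = 0)) :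
    |∑ i : Fin m, a (i * N + r)| ≤ 1 := by
  rcases Nat.eq_zero_or_pos m with rfl | hm
  · simp
  rw [sum_eq_single (⟨0, hm⟩ : Fin m)]
  · exact nest2_abs a ha (nest2_lt hm hr)
  · intro i _ hi
    have h0 : 1 ≤ (i : ℕ) := Nat.one_le_iff_ne_zero.2 fun h => hi (Fin.ext h)
    have h1 : N ≤ (i : ℕ) * N := Nat.le_mul_of_pos_left N h0
    exact (ha _ (nest2_lt i.2 hr)).2.2 (by omega)
  · simp

theorem p_NEST2 (hNEST : S_NEST) :
    S_NEST2 := by
  intro m W _
  obtain ⟨K, hK⟩ := hNEST (m * Fintype.card W)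
  refine ⟨K, fun C _ R D hR => ?_⟩
  set N := Fintype.card W with hN
  let e : W ≃ Fin N := Fintype.equivFin W
  obtain ⟨cls, hcls⟩ := hK C
    (fun j σ => ∀ (i : Fin m) (w : W), (i : ℕ) * N + (e w : ℕ) = j → R i w σ) D (by
      intro j hj D' hD'
      have hN0 : 0 < N := Nat.pos_of_ne_zero fun h => by simp [h] at hj
      have hi : j / N < m := (Nat.div_lt_iff_lt_mul hN0).2 hj
      obtain ⟨σ, h1, h2, h3⟩ := hR ⟨j / N, hi⟩ (e.symm ⟨j % N, Nat.mod_lt _ hN0⟩) D' hD'
      have key : ∀ (i : Fin m) (w : W), (i : ℕ) * N + (e w : ℕ) = j →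
          i = ⟨j / N, hi⟩ ∧ w = e.symm ⟨j % N, Nat.mod_lt _ hN0⟩ := by
        intro i w h
        have h4 : (i : ℕ) * N + (e w : ℕ) = j / N * N + j % N := by
          rw [h, Nat.div_add_mod']
        obtain ⟨h5, h6⟩ := nest2_inj (e w).2 (Nat.mod_lt _ hN0) h4
        exact ⟨Fin.ext h5, e.eq_symm_apply.2 (Fin.ext h6)⟩
      refine ⟨σ, h1, fun i w h => ?_, fun i w h => ?_⟩
      · obtain ⟨rfl, rfl⟩ := key i w h
        exact h2
      · obtain ⟨rfl, rfl⟩ := key i w h
        exact h3)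
  refine ⟨cls, fun κ => (hcls κ).imp_right ?_⟩
  rintro ⟨σ, h1, -, h3⟩
  refine ⟨fun i w => σ (i * N + e w), fun i w => h1 _ (nest2_lt i.2 (e w).2) i w rfl,
    fun c hc => ?_⟩
  obtain ⟨τ, h4, h5⟩ := h3 c hc
  refine ⟨fun i w => nest2_abs (fun j => σ j c) h5 (nest2_lt i.2 (e w).2), ?_, fun h i w => ?_⟩
  · rcases le_or_gt N τ with h | h
    · exact Or.inl fun w => nest2_nonneg (e w).2 h (fun j => σ j c) h5
    · exact Or.inr fun w => nest2_small (e w).2 h (fun j => σ j c) h5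
  · have h6 := nest2_lt i.2 (e w).2
    exact (h5 _ h6).1 (lt_of_lt_of_le h6 (h4 h))

end Pool.Agent.P.MP_40718a_co.Bc

end

section
/-! Step CAKE. -/

set_option linter.unusedSectionVars false

namespace Pool.Agent.P.MP_40718a_co.Bc

open Finset ABF

theorem cake_layer {W : Type} [Fintype W] (m : ℕ) (n f : W → ℤ) (hn : ∀ w, 0 ≤ n w ∧ n w ≤ m) :
    ∑ w, n w * f w = ∑ i ∈ range m, ∑ w ∈ univ.filter (fun w => (i : ℤ) < n w), f w := by
  simp only [sum_filter]
  rw [sum_comm]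
  refine sum_congr rfl fun w _ => ?_
  obtain ⟨a, ha⟩ := Int.eq_ofNat_of_zero_le (hn w).1
  have h1 : a ≤ m := by have := (hn w).2; omega
  have h2 : (range m).filter (fun i : ℕ => (i : ℤ) < n w) = range a := by
    ext i; simp only [mem_filter, mem_range]; omega
  rw [← sum_filter, h2, ha]
  simp

theorem p_CAKE :
    S_CAKE := by
  intro V E _ _ _ _ s t q k m c I J φ n h hn
  have H := h.2.2.2.2.2.2
  have e1 : ∀ e, (q * k * m : ℤ) + ∑ w, n w * φ w e =
      ∑ i ∈ range m, (q * k + ∑ w ∈ univ.filter (fun w => (i : ℤ) < n w), φ w e) := by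
    intro e
    rw [cake_layer m n (fun w => φ w e) hn, sum_add_distrib, sum_const, card_range]
    simp [mul_comm]
  refine ⟨fun e => ?_, fun e he => ?_, fun X hX hO h3 => ?_⟩
  · rw [e1]
    exact sum_nonneg fun i _ => (H _).1 e
  · rw [cake_layer m n (fun w => φ w e) hn]
    refine le_trans (le_of_eq ?_) (sum_le_sum fun i _ => (H _).2.1 e he)
    simp [mul_comm]
  · simp only [e1]
    rw [sum_comm]
    refine le_trans (le_of_eq ?_) (sum_le_sum fun i _ => (H _).2.2 X hX hO h3)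
    simp [mul_comm]

end Pool.Agent.P.MP_40718a_co.Bc

end

section
/-! Step YA. -/

set_option linter.unusedSectionVars false

namespace Pool.Agent.P.MP_40718a_co.Bc

open Finset ABF

theorem p_YA :
    S_YA := by
  intro V E _ _ _ _ s t q k m ld D J Ω φ ψ σ g A h hd hg hl
  have hJ : ∀ c ∈ D, J c ⊆ Ω c := fun c hc => (subset_ball 1).trans (h c hc).1
  refine ⟨fun c hc e he => ?_, fun e he => ?_⟩
  · have hs : s e ∈ Ω c ∧ t e ∈ Ω c := by
      rcases he with he | he
      · exact ⟨hJ c hc he, (h c hc).1 (ball_step_t (r := 0) he)⟩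
      · exact ⟨(h c hc).1 (ball_step_s (r := 0) he), hJ c hc he⟩
    have key : ∀ i w, ∑ c' ∈ D, σ i w c' * (φ c' w e + ψ c' i w e) + g i w e =
        σ i w c * φ c w e := by
      intro i w
      obtain ⟨p1, -, p3, -⟩ := (h c hc).2.2 i
      have g0 : g i w e = 0 := by
        have h1 := hg i w e
        have h2 : e ∉ A i := fun h3 => by have := p3 e h3; tauto
        simpa [ind, h2] using h1
      rw [g0, add_zero, sum_eq_single_of_mem c hc, p1 w e, add_zero]
      · rw [mem_ins, mem_sdiff, mem_sdiff]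
        tauto
      · intro c' hc' hne
        have h1 : s e ∉ Ω c' := disjoint_right.1 (hd c' hc' c hc hne) hs.1
        have h2 : t e ∉ Ω c' := disjoint_right.1 (hd c' hc' c hc hne) hs.2
        rw [(h c' hc').2.1 w e (fun h3 => h1 (hJ c' hc' h3)) (fun h3 => h2 (hJ c' hc' h3)),
          ((h c' hc').2.2 i).1 w e, add_zero, mul_zero]
        rw [mem_ins, mem_sdiff]
        tauto
    simp only [yv, key, sum_mul]
    rw [sum_comm]
  · have k1 : ∀ i, -(12 * q : ℤ) ≤ ∑ w, ∑ c ∈ D, σ i w c * (φ c w e + ψ c i w e) := by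
      intro i
      have z : ∀ c ∈ D, s e ∉ Ω c → ∀ w, σ i w c * (φ c w e + ψ c i w e) = 0 := by
        intro c hc h1 w
        rw [(h c hc).2.1 w e (he c hc).1 (he c hc).2, ((h c hc).2.2 i).1 w e, add_zero, mul_zero]
        rw [mem_ins, mem_sdiff]
        tauto
      by_cases hx : ∃ c ∈ D, s e ∈ Ω c
      · obtain ⟨c, hc, hs⟩ := hx
        obtain ⟨-, p2, -, p4⟩ := (h c hc).2.2 i
        refine (neg_le_neg (p2 e)).trans ?_
        rw [← sum_neg_distrib]
        refine sum_le_sum fun w _ => ?_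
        rw [sum_eq_single_of_mem c hc fun c' hc' hne =>
          z c' hc' (disjoint_right.1 (hd c' hc' c hc hne) hs) w,
          (h c hc).2.1 w e (he c hc).1 (he c hc).2, zero_add]
        refine le_trans ?_ (neg_abs_le _)
        rw [abs_mul]
        exact neg_le_neg (mul_le_of_le_one_left (abs_nonneg _) (p4 w))
      · push Not at hx
        rw [sum_eq_zero fun w _ => sum_eq_zero fun c hc => z c hc (hx c hc) w]
        omega
    have k2 : ∀ i, -(6 * q * k : ℤ) * ind (A i) e ≤ ∑ w, g i w e := by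
      intro i
      refine le_trans (le_of_eq ?_) (sum_le_sum fun w _ => (abs_le.1 (hg i w e)).1)
      simp only [sum_const, card_univ, Fintype.card_prod, Fintype.card_fin, nsmul_eq_mul]
      push_cast
      ring
    have k3 := sum_le_sum fun i (_ : i ∈ univ) => add_le_add (k1 i) (k2 i)
    have k4 : (cnt (fun i => e ∈ A i) : ℤ) ≤ ld := by exact_mod_cast hl e
    rw [sum_add_distrib, ← mul_sum, sum_ind_cnt] at k3
    simp only [sum_const, card_univ, Fintype.card_fin, nsmul_eq_mul] at k3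
    have k5 := mul_le_mul_of_nonneg_left k4 (show (0 : ℤ) ≤ 6 * q * k by positivity)
    simp only [yv, sum_add_distrib] at k3 ⊢
    linarith

end Pool.Agent.P.MP_40718a_co.Bc

end

section
/-! Step YB. -/

set_option linter.unusedSectionVars false

namespace Pool.Agent.P.MP_40718a_co.Bc

open Finset ABF

theorem yb_low {W : Type} [Fintype W] (n f : W → ℤ) (B : ℤ) (hn : ∀ w, |n w| ≤ 1)
    (hf : ∑ w, |f w| ≤ B) : -B ≤ ∑ w, n w * f w := by
  have h1 : ∀ w, -|f w| ≤ n w * f w := by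
    intro w
    have h2 : |n w * f w| ≤ |f w| := by
      rw [abs_mul]
      exact mul_le_of_le_one_left (abs_nonneg _) (hn w)
    have h3 := neg_abs_le (n w * f w)
    linarith
  have h4 : ∑ w, -|f w| ≤ ∑ w, n w * f w := sum_le_sum fun w _ => h1 w
  rw [sum_neg_distrib] at h4
  linarith

theorem yb_a (q k m y : ℤ) (hq : 0 ≤ q) (hk : 96 ≤ k) (hm : 12 ≤ m)
    (h : q * k * m - q * m ≤ y) : 3 * q * k * m ≤ 4 * y := by
  have h1 : 0 ≤ q * m * (k - 4) := by
    apply mul_nonneg (mul_nonneg hq (by linarith)); linarith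
  nlinarith

theorem yb_b (q k m y : ℤ) (hq : 0 ≤ q) (hk : 96 ≤ k) (hm : 12 ≤ m)
    (h : q * k * m - 3 * q * k ≤ y) : 3 * q * k * m ≤ 4 * y := by
  have h1 : 0 ≤ q * k * (m - 12) := by
    apply mul_nonneg (mul_nonneg hq (by linarith)); linarith
  nlinarith

theorem yb_c (q k m ld y : ℤ) (hq : 0 ≤ q) (hk : 96 ≤ k) (hm : 12 ≤ m) (hl : 48 * ld ≤ m)
    (h : q * k * m - 12 * q * m - 6 * q * k * ld ≤ y) : 3 * q * k * m ≤ 4 * y := by
  have h1 : 0 ≤ q * m * (k - 96) := by
    apply mul_nonneg (mul_nonneg hq (by linarith)); linarith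
  have h2 : 0 ≤ q * k * (m - 48 * ld) := by
    apply mul_nonneg (mul_nonneg hq (by linarith)); linarith
  nlinarith

theorem p_YB (hCAKE : S_CAKE) :
    S_YB := by
  intro V E _ _ _ _ s t q k m ld D I J φ n y hk hl hm hD hy hfar
  have hq' : (0 : ℤ) ≤ q := Int.natCast_nonneg q
  have hk' : (96 : ℤ) ≤ k := by exact_mod_cast hk
  have hm' : (12 : ℤ) ≤ m := by exact_mod_cast hm
  have hl' : 48 * (ld : ℤ) ≤ m := by exact_mod_cast hl
  have hpos : (0 : ℤ) ≤ 3 * q * k * m := by positivity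
  have hC : ∀ c ∈ D, (∀ w, 0 ≤ n c w) → _ := fun c hc hg =>
    hCAKE V E s t q k m c (I c) (J c) (φ c) (n c) (hD c hc).1 fun w => ⟨hg w, (hD c hc).2.1 w⟩
  have hbad : ∀ c ∈ D, ¬ (∀ w, 0 ≤ n c w) → ∀ e, s e ∈ J c ∨ t e ∈ J c →
      (3 * q * k * m : ℤ) ≤ 4 * y e := by
    intro c hc hg e he
    have h1 := (hD c hc).2.2.resolve_left hg
    have h2 := yb_low (n c) (fun w => φ c w e) (3 * q * k) h1 ((hD c hc).1.2.2.2.2.1 e)
    refine yb_b q k m _ hq' hk' hm' ?_
    rw [hy c hc e he]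
    linarith
  have hno : ∀ e, (¬ ∃ c ∈ D, s e ∈ J c ∨ t e ∈ J c) → (3 * q * k * m : ℤ) ≤ 4 * y e := by
    intro e he
    refine yb_c q k m ld _ hq' hk' hm' hl' (hfar e fun c hc => ?_)
    exact ⟨fun h => he ⟨c, hc, Or.inl h⟩, fun h => he ⟨c, hc, Or.inr h⟩⟩
  refine ⟨fun e => ?_, fun e he => ?_, fun c hc hg X hX ho h3 => ?_⟩
  · by_cases h : ∃ c ∈ D, s e ∈ J c ∨ t e ∈ J c
    · obtain ⟨c, hc, h⟩ := h
      by_cases hg : ∀ w, 0 ≤ n c w
      · rw [hy c hc e h]; exact (hC c hc hg).1 e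
      · have := hbad c hc hg e h; linarith
    · have := hno e h; linarith
  · by_cases h : ∃ c ∈ D, s e ∈ J c ∨ t e ∈ J c
    · obtain ⟨c, hc, h⟩ := h
      by_cases hg : ∀ w, 0 ≤ n c w
      · refine yb_a q k m _ hq' hk' hm' ?_
        have := (hC c hc hg).2.1 e (he c hc hg)
        rw [hy c hc e h]; linarith
      · exact hbad c hc hg e h
    · exact hno e h
  · refine ((hC c hc hg).2.2 X hX ho h3).trans (le_of_eq (sum_congr rfl fun e he => ?_))
    rw [mem_cut] at he
    refine (hy c hc e ?_).symm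
    by_cases h : s e ∈ X
    · exact Or.inl (hX h)
    · refine Or.inr (hX ?_)
      by_contra h'
      exact he ⟨fun a => absurd a h, fun a => absurd a h'⟩

end Pool.Agent.P.MP_40718a_co.Bc

end

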