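import Pool.Agent.P.MP_40718a_co.Bc.Iface

section
/-! Step CUT. -/

set_option linter.unusedSectionVars false

namespace Pool.Agent.P.MP_40718a_co.Bc

open Finset ABF

section

variable {V E : Type} [Fintype V] [Fintype E] [DecidableEq V] [DecidableEq E] {s t : E → V}

theorem cut_min {Z X : Finset V} (hX : Odd X.card) (hZ : Disjoint X Z) :
    ∃ K : Finset V, Odd K.card ∧ Disjoint K Z ∧ cut s t K ⊆ cut s t X ∧
      ∀ K0 ⊆ K, K0.Nonempty → cut s t K0 ⊆ cut s t K → K ⊆ K0 := by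
  obtain ⟨K, hK, hmin⟩ := exists_min_image (univ.filter fun K : Finset V =>
    Odd K.card ∧ Disjoint K Z ∧ cut s t K ⊆ cut s t X) card ⟨X, by simp [hX, hZ]⟩
  simp only [mem_filter, mem_univ, true_and] at hK hmin
  obtain ⟨h1, h2, h3⟩ := hK
  refine ⟨K, h1, h2, h3, fun K0 h0 hne hc => ?_⟩
  by_cases ho : Odd K0.card
  · exact (eq_of_subset_of_card_le h0 (hmin K0 ⟨ho, h2.mono_left h0, hc.trans h3⟩)).ge
  · have a1 := card_sdiff_add_card_eq_card h0
    have a2 := card_pos.2 hne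
    have a3 := hmin (K \ K0) ⟨by
      rw [Nat.odd_iff] at h1 ho ⊢
      omega, h2.mono_left sdiff_subset, (cut_sdiff_subset h0 hc).trans h3⟩
    omega

theorem cut_triv (h : Cubic s t) (h3 : Small s t 3 1) {y : E → ℤ} {Q : ℤ}
    (hv : ∀ v, vs s t y v = Q) {K : Finset V} (hK : Odd K.card) (hc : (cut s t K).card ≤ 3) :
    Q ≤ ∑ e ∈ cut s t K, y e := by
  have he := even_card h
  have a1 := card_add_card_compl K
  rw [Nat.odd_iff] at hK
  rw [Nat.even_iff] at he
  rcases h3 K hc with h4 | h4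
  · obtain ⟨v, rfl⟩ := card_eq_one.1 (show K.card = 1 by omega)
    rw [← vs_eq_cut h.1, hv]
  · obtain ⟨v, hv'⟩ := card_eq_one.1 (show Kᶜ.card = 1 by omega)
    rw [← cut_compl, hv', ← vs_eq_cut h.1, hv]

theorem cut_conf {I Ω K : Finset V} {b : ℕ} (h5 : Small s t 5 b) (hE : Exp s t I Ω)
    (hb : b < Ωᶜ.card) (hK : K ⊆ Ω) (hne : (K ∩ I).Nonempty)
    (hmin : ∀ K0 ⊆ K, K0.Nonempty → cut s t K0 ⊆ cut s t K → K ⊆ K0)
    (ho : (cut s t K \ ins s t I).card ≤ 3) : K ⊆ ball s t I b := by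
  have hY : (K \ I).card ≤ b := by
    rcases (K \ I).eq_empty_or_nonempty with h0 | h0
    · simp [h0]
    have a1 := hE (K \ I) (sdiff_subset_sdiff hK (Subset.refl _)) h0
    have a2 : cut s t (K \ I) \ cut s t I ⊆ cut s t K \ ins s t I := by
      intro e he
      simp only [mem_sdiff, mem_cut, mem_ins] at he ⊢
      tauto
    have a3 := card_le_card a2
    have a4 := card_sdiff_add_card_inter (cut s t (K \ I)) (cut s t I)
    have a5 : Ωᶜ.card ≤ (K \ I)ᶜ.card :=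
      card_le_card (compl_subset_compl.2 (sdiff_subset.trans hK))
    rcases h5 (K \ I) (by omega) with h | h <;> omega
  obtain ⟨r, hr, hs⟩ := exists_sphere (s := s) (t := t) (K \ I) I
  have a6 : K ∩ ball s t I (r + 1) ⊆ ball s t I r := by
    intro x hx
    by_cases hxI : x ∈ I
    · exact subset_ball r hxI
    · exact hs (mem_inter.2 ⟨mem_sdiff.2 ⟨(mem_inter.1 hx).1, hxI⟩, (mem_inter.1 hx).2⟩)
  have a7 := hmin _ inter_subset_left
    (hne.mono (inter_subset_inter_left (subset_ball r))) (cut_inter_ball a6)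
  exact (a7.trans inter_subset_right).trans (ball_mono_r (hr.trans hY))

end

theorem p_CUT (hDEN : S_DEN) :
    S_CUT := by
  intro V E _ _ _ _ s t y Q D I J a p ρ b hc h3 h5 hp hy hv hlow hD hsk X hX
  classical
  set G := (cut s t X).filter fun e => ∀ c ∈ D, e ∉ ins s t (I c) with hG
  by_cases h4 : 4 ≤ G.card
  · have a1 : ∑ e ∈ G, y e ≤ ∑ e ∈ cut s t X, y e :=
      sum_le_sum_of_subset_of_nonneg (filter_subset _ _) fun e _ _ => hy e
    have a2 : ∑ _e ∈ G, Q ≤ ∑ e ∈ G, 4 * y e :=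
      sum_le_sum fun e he => hlow e (mem_filter.1 he).2
    have a3 : 0 ≤ ∑ e ∈ G, y e := sum_nonneg fun e _ => hy e
    rw [← mul_sum, sum_const, nsmul_eq_mul] at a2
    have a4 : (4 : ℤ) ≤ G.card := by exact_mod_cast h4
    rcases le_total Q 0 with h | h
    · linarith
    · nlinarith
  obtain ⟨A, Z, hL, hN, hAF, hAD⟩ := hsk G (by omega)
  have hXA : Disjoint (cut s t X) A := by
    rw [disjoint_left]
    intro e he heA
    refine disjoint_left.1 hAF heA (mem_filter.2 ⟨he, fun c hc' => ?_⟩)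
    exact disjoint_left.1 (hAD c hc') heA
  obtain ⟨X0, hX0, hZ0, hcut⟩ : ∃ X0 : Finset V, Odd X0.card ∧ Disjoint X0 Z ∧
      cut s t X0 = cut s t X := by
    by_cases hZ : Disjoint X Z
    · exact ⟨X, hX, hZ, rfl⟩
    · obtain ⟨z, hz1, hz2⟩ := not_disjoint_iff.1 hZ
      refine ⟨Xᶜ, ?_, ?_, cut_compl X⟩
      · have he := even_card hc
        have a1 := card_add_card_compl X
        rw [Nat.odd_iff] at hX ⊢
        rw [Nat.even_iff] at he
        omega
      · rw [disjoint_left]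
        intro z' h1 h2
        exact mem_compl.1 h1 ((hL z hz2 z' h2 X hXA).1 hz1)
  obtain ⟨K, hK, hKZ, hKX, hmin⟩ := cut_min (s := s) (t := t) hX0 hZ0
  rw [hcut] at hKX
  refine le_trans ?_ (sum_le_sum_of_subset_of_nonneg hKX fun e _ _ => hy e)
  by_cases hcore : ∀ e ∈ cut s t K, ∀ c ∈ D, e ∉ ins s t (I c)
  · refine cut_triv hc h3 hv hK ?_
    have : cut s t K ⊆ G := fun e he => mem_filter.2 ⟨hKX he, hcore e he⟩
    have := card_le_card this
    omega
  push Not at hcore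
  obtain ⟨e0, he0, c, hcD, hec⟩ := hcore
  obtain ⟨d1, d2, d3, d4, d5, d6⟩ := hD c hcD
  have hne : (K ∩ I c).Nonempty := by
    rw [mem_cut] at he0
    rw [mem_ins] at hec
    by_cases h : s e0 ∈ K
    · exact ⟨_, mem_inter.2 ⟨h, hec.1⟩⟩
    · exact ⟨t e0, mem_inter.2 ⟨by tauto, hec.2⟩⟩
  rcases hDEN V E s t (ends s t c) Z K ρ a p hN hKZ with ⟨r, hr1, hr2, hr3⟩ | hden
  · have a1 := hmin _ inter_subset_left
      (hne.mono (inter_subset_inter_left (d1.trans (ball_mono_r hr1)))) (cut_inter_ball hr3)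
    have hKΩ := (a1.trans inter_subset_right).trans (ball_mono_r hr2.le)
    have ho : (cut s t K \ ins s t (I c)).card ≤ 3 := by
      have : cut s t K \ ins s t (I c) ⊆ G := by
        intro e he
        rw [mem_sdiff] at he
        refine mem_filter.2 ⟨hKX he.1, fun c' hc' hin => ?_⟩
        by_cases hcc : c = c'
        · exact he.2 (hcc ▸ hin)
        · have a2 := disjoint_left.1 (d5 c' hc' hcc)
          have a3 := he.1
          rw [mem_cut] at a3
          rw [mem_ins] at hin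
          have a4 : s e ∉ K := fun h => a2 (hKΩ h) hin.1
          have a5 : t e ∉ K := fun h => a2 (hKΩ h) hin.2
          tauto
      have := card_le_card this
      omega
    exact d6 K ((cut_conf h5 d3 d4 hKΩ hne hmin ho).trans d2) hK ho
  · exfalso
    have : cut s t K ∩ ins s t (ball s t (ends s t c) (a + p * (2 * ρ + 2)) \
        ball s t (ends s t c) a) ⊆ G := by
      intro e he
      rw [mem_inter, mem_ins, mem_sdiff] at he
      refine mem_filter.2 ⟨hKX he.1, fun c' hc' hin => ?_⟩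
      rw [mem_ins] at hin
      by_cases hcc : c = c'
      · exact he.2.1.2 (d1 (hcc ▸ hin.1))
      · exact disjoint_left.1 (d5 c' hc' hcc) he.2.1.1 hin.1
    have := card_le_card this
    omega

end Pool.Agent.P.MP_40718a_co.Bc

end

section
/-! Step SGN. -/

set_option linter.unusedSectionVars false

namespace Pool.Agent.P.MP_40718a_co.Bc

open Finset ABF

theorem p_SGN (hSG : S_SG) (hNEST2 : S_NEST2) :
    S_SGN := by
  intro q k m
  obtain ⟨K, hK⟩ := hNEST2 m (Fin (3 * q) × Fin k)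
  refine ⟨K, fun V E _ _ _ _ s t D J Ω φ ψ A Z hc hL hO => ?_⟩
  obtain ⟨cls, hcls⟩ := hK E (fun i w σ => ∃ g : E → ℤ, (∀ e, |g e| ≤ 2 * ind (A i) e) ∧
      ∀ v, vs s t g v + ∑ c ∈ D, σ c * vs s t (fun e => φ c w e + ψ c i w e) v = 0) D (by
    intro i w D' hD'
    have h1 : ∀ c : E, ∃ (a b : V) (α β : ℤ), c ∈ D → (a ∈ Z i ∧ b ∈ Z i ∧ Sgn α ∧ Sgn β) ∧
        ∀ v, vs s t (fun e => φ c w e + ψ c i w e) v = pt a α v + pt b β v := by
      intro c
      by_cases hcD : c ∈ D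
      · obtain ⟨a, ha, b, hb, α, β, h1, h2, h3⟩ := (hO c hcD i).2.2 w
        exact ⟨a, b, α, β, fun _ => ⟨⟨ha, hb, h1, h2⟩, h3⟩⟩
      · exact ⟨s c, s c, 0, 0, fun h => absurd h hcD⟩
    choose a b α β h1 using h1
    obtain ⟨σ, g, hσ, hg, hv⟩ := hSG V E s t E (A i) (Z i) D' a b α β (hL i)
      fun c hc' => (h1 c (hD' hc')).1
    have h2 : ∀ v, vs s t g v +
        ∑ c ∈ D, σ c * vs s t (fun e => φ c w e + ψ c i w e) v = 0 := by
      intro v
      obtain ⟨x, -, -, hx⟩ := hσ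
      rw [← sum_subset hD' fun c _ hc' => by rw [hx c (Or.inl hc'), zero_mul], ← hv v]
      congr 1
      exact sum_congr rfl fun c hc' => by rw [(h1 c (hD' hc')).2 v]
    refine ⟨σ, hσ, ⟨g, hg, h2⟩, fun e => -g e, fun e => by rw [abs_neg]; exact hg e, fun v => ?_⟩
    have h3 := h2 v
    simp only [vs_neg, neg_mul, sum_neg_distrib]
    linarith)
  refine ⟨cls, fun κ => (hcls κ).imp_right ?_⟩
  rintro ⟨σ, h1, h2⟩
  choose g hg hv using h1
  refine ⟨σ, g, hg, fun v => ?_, h2⟩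
  have e1 : vs s t (yv q k m D φ ψ σ g) v = vs s t (fun _ => (q * k * m : ℤ)) v +
      ∑ i, ∑ w, (∑ c ∈ D, σ i w c * vs s t (fun e => φ c w e + ψ c i w e) v +
        vs s t (g i w) v) := by
    unfold yv
    rw [vs_add, vs_sum]
    congr 1
    refine sum_congr rfl fun i _ => ?_
    rw [vs_sum]
    refine sum_congr rfl fun w _ => ?_
    rw [vs_add, vs_sum]
    congr 1
    exact sum_congr rfl fun c _ => vs_mul _ _ v
  rw [e1, vs_const hc, sum_eq_zero fun i _ => sum_eq_zero fun w _ => by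
    rw [add_comm]; exact hv i w v]
  ring

end Pool.Agent.P.MP_40718a_co.Bc

end

section
/-! Step CLS. -/

set_option linter.unusedSectionVars false

namespace Pool.Agent.P.MP_40718a_co.Bc

open Finset ABF

theorem cls_free {E : Type} [DecidableEq E] {m ld : ℕ} (A : Fin m → Finset E)
    (hA : ∀ e, cnt (fun i => e ∈ A i) ≤ ld) (hm : 3 * ld < m) (F : Finset E) (hF : F.card ≤ 3) :
    ∃ i, Disjoint (A i) F := by
  by_contra hc
  push Not at hc
  have a1 : cnt (fun _ : Fin m => True) ≤ cnt fun i => ∃ e ∈ F, e ∈ A i :=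
    cnt_mono fun i _ => by
      obtain ⟨e, h1, h2⟩ := not_disjoint_iff.1 (hc i)
      exact ⟨e, h2, h1⟩
  have a2 := cnt_exists_le F fun e i => e ∈ A i
  have a3 : ∑ e ∈ F, cnt (fun i => e ∈ A i) ≤ F.card * ld := by
    simpa using sum_le_card_nsmul F _ ld fun e _ => hA e
  have a4 : F.card * ld ≤ 3 * ld := Nat.mul_le_mul_right _ hF
  rw [cnt_true, Fintype.card_fin] at a1
  omega

theorem p_CLS (hOBJ : S_OBJ) (hSGN : S_SGN) (hYA : S_YA) (hYB : S_YB) (hCUT : S_CUT)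
    (hFIN : S_FIN) (hONE : S_ONE) :
    S_CLS := by
  intro q k m
  obtain ⟨K, hK⟩ := hSGN q k m
  refine ⟨K, ?_⟩
  intro V E _ _ _ _ s t ld a p ρ b n D I J φ A Z hc h3 h5 hq hk hm hm' hp hn hpre hdis hA hld
  classical
  set Ω : E → Finset V := fun c => ball s t (ends s t c) (a + p * (2 * ρ + 2)) with hΩ
  have hap : a + 1 ≤ a + p * (2 * ρ + 2) := by nlinarith
  have hJΩ : ∀ c ∈ D, ball s t (J c) 1 ⊆ Ω c := by
    intro c hcD
    refine (ball_mono (hpre c hcD).1.2.2.2.2.1 1).trans ?_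
    rw [ball_add]
    exact ball_mono_r hap
  have hobj : ∀ c i, ∃ ψ : Fin (3 * q) × Fin k → E → ℤ,
      c ∈ D → Obj s t q (Ω c) (J c) (Z i) (φ c) ψ := by
    intro c i
    by_cases hcD : c ∈ D
    · obtain ⟨⟨d1, -, -, -, d5, d6, -, d8⟩, -⟩ := hpre c hcD
      obtain ⟨ψ, h⟩ := hOBJ V E s t q k c (ends s t c) (I c) (J c) (Z i) ρ a p (φ c) d1
        (hA i).2.1 d5 ((cut_card_le hc _).trans (by omega)) d8
      exact ⟨ψ, fun _ => h⟩
    · exact ⟨fun _ _ => 0, fun h => absurd h hcD⟩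
  choose ψ hψ using hobj
  obtain ⟨cls, hcls⟩ := hK V E s t D J Ω φ ψ A Z hc (fun i => (hA i).1) fun c h i => hψ c i h
  refine ⟨cls, fun κ => ?_⟩
  suffices h : ∃ M, PM s t M ∧ (D.filter fun c => cls c = κ) ⊆ M by
    obtain ⟨M, h1, h2⟩ := h
    exact ⟨M, h1, fun c h3 h4 => h2 (mem_filter.2 ⟨h3, h4⟩)⟩
  rcases hcls κ with h | ⟨σ, g, hg, hvs, hσ⟩
  · exact (hONE V E s t hc ((ec3_of_small hc h3).mono (by omega))).1 _ h
  obtain ⟨y1, y2⟩ := hYA V E s t q k m ld D J Ω φ ψ σ g A (fun c hcD => ⟨hJΩ c hcD,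
    (hpre c hcD).1.1.1, fun i => ⟨(hψ c i hcD).1, (hψ c i hcD).2.1, (hA i).2.2 c hcD,
      (hσ c hcD).1 i⟩⟩) hdis hg hld
  obtain ⟨z1, z2, z3⟩ := hYB V E s t q k m ld D I J φ (fun c w => ∑ i, σ i w c)
    (yv q k m D φ ψ σ g) hk hm hm' (fun c hcD => ⟨(hpre c hcD).1.1, fun w => by
      simpa using sum_le_card_nsmul univ (fun i => σ i w c) 1
        fun i _ => (le_abs_self _).trans ((hσ c hcD).1 i w), (hσ c hcD).2.1⟩) y1 y2
  have hIJ : ∀ c ∈ D, I c ⊆ J c := fun c hcD => (hpre c hcD).1.2.2.1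
  have hcut := hCUT V E s t (yv q k m D φ ψ σ g) (3 * q * k * m)
    (D.filter fun c => ∀ w, 0 ≤ ∑ i, σ i w c) I J a p ρ b hc h3 h5 hp z1 hvs
    (fun e he => z2 e fun c h1 h2 => he c (mem_filter.2 ⟨h1, h2⟩))
    (fun c hc' => by
      obtain ⟨hcD, hg'⟩ := mem_filter.1 hc'
      obtain ⟨⟨-, -, d3, d4, d5, -, d7, -⟩, d9⟩ := hpre c hcD
      refine ⟨d3.trans d5, d4, d7, d9, fun c' h' hne => ?_, z3 c hcD hg'⟩
      have h'' := (mem_filter.1 h').1
      exact (hdis c hcD c' h'' hne).mono_right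
        ((hIJ c' h'').trans ((subset_ball 1).trans (hJΩ c' h''))))
    (fun F hF => by
      obtain ⟨i, hi⟩ := cls_free A hld (by omega) F hF
      refine ⟨A i, Z i, (hA i).1, (hA i).2.1, hi, fun c hc' => ?_⟩
      have hcD := (mem_filter.1 hc').1
      rw [disjoint_left]
      intro e h1 h2
      exact ((hA i).2.2 c hcD e h1).1 (hIJ c hcD (mem_ins.1 h2).1))
  refine hFIN V E s t (yv q k m D φ ψ σ g) (3 * q * k * m) _ hc.1 ?_ z1 hvs hcut ?_
  · have a1 : (0 : ℤ) < q := by exact_mod_cast hq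
    have a2 : (0 : ℤ) < k := by exact_mod_cast (show 0 < k by omega)
    have a3 : (0 : ℤ) < m := by exact_mod_cast (show 0 < m by omega)
    positivity
  · intro c hc'
    obtain ⟨hcD, hκ⟩ := mem_filter.1 hc'
    rw [y1 c hcD c (Or.inl (hpre c hcD).1.2.1)]
    simp only [(hσ c hcD).2.2 hκ, sum_const, card_univ, Fintype.card_fin, nsmul_eq_mul, mul_one]
    rw [← mul_sum, (hpre c hcD).1.1.2.2.2.2.2.1]
    ring

end Pool.Agent.P.MP_40718a_co.Bc

end

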