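import Pool.Agent.P.MP_40718a_co.Bc.Iface
import Pool.Agent.P.MP_40718a_co.ABF.TJ
import Pool.Agent.P.MP_40718a_co.ABF.ED

section
/-! Step STE. -/

set_option linter.unusedSectionVars false

namespace Pool.Agent.P.MP_40718a_co.Bc

open Finset ABF

section

variable {V E : Type} [Fintype V] [Fintype E] [DecidableEq V] [DecidableEq E]

/-- `X` separates `T` -/
def ste_Sep (T X : Finset V) : Prop := (X ∩ T).Nonempty ∧ (T \ X).Nonempty

/-- the conclusion -/
def ste_Out (s t : E → V) (T : Finset V) (F : Finset E) (k : ℕ) : Prop :=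
  ∃ B : Fin k → Finset E, (∀ j, B j ⊆ F ∧ Lk s t (B j) T) ∧ ∀ e, cnt (fun j => e ∈ B j) ≤ 2

/-- the hypothesis -/
def ste_Hyp (s t : E → V) (T : Finset V) (F : Finset E) (k : ℕ) : Prop :=
  (∀ v, Even (deg s t F v)) ∧ ∀ X : Finset V, ste_Sep T X → 2 * k ≤ (cut s t X ∩ F).card

variable {s t : E → V} {T : Finset V} {F : Finset E} {k : ℕ}

theorem ste_iff {X : Finset V} : ste_Sep T X ↔ (∃ a ∈ T, a ∈ X) ∧ ∃ b ∈ T, b ∉ X := by
  simp only [ste_Sep, Finset.Nonempty, mem_inter, mem_sdiff, and_comm]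

theorem ste_unc {X Y : Finset V} (hX : ste_Sep T X) (hY : ste_Sep T Y) :
    (ste_Sep T (X ∩ Y) ∧ ste_Sep T (X ∪ Y)) ∨ (ste_Sep T (X \ Y) ∧ ste_Sep T (Y \ X)) := by
  simp only [ste_iff, mem_inter, mem_union, mem_sdiff] at hX hY ⊢
  obtain ⟨⟨a, ha, ha'⟩, b, hb, hb'⟩ := hX
  obtain ⟨⟨c, hc, hc'⟩, d, hd, hd'⟩ := hY
  by_cases h1 : (∃ x ∈ T, x ∈ X ∧ x ∈ Y) ∧ ∃ y ∈ T, ¬ (y ∈ X ∨ y ∈ Y)
  · exact Or.inl ⟨⟨h1.1, b, hb, by tauto⟩, ⟨a, ha, Or.inl ha'⟩, h1.2⟩
  · have h2 : (∃ x ∈ T, x ∈ X ∧ x ∉ Y) ∧ ∃ y ∈ T, y ∈ Y ∧ y ∉ X := by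
      rcases not_and_or.1 h1 with h | h
      · exact ⟨⟨a, ha, ha', fun h' => h ⟨a, ha, ha', h'⟩⟩, c, hc, hc', fun h' => h ⟨c, hc, h', hc'⟩⟩
      · refine ⟨⟨d, hd, ?_, hd'⟩, b, hb, ?_, hb'⟩ <;> by_contra h'
        · exact h ⟨d, hd, by tauto⟩
        · exact h ⟨b, hb, by tauto⟩
    exact Or.inr ⟨⟨h2.1, b, hb, by tauto⟩, h2.2, d, hd, by tauto⟩

theorem ste_even (h : ste_Hyp s t T F k) (X : Finset V) : Even (cut s t X ∩ F).card := by
  have h1 := handshake (s := s) (t := t) F X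
  have h2 : Even (∑ v ∈ X, deg s t F v) := even_sum _ fun v _ => h.1 v
  rw [h1, inter_comm F (cut s t X), Nat.even_iff] at h2
  rw [Nat.even_iff]; omega

theorem ste_loop {e : E} (h : ste_Hyp s t T F k) (he : e ∈ F) (hl : s e = t e) :
    ste_Hyp s t T (F.erase e) k := by
  constructor
  · intro v
    have h1 := h.1 v
    rw [tj_deg_erase he, deg_singleton, hl] at h1
    rw [Nat.even_iff] at h1 ⊢
    split_ifs at h1 <;> omega
  · intro X hX
    have h1 := h.2 X hX
    rw [tj_card_erase he, if_neg (by simp [hl]), zero_add] at h1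
    exact h1

theorem ste_edge (h : ste_Hyp s t T F k) {v u : V} {e₁ : E} (hv : v ∉ T) (he₁ : e₁ ∈ F)
    (hj : TJJoin s t e₁ v u) (hl : ∀ e ∈ F, s e ≠ t e) :
    ∃ e₂ ∈ F, ∃ w, e₂ ≠ e₁ ∧ TJJoin s t e₂ v w ∧ ∀ X : Finset V, ste_Sep T X →
      u ∈ X → w ∈ X → v ∉ X → 2 * k + 2 ≤ (cut s t X ∩ F).card := by
  classical
  have huv : u ≠ v := by
    rintro rfl
    rcases hj with h' | h' <;> exact hl _ he₁ (h'.1.trans h'.2.symm)
  have big : ∀ X : Finset V, ¬ (cut s t X ∩ F).card ≤ 2 * k →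
      2 * k + 2 ≤ (cut s t X ∩ F).card := by
    intro X hX
    have := Nat.even_iff.1 (ste_even h X)
    omega
  set 𝓕 := (univ : Finset (Finset V)).filter fun X =>
    ste_Sep T X ∧ (cut s t X ∩ F).card ≤ 2 * k ∧ u ∈ X ∧ v ∉ X with h𝓕
  rcases 𝓕.eq_empty_or_nonempty with h0 | hne
  · have h1 := ste_even h {v}
    rw [tj_card_erase he₁, if_pos ((hj.mem_cut _).2 (by simp [huv]))] at h1
    obtain ⟨e₂, he₂⟩ : (cut s t {v} ∩ F.erase e₁).Nonempty := by
      rw [← card_pos]
      rw [Nat.even_iff] at h1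
      omega
    rw [mem_inter, mem_erase, mem_cut, mem_singleton, mem_singleton] at he₂
    obtain ⟨w, hw⟩ := tj_exists_join (s := s) (t := t) (e := e₂) (v := v) (by tauto)
    refine ⟨e₂, he₂.2.2, w, he₂.2.1, hw, fun X hX hu _ hv' => big X fun hle => ?_⟩
    have : X ∈ 𝓕 := mem_filter.2 ⟨mem_univ _, hX, hle, hu, hv'⟩
    simp [h0] at this
  · obtain ⟨X, hX, hmax⟩ := exists_max_image 𝓕 card hne
    obtain ⟨hXo, hXk, hXu, hXv⟩ := (mem_filter.1 hX).2
    have hsub : ∀ Y ∈ 𝓕, Y ⊆ X := by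
      intro Y hY
      obtain ⟨hYo, hYk, hYu, hYv⟩ := (mem_filter.1 hY).2
      rcases ste_unc hXo hYo with ⟨b1, b2⟩ | ⟨b1, b2⟩
      · have a1 := h.2 _ b1
        have a2 := submod (s := s) (t := t) F X Y
        have : X ∪ Y ∈ 𝓕 := mem_filter.2 ⟨mem_univ _, b2, by omega,
          mem_union_left _ hXu, by simp [hXv, hYv]⟩
        have h3 := eq_of_subset_of_card_le (subset_union_left (s₁ := X) (s₂ := Y)) (hmax _ this)
        rw [h3]; exact subset_union_right
      · have a1 := h.2 _ b1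
        have a2 := h.2 _ b2
        have a3 := posimod (s := s) (t := t) (F.erase e₁) X Y
        rw [tj_card_erase he₁, if_neg (by rw [hj.mem_cut]; simp [hXv, hYu])] at a1
        rw [tj_card_erase he₁, if_neg (by rw [hj.mem_cut]; simp [hYv, hXu])] at a2
        rw [tj_card_erase he₁, if_pos (by rw [hj.mem_cut]; simp [hXv, hXu])] at hXk
        rw [tj_card_erase he₁, if_pos (by rw [hj.mem_cut]; simp [hYv, hYu])] at hYk
        omega
    obtain ⟨e₂, he₂, w, hw, hwX⟩ : ∃ e₂ ∈ F, ∃ w, TJJoin s t e₂ v w ∧ w ∉ X := by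
      by_contra hc
      push Not at hc
      have a1 := h.2 (insert v X) (by
        unfold ste_Sep
        rwa [insert_inter_of_notMem hv, sdiff_insert_of_notMem hv])
      have a2 : cut s t (insert v X) ∩ F ⊆ cut s t X ∩ F.erase e₁ := by
        intro e he
        rw [mem_inter] at he
        by_cases hev : s e = v ∨ t e = v
        · obtain ⟨w, hw⟩ := tj_exists_join hev
          have := (hw.mem_cut _).1 he.1
          simp [hc e he.2 w hw] at this
        · push Not at hev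
          refine mem_inter.2 ⟨?_, mem_erase.2 ⟨?_, he.2⟩⟩
          · have := he.1
            simpa [hev.1, hev.2] using this
          · rintro rfl
            rcases hj with h' | h'
            · exact hev.1 h'.1
            · exact hev.2 h'.2
      have a3 := card_le_card a2
      rw [tj_card_erase he₁, if_pos (by rw [hj.mem_cut]; simp [hXv, hXu])] at hXk
      omega
    refine ⟨e₂, he₂, w, ?_, hw, fun Y hY hu hw' hv' => big Y fun hle => ?_⟩
    · rintro rfl
      have := (hw.mem_cut X).symm.trans (hj.mem_cut X)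
      simp [hXv, hXu, hwX] at this
    · exact hwX (hsub Y (mem_filter.2 ⟨mem_univ _, hY, hle, hu, hv'⟩) hw')

theorem ste_split (h : ste_Hyp s t T F k) {v : V} {e₁ : E} (hv : v ∉ T) (he₁ : e₁ ∈ F)
    (hev : s e₁ = v ∨ t e₁ = v) (hl : ∀ e ∈ F, s e ≠ t e)
    (ih : ∀ (s' t' : E → V) (F' : Finset E), F'.card < F.card → ste_Hyp s' t' T F' k →
      ste_Out s' t' T F' k) : ste_Out s t T F k := by
  obtain ⟨u, hj⟩ := tj_exists_join hev
  obtain ⟨e₂, he₂, w, hne, hw, hbig⟩ := ste_edge h hv he₁ hj hl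
  set s' := Function.update s e₁ u with hs'
  set t' := Function.update t e₁ w with ht'
  have hj' : TJJoin s' t' e₁ u w := Or.inl ⟨by simp [hs'], by simp [ht']⟩
  have hdeg : ∀ G : Finset E, e₁ ∉ G → ∀ x, deg s' t' G x = deg s t G x := by
    intro G hG x
    simp only [deg_eq_sum]
    refine sum_congr rfl fun e he => ?_
    have : e ≠ e₁ := fun h' => hG (h' ▸ he)
    simp [hs', ht', Function.update_of_ne this]
  have he₁' : e₁ ∈ F.erase e₂ := mem_erase.2 ⟨hne.symm, he₁⟩
  obtain ⟨Q, hQ, hc⟩ := ih s' t' (F.erase e₂) (card_erase_lt_of_mem he₂) (by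
    constructor
    · intro x
      have h1 := h.1 x
      rw [tj_deg_erase he₂, tj_deg_erase he₁', hw.deg, hj.deg, Nat.even_iff] at h1
      rw [tj_deg_erase he₁', hdeg _ (notMem_erase _ _), hj'.deg, Nat.even_iff]
      omega
    · intro X hX
      have e : cut s' t' X ∩ (F.erase e₂).erase e₁ = cut s t X ∩ (F.erase e₂).erase e₁ := by
        ext e
        simp only [mem_inter, mem_erase, mem_cut]
        refine and_congr_left fun h' => ?_
        simp [hs', ht', Function.update_of_ne h'.1]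
      have a1 := h.2 X hX
      have a2 := hbig X hX
      have a3 := hbig Xᶜ (by
        rw [ste_iff] at hX ⊢
        simpa only [mem_compl, not_not] using hX.symm)
      rw [cut_compl] at a3
      rw [tj_card_erase he₂, tj_card_erase he₁'] at a1 a2 a3
      rw [tj_card_erase he₁', e]
      simp only [hw.mem_cut, hj.mem_cut, hj'.mem_cut, mem_compl] at a1 a2 a3 ⊢
      by_cases b1 : u ∈ X <;> by_cases b2 : v ∈ X <;> by_cases b3 : w ∈ X <;>
        simp [b1, b2, b3] at a1 a2 a3 ⊢ <;> omega)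
  have hQ2 : ∀ j, e₂ ∉ Q j := fun j h' => notMem_erase _ _ ((hQ j).1 h')
  refine ⟨fun j => if e₁ ∈ Q j then insert e₂ (Q j) else Q j, fun j =>
    ⟨?_, fun z hz z' hz' X hX => (hQ j).2 z hz z' hz' X (disjoint_left.2 fun e he heQ => ?_)⟩,
    fun e => ?_⟩
  · have := (hQ j).1.trans (erase_subset _ _)
    simp only
    split_ifs
    · exact insert_subset he₂ this
    · exact this
  · rw [disjoint_right] at hX
    by_cases h1 : e = e₁
    · subst h1
      simp only [if_pos heQ] at hX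
      have c1 := hX (mem_insert_self _ _)
      have c2 := hX (mem_insert_of_mem heQ)
      rw [hw.mem_cut] at c1
      rw [hj.mem_cut] at c2
      rw [hj'.mem_cut] at he
      tauto
    · refine hX (a := e) (by simp only; split_ifs <;> simp [heQ]) ?_
      simpa [hs', ht', Function.update_of_ne h1] using he
  · by_cases h1 : e = e₂
    · refine (cnt_mono fun j hj => ?_).trans (hc e₁)
      by_contra h2
      simp only [if_neg h2, h1] at hj
      exact hQ2 j hj
    · refine (cnt_mono fun j hj => ?_).trans (hc e)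
      simp only at hj
      split_ifs at hj
      · exact (mem_insert.1 hj).resolve_left h1
      · exact hj

theorem ste_base (h : ste_Hyp s t T F k) (hin : ∀ e ∈ F, s e ∈ T ∧ t e ∈ T) :
    ste_Out s t T F k := by
  obtain ⟨B, hB, hc⟩ := ed V E s t T F k (fun e he => mem_ins.2 (hin e he)) fun X hX hne hXT =>
    le_trans (by omega) (h.2 X ⟨by rwa [inter_eq_left.2 hX],
      sdiff_nonempty.2 fun h' => hXT (Subset.antisymm hX h')⟩)
  have key : ∀ j, ∀ z ∈ T, ∀ z' ∈ T, ∀ X, Disjoint (cut s t X) (B j) → z ∈ X → z' ∈ X := by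
    intro j z hz z' hz' X hX hzX
    by_contra h'
    obtain ⟨e, he⟩ := (hB j).2 (X ∩ T) inter_subset_right ⟨z, mem_inter.2 ⟨hzX, hz⟩⟩
      fun h2 => h' (inter_eq_right.1 h2 hz')
    rw [mem_inter] at he
    have b1 := hin e ((hB j).1 he.2)
    refine disjoint_left.1 hX ?_ he.2
    simpa [b1.1, b1.2] using he.1
  exact ⟨B, fun j => ⟨(hB j).1, fun z hz z' hz' X hX =>
    ⟨key j z hz z' hz' X hX, key j z' hz' z hz X hX⟩⟩, hc⟩

theorem ste_ind (n : ℕ) : ∀ (s t : E → V) (F : Finset E), F.card = n → ste_Hyp s t T F k →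
    ste_Out s t T F k := by
  induction n using Nat.strong_induction_on with
  | _ n ih =>
    intro s t F hn h
    subst hn
    by_cases hl : ∃ e ∈ F, s e = t e
    · obtain ⟨e, he, hl⟩ := hl
      obtain ⟨Q, hQ, hc⟩ := ih _ (card_erase_lt_of_mem he) s t _ rfl (ste_loop h he hl)
      exact ⟨Q, fun j => ⟨(hQ j).1.trans (erase_subset _ _), (hQ j).2⟩, hc⟩
    push Not at hl
    by_cases hin : ∀ e ∈ F, s e ∈ T ∧ t e ∈ T
    · exact ste_base h hin
    · push Not at hin
      obtain ⟨e, he, hin⟩ := hin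
      by_cases hs : s e ∈ T
      · exact ste_split h (hin hs) he (Or.inr rfl) hl fun s' t' F' hF => ih _ hF s' t' F' rfl
      · exact ste_split h hs he (Or.inl rfl) hl fun s' t' F' hF => ih _ hF s' t' F' rfl

end

theorem p_STE :
    S_STE := by
  intro V E _ _ _ _ s t T F k h1 h2
  exact ste_ind _ s t F rfl ⟨h1, fun X hX => h2 X hX.1 hX.2⟩

end Pool.Agent.P.MP_40718a_co.Bc

end

section
/-! Step ST. -/

set_option linter.unusedSectionVars false

namespace Pool.Agent.P.MP_40718a_co.Bc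

open Finset ABF

theorem p_ST (hSTE : S_STE) :
    S_ST := by
  intro V E _ _ _ _ s t T A k hA
  let m : E → ℕ := fun e => if e ∈ A then 2 * k + 2 else 2
  have hm : ∀ e, Even (m e) ∧ 2 ≤ m e := fun e => by
    simp only [m]
    split_ifs
    · exact ⟨(even_two_mul _).add even_two, by omega⟩
    · exact ⟨even_two, le_rfl⟩
  have hsum : ∀ g : E → ℕ, ∑ p : (Σ e : E, Fin (m e)), g p.1 = ∑ e, m e * g e := fun g => by
    simp [Fintype.sum_sigma]
  obtain ⟨Q, hQ, hc⟩ := hSTE V (Σ e : E, Fin (m e)) (fun p => s p.1) (fun p => t p.1) T univ k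
    (by
      intro v
      rw [deg_eq_sum, hsum fun e => (if s e = v then 1 else 0) + (if t e = v then 1 else 0)]
      exact even_sum _ fun e _ => (hm e).1.mul_right _)
    (by
      intro X hX hX'
      have e1 : (cut (fun p : Σ e : E, Fin (m e) => s p.1) (fun p => t p.1) X ∩ univ).card =
          ∑ e ∈ cut s t X, m e := by
        rw [card_inter_eq_sum]
        simp only [mem_cut]
        rw [hsum fun e => if ¬ (s e ∈ X ↔ t e ∈ X) then 1 else 0, cut, sum_filter]
        simp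
      rw [e1]
      rcases hA X hX hX' with h' | ⟨e, he⟩
      · have := card_nsmul_le_sum (cut s t X) m 2 fun e _ => (hm e).2
        rw [smul_eq_mul] at this
        exact le_trans (by omega) this
      · rw [mem_inter] at he
        have := single_le_sum (f := m) (fun _ _ => Nat.zero_le _) he.1
        simp only [m, he.2, if_true] at this
        exact le_trans (by omega) this)
  refine ⟨fun j => (Q j).image fun p => p.1, fun j z hz z' hz' X hX => ?_, fun e he => ?_⟩
  · refine (hQ j).2 z hz z' hz' X (disjoint_left.2 fun p hp hp' => ?_)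
    have h1 : p.1 ∈ cut s t X := by
      rw [mem_cut] at hp ⊢
      exact hp
    exact disjoint_left.1 hX h1 (mem_image_of_mem _ hp')
  · refine (cnt_mono (Q := fun j => ∃ i ∈ (univ : Finset (Fin (m e))), ⟨e, i⟩ ∈ Q j)
      fun j hj => ?_).trans ((cnt_exists_le _ _).trans ?_)
    · obtain ⟨⟨e', i⟩, hp, rfl⟩ := mem_image.1 hj
      exact ⟨i, mem_univ _, hp⟩
    · refine (sum_le_card_nsmul _ _ 2 fun i _ => hc _).trans ?_
      simp [m, he]

end Pool.Agent.P.MP_40718a_co.Bc

end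

section
/-! Step GEO. -/

set_option linter.unusedSectionVars false

namespace Pool.Agent.P.MP_40718a_co.Bc

open Finset ABF

theorem geo_path {V E : Type} [Fintype V] [Fintype E] [DecidableEq V] [DecidableEq E]
    (s t : E → V) (S : Finset V) (i : ℕ) : ∀ v ∈ ball s t S i, (∀ k < i, v ∉ ball s t S k) →
    ∃ x : ℕ → V, x i = v ∧ (∀ j ≤ i, x j ∈ ball s t S j ∧ ∀ k < j, x j ∉ ball s t S k) ∧
      ∀ j < i, ∃ e, (s e = x j ∧ t e = x (j + 1)) ∨ (t e = x j ∧ s e = x (j + 1)) := by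
  induction i with
  | zero =>
    intro v hv _
    refine ⟨fun _ => v, rfl, fun j hj => ?_, fun j hj => absurd hj (Nat.not_lt_zero j)⟩
    obtain rfl := Nat.le_zero.1 hj
    exact ⟨hv, fun k hk => absurd hk (Nat.not_lt_zero k)⟩
  | succ i ih =>
    intro v hv hn
    obtain ⟨e, w, hw, he⟩ : ∃ e w, w ∈ ball s t S i ∧
        ((s e = w ∧ t e = v) ∨ (t e = w ∧ s e = v)) := by
      rcases mem_ball_succ.1 hv with h | ⟨e, ⟨h1, h⟩ | ⟨h1, h⟩⟩
      · exact absurd h (hn i i.lt_succ_self)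
      · exact ⟨e, _, h, Or.inr ⟨rfl, h1⟩⟩
      · exact ⟨e, _, h, Or.inl ⟨rfl, h1⟩⟩
    obtain ⟨x, h1, h2, h3⟩ := ih w hw fun k hk h => hn (k + 1) (by omega) (by
      rcases he with ⟨rfl, rfl⟩ | ⟨rfl, rfl⟩
      · exact ball_step_t h
      · exact ball_step_s h)
    refine ⟨fun j => if j ≤ i then x j else v, if_neg (by omega), fun j hj => ?_, fun j hj => ?_⟩
    · by_cases h : j ≤ i
      · simp only [if_pos h]; exact h2 j h
      · obtain rfl : j = i + 1 := by omega
        simp only [if_neg h]; exact ⟨hv, hn⟩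
    · by_cases h : j < i
      · simp only [if_pos h.le, if_pos (Nat.succ_le_of_lt h)]; exact h3 j h
      · obtain rfl : j = i := by omega
        simp only [le_refl, if_true, if_neg (Nat.not_succ_le_self j), h1]; exact ⟨e, he⟩

theorem p_GEO :
    S_GEO := by
  intro V E _ _ _ _ s t R z hc hE hR
  obtain ⟨v, hv, hn⟩ : ∃ v ∈ ball s t {z} R, ∀ k < R, v ∉ ball s t {z} k := by
    cases R with
    | zero => exact ⟨z, mem_singleton_self z, fun k hk => absurd hk (Nat.not_lt_zero k)⟩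
    | succ r =>
      have h1 : ball s t {z} r ≠ univ := fun h => by
        have h2 := ball_card hc {z} r
        rw [h, card_univ, card_singleton, one_mul] at h2
        have : 4 ^ r ≤ 4 ^ (r + 1) := Nat.pow_le_pow_right (by norm_num) r.le_succ
        omega
      obtain ⟨e, he⟩ := card_pos.1 (hE _ ⟨z, subset_ball r (mem_singleton_self z)⟩ h1)
      rw [mem_cut] at he
      by_cases h : s e ∈ ball s t {z} r
      · exact ⟨t e, ball_step_t h, fun k hk h' => he (iff_of_true h (ball_mono_r (by omega) h'))⟩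
      · have h2 : t e ∈ ball s t {z} r := by tauto
        exact ⟨s e, ball_step_s h2, fun k hk h' => h (ball_mono_r (by omega) h')⟩
  obtain ⟨x, -, h2, h3⟩ := geo_path s t {z} R v hv hn
  refine ⟨x, fun i hi => ball_mono_r hi (h2 i hi).1, fun i hi j hj h => ?_, h3⟩
  rcases lt_trichotomy i j with h' | h' | h'
  · exact absurd (h ▸ (h2 i hi).1) ((h2 j hj).2 i h')
  · exact h'
  · exact absurd (h ▸ (h2 j hj).1) ((h2 i hi).2 j h')

end Pool.Agent.P.MP_40718a_co.Bc

end

section
/-! Step BLOB. -/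

set_option linter.unusedSectionVars false

namespace Pool.Agent.P.MP_40718a_co.Bc

open Finset ABF

theorem blob_net {V E : Type} [Fintype V] [Fintype E] [DecidableEq V] [DecidableEq E]
    (s t : E → V) (R : ℕ) : ∃ Z : Finset V,
      (∀ z ∈ Z, ∀ z' ∈ Z, ∀ y, y ∈ ball s t {z} R → y ∈ ball s t {z'} R → z = z') ∧
      ∀ v, ∃ z ∈ Z, z ∈ ball s t {v} (R + R) := by
  classical
  obtain ⟨Z, hZ, hm⟩ := exists_max_image (univ.filter fun Z : Finset V =>
    ∀ z ∈ Z, ∀ z' ∈ Z, ∀ y, y ∈ ball s t {z} R → y ∈ ball s t {z'} R → z = z') card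
    ⟨∅, by simp⟩
  have hZ := (mem_filter.1 hZ).2
  refine ⟨Z, hZ, fun v => ?_⟩
  by_contra hc
  have h1 : ∀ z ∈ Z, ∀ y, y ∈ ball s t {v} R → y ∈ ball s t {z} R → False :=
    fun z hz y a b => hc ⟨z, hz, ball_trans a (ball_symm b)⟩
  have h2 : v ∉ Z := fun h => hc ⟨v, h, subset_ball _ (mem_singleton_self v)⟩
  have h3 := hm (insert v Z) (mem_filter.2 ⟨mem_univ _, fun z hz z' hz' y a b => by
    rcases mem_insert.1 hz with e | m <;> rcases mem_insert.1 hz' with e' | m'
    · exact e.trans e'.symm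
    · exact (h1 _ m' y (e ▸ a) b).elim
    · exact (h1 _ m y (e' ▸ b) a).elim
    · exact hZ z m z' m' y a b⟩)
  rw [card_insert_of_notMem h2] at h3
  omega

theorem blob_win {P : ℕ → Prop} {a n : ℕ} (h : ∀ j, a ≤ j → j + 1 < a + n → (P j ↔ P (j + 1))) :
    ∀ i, i < n → (P (a + i) ↔ P a) := by
  intro i
  induction i with
  | zero => exact fun _ => Iff.rfl
  | succ i ih => exact fun hi => (h (a + i) (by omega) (by omega)).symm.trans (ih (by omega))

theorem p_BLOB (hGEO : S_GEO) :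
    S_BLOB := by
  intro V E _ _ _ _ s t H L hc he hV
  choose x x1 x2 x3 using fun z => hGEO V E s t (H * (L + 1)) z hc he hV
  obtain ⟨Z, Z1, Z2⟩ := blob_net s t (H * (L + 1))
  have hw : ∀ (h : Fin H) (i : ℕ), i < L + 1 → h * (L + 1) + i < H * (L + 1) := fun h i hi =>
    calc h * (L + 1) + i < h * (L + 1) + (L + 1) := by omega
      _ = (h + 1) * (L + 1) := by ring
      _ ≤ H * (L + 1) := Nat.mul_le_mul_right _ h.2
  have hT : ∀ (h : Fin H) (y : V),
      y ∈ (Z ×ˢ range (L + 1)).image (fun p => x p.1 (h * (L + 1) + p.2)) ↔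
        ∃ z ∈ Z, ∃ i < L + 1, x z (h * (L + 1) + i) = y := fun h y => by
    simp only [mem_image, mem_product, mem_range, Prod.exists]
    exact ⟨fun ⟨z, i, ⟨a, b⟩, c⟩ => ⟨z, a, i, b, c⟩, fun ⟨z, a, i, b, c⟩ => ⟨z, i, ⟨a, b⟩, c⟩⟩
  refine ⟨fun h => (Z ×ˢ range (L + 1)).image fun p => x p.1 (h * (L + 1) + p.2),
    fun h h' hne => disjoint_left.2 fun y a b => hne ?_, fun h => ⟨fun v => ?_, fun X hX hd => ?_⟩⟩
  · obtain ⟨z, hz, i, hi, a⟩ := (hT h y).1 a
    obtain ⟨z', hz', i', hi', b⟩ := (hT h' y).1 b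
    obtain rfl := Z1 z hz z' hz' y (a ▸ x1 z _ (hw h i hi).le) (b ▸ x1 z' _ (hw h' i' hi').le)
    have e := x2 z _ (hw h i hi).le _ (hw h' i' hi').le (a.trans b.symm)
    have e1 := congrArg (· / (L + 1)) e
    simp only [mul_comm _ (L + 1), Nat.mul_add_div (Nat.succ_pos L), Nat.div_eq_of_lt hi,
      Nat.div_eq_of_lt hi', add_zero] at e1
    exact Fin.ext e1
  · obtain ⟨z, hz, a⟩ := Z2 v
    exact ⟨_, (hT h _).2 ⟨z, hz, 0, Nat.succ_pos L, rfl⟩,
      ball_mono_r (by omega) (ball_trans a (x1 z _ (hw h 0 (Nat.succ_pos L)).le))⟩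
  · obtain ⟨y, hy⟩ := hX
    obtain ⟨z, hz, i, hi, rfl⟩ := (hT h y).1 (mem_inter.1 hy).2
    have key := blob_win (P := fun j => x z j ∈ X) (a := h * (L + 1)) (n := L + 1) fun j a b => by
      obtain ⟨k, rfl⟩ := Nat.exists_eq_add_of_le a
      obtain ⟨e, he⟩ := x3 z _ (hw h k (by omega))
      have m1 := (hT h _).2 ⟨z, hz, k, by omega, rfl⟩
      have m2 := (hT h _).2 ⟨z, hz, k + 1, by omega, rfl⟩
      rw [← add_assoc] at m2
      have m3 : e ∉ cut s t X := fun m => disjoint_left.1 hd m (mem_ins.2 (by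
        rcases he with ⟨a, b⟩ | ⟨a, b⟩ <;> rw [a, b] <;> exact ⟨by assumption, by assumption⟩))
      rw [mem_cut] at m3
      rcases he with ⟨a, b⟩ | ⟨a, b⟩ <;> rw [a, b] at m3 <;> tauto
    have h0 := (key i hi).1 (mem_inter.1 hy).1
    have := card_le_card_of_injOn (s := range (L + 1)) (t := X) (fun j => x z (h * (L + 1) + j))
      (fun j hj => (key j (mem_range.1 hj)).2 h0) fun j hj j' hj' e => by
        have := x2 z _ (hw h j (mem_range.1 hj)).le _ (hw h j' (mem_range.1 hj')).le e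
        omega
    rwa [card_range] at this

end Pool.Agent.P.MP_40718a_co.Bc

end

section
/-! Step SK. -/

set_option linter.unusedSectionVars false

namespace Pool.Agent.P.MP_40718a_co.Bc

open Finset ABF

theorem p_SK (hBLOB : S_BLOB) (hST : S_ST) :
    S_SK := by
  intro V E _ _ _ _ s t H L hc h1 hs hV
  obtain ⟨T, hd, hT⟩ := hBLOB V E s t H L hc h1 hV
  choose B hB hB' using fun h => hST V E s t (T h) (ins s t (T h)) H fun X a b => by
    by_contra hn
    rw [not_or, not_le, ← not_disjoint_iff_nonempty_inter, not_not] at hn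
    have a1 := (hT h).2 X a hn.2
    have a2 := (hT h).2 Xᶜ (by rwa [inter_comm, ← sdiff_eq_inter_compl]) (by rw [cut_compl]; exact hn.2)
    have := hs X hn.1.le
    omega
  refine ⟨fun i => B i.1 i.2, fun i => T i.1, fun i => ⟨hB _ _, (hT _).1⟩, fun e => ?_⟩
  have a : cnt (fun i : Fin H × Fin H => e ∈ B i.1 i.2) = ∑ h, cnt fun j => e ∈ B h j := by
    simp only [cnt_eq, card_filter, Fintype.sum_prod_type]
  have b : ∀ h, cnt (fun j => e ∈ B h j) ≤ 4 + if e ∈ ins s t (T h) then H else 0 := fun h => by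
    have := cnt_le_card fun j => e ∈ B h j
    rw [Fintype.card_fin] at this
    split_ifs with c
    · omega
    · exact hB' h e c
  have c : (univ.filter fun h => e ∈ ins s t (T h)).card ≤ 1 := card_le_one.2 fun h a h' b => by
    by_contra hn
    exact disjoint_left.1 (hd h h' hn) (mem_ins.1 (mem_filter.1 a).2).1
      (mem_ins.1 (mem_filter.1 b).2).1
  have d := sum_le_sum fun h (_ : h ∈ univ) => b h
  rw [sum_add_distrib, ← sum_filter, sum_const, sum_const, card_univ, Fintype.card_fin, smul_eq_mul,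
    smul_eq_mul] at d
  have := Nat.mul_le_mul_right H c
  beta_reduce
  omega

end Pool.Agent.P.MP_40718a_co.Bc

end

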