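import Pool.Agent.P.MP_40718a_co.Bc.B1
import Pool.Agent.P.MP_40718a_co.Bc.B2
import Pool.Agent.P.MP_40718a_co.Bc.B3
import Pool.Agent.P.MP_40718a_co.Bc.B4
import Pool.Agent.P.MP_40718a_co.Bc.B5
import Pool.Agent.P.MP_40718a_co.Bc.B6
import Pool.Agent.P.MP_40718a_co.Bc.B7
import Pool.Agent.P.MP_40718a_co.Bc.B8
import Pool.Agent.P.MP_40718a_co.Bc.B9
import Pool.Agent.P.MP_40718a_co.Bc.B10
import Pool.Agent.P.MP_40718a_co.Bc.B11

/-! Assembly. -/

namespace Pool.Agent.P.MP_40718a_co.Bc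

theorem all_TUT : S_TUT := p_TUT
theorem all_TUT2 : S_TUT2 := p_TUT2 all_TUT
theorem all_FIN : S_FIN := p_FIN all_TUT2
theorem all_RAT0 : S_RAT0 := p_RAT0
theorem all_RAT : S_RAT := p_RAT all_RAT0
theorem all_LAW : S_LAW := p_LAW all_RAT
theorem all_ONE : S_ONE := p_ONE all_LAW
theorem all_COV : S_COV := p_COV all_ONE
theorem all_CA : S_CA := p_CA
theorem all_CB : S_CB := p_CB
theorem all_CC : S_CC := p_CC all_CA all_CB
theorem all_CNT : S_CNT := p_CNT all_CA all_CB all_CC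
theorem all_COPY : S_COPY := p_COPY all_TUT2 all_CNT
theorem all_TD : S_TD := p_TD
theorem all_CMP : S_CMP := p_CMP
theorem all_PC : S_PC := p_PC all_CMP
theorem all_L0 : S_L0 := p_L0 all_COPY all_PC all_TD
theorem all_INEQ : S_INEQ := p_INEQ
theorem all_L1 : S_L1 := p_L1 all_L0 all_INEQ
theorem all_LOC : S_LOC := p_LOC
theorem all_MIN : S_MIN := p_MIN
theorem all_PRE : S_PRE := p_PRE all_MIN all_L1 all_LAW all_LOC
theorem all_DEN : S_DEN := p_DEN
theorem all_TREE : S_TREE := p_TREE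
theorem all_WALK : S_WALK := p_WALK all_TREE
theorem all_MG : S_MG := p_MG
theorem all_EXIT : S_EXIT := p_EXIT all_DEN all_MG all_WALK
theorem all_OBJ : S_OBJ := p_OBJ all_EXIT
theorem all_SGT : S_SGT := p_SGT
theorem all_SG : S_SG := p_SG all_TREE all_SGT
theorem all_NEST : S_NEST := p_NEST
theorem all_NEST2 : S_NEST2 := p_NEST2 all_NEST
theorem all_CAKE : S_CAKE := p_CAKE
theorem all_YA : S_YA := p_YA
theorem all_YB : S_YB := p_YB all_CAKE
theorem all_CUT : S_CUT := p_CUT all_DEN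
theorem all_SGN : S_SGN := p_SGN all_SG all_NEST2
theorem all_CLS : S_CLS := p_CLS all_OBJ all_SGN all_YA all_YB all_CUT all_FIN all_ONE
theorem all_STE : S_STE := p_STE
theorem all_ST : S_ST := p_ST all_STE
theorem all_GEO : S_GEO := p_GEO
theorem all_BLOB : S_BLOB := p_BLOB all_GEO
theorem all_SK : S_SK := p_SK all_BLOB all_ST
theorem all_PAT : S_PAT := p_PAT
theorem all_COL : S_COL := p_COL
theorem all_M4 : S_M4 := p_M4 all_PRE all_SK all_PAT all_COL all_CLS all_COV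
theorem all_PART : S_PART := p_PART
theorem all_EXT : S_EXT := p_EXT all_ONE
theorem all_QUO : S_QUO := p_QUO
theorem all_M2 : S_M2 := p_M2 all_M4 all_PART all_QUO all_EXT all_COV

end Pool.Agent.P.MP_40718a_co.Bc
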