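import Pool.Agent.P.MP_40718a_co.Bc.Iface

section
/-! Step TUT. -/

set_option linter.unusedSectionVars false

namespace Pool.Agent.P.MP_40718a_co.Bc

open Finset ABF

section

variable {V E : Type} [Fintype V] [Fintype E] [DecidableEq V] [DecidableEq E]

/-- the vertex of the auxiliary graph that stands for the end `x` of `e` -/
def tut_far (U : Finset V) (e : E) (x : V) : (V ⊕ E) × Bool :=
  (if x ∈ U then Sum.inl x else Sum.inr e, false)

/-- the vertices of the auxiliary graph that stand for vertices of `U` -/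
def tut_in (U : Finset V) (w : (V ⊕ E) × Bool) : Prop := ∃ v ∈ U, w = (Sum.inl v, false)

/-- the auxiliary graph -/
def tut_G (s t : E → V) (U : Finset V) (F : Finset E) : SimpleGraph ((V ⊕ E) × Bool) where
  Adj w w' := w ≠ w' ∧ ((¬ tut_in U w ∧ ¬ tut_in U w') ∨
    ∃ e ∈ F, s(tut_far U e (s e), tut_far U e (t e)) = s(w, w'))
  symm := ⟨fun _ _ h => ⟨h.1.symm, h.2.imp And.symm fun ⟨e, he, q⟩ => ⟨e, he, q.trans Sym2.eq_swap⟩⟩⟩
  loopless := ⟨fun _ h => h.1 rfl⟩

theorem tut_far_mem {U : Finset V} (e : E) {x : V} (h : x ∈ U) :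
    tut_far U e x = (Sum.inl x, false) := by simp [tut_far, h]

theorem tut_far_not {U : Finset V} (e : E) {x : V} (h : x ∉ U) :
    tut_far U e x = (Sum.inr e, false) := by simp [tut_far, h]

theorem tut_far_eq {U : Finset V} {e : E} {x v : V} (h : tut_far U e x = (Sum.inl v, false)) :
    x = v ∧ x ∈ U := by
  by_cases hx : x ∈ U
  · rw [tut_far_mem e hx] at h; exact ⟨by simpa using h, hx⟩
  · rw [tut_far_not e hx] at h; simp at h

theorem tut_pm (s t : E → V) (U : Finset V) (F : Finset E)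
    (H : ∀ (S : Finset V) (O : Finset (Finset V)), S ⊆ U → Dj O →
      (∀ X ∈ O, X ⊆ U \ S ∧ Odd X.card ∧ ∀ e ∈ cut s t X ∩ F, s e ∈ S ∨ t e ∈ S) →
      O.card ≤ S.card) : ∃ M : (tut_G s t U F).Subgraph, M.IsPerfectMatching := by
  classical
  rw [SimpleGraph.tutte]
  intro u hu
  unfold SimpleGraph.IsTutteViolator at hu
  set G' := ((⊤ : (tut_G s t U F).Subgraph).deleteVerts u).coe with hG'
  have hv : ∀ w, w ∈ ((⊤ : (tut_G s t U F).Subgraph).deleteVerts u).verts ↔ w ∉ u := by simp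
  have hadj : ∀ w w' hw hw', (tut_G s t U F).Adj w w' →
      G'.connectedComponentMk ⟨w, hw⟩ = G'.connectedComponentMk ⟨w', hw'⟩ := by
    intro w w' hw hw' h
    apply SimpleGraph.ConnectedComponent.connectedComponentMk_eq_of_adj
    simp [G', (hv w).1 hw, (hv w').1 hw', h]
  let K : G'.ConnectedComponent → Finset V := fun c =>
    U.filter fun x => ∃ hx, G'.connectedComponentMk ⟨(Sum.inl x, false), hx⟩ = c
  let Inn : G'.ConnectedComponent → Prop := fun c =>
    ∀ w hw, G'.connectedComponentMk ⟨w, hw⟩ = c → tut_in U w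
  let Ex : G'.ConnectedComponent → E → Prop := fun c e =>
    e ∈ F ∧ (s e ∈ K c ∧ t e ∉ U ∨ t e ∈ K c ∧ s e ∉ U)
  have hKU : ∀ c x, x ∈ K c → x ∈ U := fun c x hx => (mem_filter.1 hx).1
  have hKK : ∀ c c' x, x ∈ K c → x ∈ K c' → c = c' := by
    intro c c' x h1 h2
    obtain ⟨_, a⟩ := (mem_filter.1 h1).2
    obtain ⟨_, b⟩ := (mem_filter.1 h2).2
    rw [← a, ← b]
  have hK : ∀ c, Inn c → (K c).card = c.supp.ncard := by
    intro c hc
    rw [← Set.ncard_image_of_injective _ Subtype.val_injective, ← Set.ncard_coe_finset,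
      ← Set.ncard_image_of_injective (f := fun x : V => ((Sum.inl x, false) : (V ⊕ E) × Bool)) _
        fun a b h => by simpa using h]
    congr 1
    ext w
    constructor
    · rintro ⟨x, hx, rfl⟩
      obtain ⟨hx', e⟩ := (mem_filter.1 (mem_coe.1 hx)).2
      exact ⟨⟨_, hx'⟩, e, rfl⟩
    · rintro ⟨⟨w, hw⟩, e, rfl⟩
      obtain ⟨x, hx, rfl⟩ := hc w hw e
      exact ⟨x, mem_coe.2 (mem_filter.2 ⟨hx, hw, e⟩), rfl⟩
  have key : ∀ c, Inn c → ∀ e ∈ F, ∀ x y,
      s(tut_far U e (s e), tut_far U e (t e)) = s(tut_far U e x, tut_far U e y) → x ∈ K c →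
      y ∉ K c → tut_far U e y ∈ u := by
    intro c hc e he x y hxy hx hy
    by_contra hn
    obtain ⟨hxU, hx', hxc⟩ := mem_filter.1 hx
    rw [tut_far_mem e hxU] at hxy
    have h1 := hadj _ _ hx' ((hv _).2 hn) ⟨fun q => hy ((tut_far_eq q.symm).1 ▸ hx),
      Or.inr ⟨e, he, hxy⟩⟩
    obtain ⟨z, hz, q⟩ := hc _ _ (h1.symm.trans hxc)
    obtain ⟨rfl, hyU⟩ := tut_far_eq q
    refine hy (mem_filter.2 ⟨hyU, q ▸ (hv _).2 hn, ?_⟩)
    rw [← hxc, h1]
    congr 1
    exact Subtype.ext q.symm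
  let O := G'.oddComponents.toFinset
  let S := U.filter fun x => ((Sum.inl x, false) : (V ⊕ E) × Bool) ∈ u
  let T := univ.filter fun e : E => ((Sum.inr e, false) : (V ⊕ E) × Bool) ∈ u
  have hA : (O.filter fun c => ¬ Inn c).card ≤ 1 := by
    refine card_le_one.2 fun c hc c' hc' => ?_
    have h1 := (mem_filter.1 hc).2
    have h2 := (mem_filter.1 hc').2
    simp only [Inn, not_forall] at h1 h2
    obtain ⟨w, hw, rfl, h1⟩ := h1
    obtain ⟨w', hw', rfl, h2⟩ := h2
    by_cases q : w = w'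
    · subst q; rfl
    · exact hadj _ _ _ _ ⟨q, Or.inl ⟨h1, h2⟩⟩
  have hB : ((O.filter Inn).filter fun c => ∃ e, Ex c e).card ≤ T.card := by
    refine card_le_card_of_forall_subsingleton Ex (fun c hc => ?_) fun e _ c hc c' hc' => ?_
    · obtain ⟨h1, e, he, h2⟩ := mem_filter.1 hc
      refine ⟨e, mem_filter.2 ⟨mem_univ _, ?_⟩, he, h2⟩
      rcases h2 with ⟨a, b⟩ | ⟨a, b⟩
      · rw [← tut_far_not e b]
        exact key c (mem_filter.1 h1).2 e he _ _ rfl a fun q => b (hKU _ _ q)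
      · rw [← tut_far_not e b]
        exact key c (mem_filter.1 h1).2 e he _ _ Sym2.eq_swap a fun q => b (hKU _ _ q)
    · rcases hc.2.2 with ⟨a, b⟩ | ⟨a, b⟩ <;> rcases hc'.2.2 with ⟨a', b'⟩ | ⟨a', b'⟩
      · exact hKK _ _ _ a a'
      · exact absurd (hKU _ _ a) b'
      · exact absurd (hKU _ _ a) b'
      · exact hKK _ _ _ a a'
  have hodd : ∀ c ∈ O.filter Inn, Odd (K c).card := fun c hc => by
    rw [hK c (mem_filter.1 hc).2]; simpa [O] using (mem_filter.1 hc).1
  have hC : ((O.filter Inn).filter fun c => ¬ ∃ e, Ex c e).card ≤ S.card := by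
    rw [← card_image_of_injOn (f := K) fun c hc c' _ q => by
      obtain ⟨x, hx⟩ := card_pos.1 (hodd c (mem_filter.1 (mem_coe.1 hc)).1).pos
      exact hKK _ _ x hx (q ▸ hx)]
    refine H S _ (filter_subset _ _) (fun X hX Y hY hne => ?_) fun X hX => ?_
    · obtain ⟨c, _, rfl⟩ := mem_image.1 hX
      obtain ⟨c', _, rfl⟩ := mem_image.1 hY
      exact disjoint_left.2 fun x a b => hne (by rw [hKK _ _ x a b])
    · obtain ⟨c, hc, rfl⟩ := mem_image.1 hX
      obtain ⟨h1, h2⟩ := mem_filter.1 hc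
      refine ⟨fun x hx => mem_sdiff.2 ⟨hKU _ _ hx, fun q => ?_⟩, hodd c h1, fun e he => ?_⟩
      · obtain ⟨hx', _⟩ := (mem_filter.1 hx).2
        exact (hv _).1 hx' (mem_filter.1 q).2
      · obtain ⟨h3, h4⟩ := mem_inter.1 he
        rw [mem_cut] at h3
        by_cases a : s e ∈ K c
        · have b : t e ∉ K c := fun b => h3 (iff_of_true a b)
          have q := key c (mem_filter.1 h1).2 e h4 _ _ rfl a b
          have q' : t e ∈ U := by_contra fun z => h2 ⟨e, h4, Or.inl ⟨a, z⟩⟩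
          exact Or.inr (mem_filter.2 ⟨q', tut_far_mem e q' ▸ q⟩)
        · have b : t e ∈ K c := by_contra fun b => h3 (iff_of_false a b)
          have q := key c (mem_filter.1 h1).2 e h4 _ _ Sym2.eq_swap b a
          have q' : s e ∈ U := by_contra fun z => h2 ⟨e, h4, Or.inr ⟨b, z⟩⟩
          exact Or.inl (mem_filter.2 ⟨q', tut_far_mem e q' ▸ q⟩)
  have hST : S.card + T.card ≤ u.ncard := by
    rw [← card_disjSum, Set.ncard_eq_toFinset_card' u]
    refine card_le_card_of_injOn (fun z => (z, false)) ?_ fun a _ b _ q => (Prod.ext_iff.1 q).1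
    rintro (x | e) hz
    · simpa using (mem_filter.1 (inl_mem_disjSum.1 (mem_coe.1 hz))).2
    · simpa using (mem_filter.1 (inr_mem_disjSum.1 (mem_coe.1 hz))).2
  have h1 := card_filter_add_card_filter_not (s := O) Inn
  have h2 := card_filter_add_card_filter_not (s := O.filter Inn) fun c => ∃ e, Ex c e
  have h3 : O.card = G'.oddComponents.ncard := (Set.ncard_eq_toFinset_card' _).symm
  have h4 := G'.odd_ncard_oddComponents
  have h5 : ((⊤ : (tut_G s t U F).Subgraph).deleteVerts u).verts.ncard = uᶜ.ncard :=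
    congrArg _ (Set.ext hv)
  have h6 := Set.ncard_add_ncard_compl u
  rw [Nat.card_coe_set_eq, h5, Nat.odd_iff, Nat.odd_iff] at h4
  rw [Nat.card_prod, Nat.card_eq_fintype_card (α := Bool), Fintype.card_bool] at h6
  omega

end

theorem p_TUT :
    S_TUT := by
  intro V E _ _ _ _ s t U F H
  classical
  obtain ⟨M, hM⟩ := tut_pm s t U F H
  rw [SimpleGraph.Subgraph.isPerfectMatching_iff] at hM
  choose σ hσ hu using hM
  have hσσ : ∀ w, σ (σ w) = w := fun w => (hu _ _ (hσ w).symm).symm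
  let z : E → Sym2 ((V ⊕ E) × Bool) := fun e => s(tut_far U e (s e), tut_far U e (t e))
  let n := Fintype.equivFin E
  refine ⟨F.filter fun e => σ (tut_far U e (s e)) = tut_far U e (t e) ∧
    ∀ e' ∈ F, z e' = z e → n e ≤ n e', filter_subset _ _, fun v hv => ?_⟩
  obtain ⟨hne, h⟩ := (hσ (Sum.inl v, false)).adj_sub
  obtain ⟨e₁, he₁, q₁⟩ := h.resolve_left fun q => q.1 ⟨v, hv, rfl⟩
  obtain ⟨e₀, h0, hmin⟩ := exists_min_image
    (F.filter fun e => z e = s((Sum.inl v, false), σ (Sum.inl v, false))) n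
    ⟨e₁, mem_filter.2 ⟨he₁, q₁⟩⟩
  obtain ⟨h0, q0⟩ := mem_filter.1 h0
  have hm : ∀ e' ∈ F, z e' = z e₀ → n e₀ ≤ n e' := fun e' he' q =>
    hmin e' (mem_filter.2 ⟨he', q.trans q0⟩)
  have q0' := Sym2.eq_iff.1 q0
  rw [deg_congr (G := {e₀}) fun e he => ?_, deg_singleton]
  · rcases q0' with ⟨a, b⟩ | ⟨a, b⟩
    · have c : t e₀ ≠ v := fun c => hne (by rw [← b, c, tut_far_mem _ hv])
      simp [(tut_far_eq a).1, c]
    · have c : s e₀ ≠ v := fun c => hne (by rw [← a, c, tut_far_mem _ hv])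
      simp [(tut_far_eq b).1, c]
  · rw [mem_singleton, mem_filter]
    refine ⟨fun ⟨h1, h2, h3⟩ => ?_, fun q => q ▸ ⟨h0, ?_, hm⟩⟩
    · have : z e = z e₀ := by
        rw [q0]
        rcases he with a | a
        · simp only [z]; rw [← h2, a, tut_far_mem _ hv]
        · have := hσσ (tut_far U e (s e))
          simp only [z]; rw [← this, h2, a, tut_far_mem _ hv, Sym2.eq_swap]
      exact n.injective (le_antisymm (h3 _ h0 this.symm) (hm _ h1 this))
    · rcases q0' with ⟨a, b⟩ | ⟨a, b⟩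
      · rw [a, b]
      · rw [a, b, hσσ]

end Pool.Agent.P.MP_40718a_co.Bc

end

section
/-! Step TUT2. -/

set_option linter.unusedSectionVars false

namespace Pool.Agent.P.MP_40718a_co.Bc

open Finset ABF

theorem p_TUT2 (hTUT : S_TUT) :
    S_TUT2 := by
  intro V E _ _ _ _ s t U W D hW hD hT
  have hDW : ∀ e ∈ D, s e ∈ W ∧ t e ∈ W := by
    intro e he
    constructor
    · by_contra h
      exact ((deg_eq_zero.1 (hD _ h)) e he).1 rfl
    · by_contra h
      exact ((deg_eq_zero.1 (hD _ h)) e he).2 rfl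
  obtain ⟨L, hLF, hL⟩ := hTUT V E s t (U \ W) (univ.filter fun e => s e ∉ W ∧ t e ∉ W) (by
    intro S O hS hO hX
    refine hT S O hS hO fun X hXO => ?_
    obtain ⟨h1, h2, h3⟩ := hX X hXO
    refine ⟨fun v hv => (mem_sdiff.1 (mem_sdiff.1 (h1 hv)).1).1, h2, ?_, fun e he => ?_⟩
    · rw [disjoint_left]
      intro v hv hv'
      have h4 := mem_sdiff.1 (h1 hv)
      rcases mem_union.1 hv' with h | h
      · exact h4.2 h
      · exact (mem_sdiff.1 h4.1).2 h
    · by_cases hs : s e ∈ W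
      · exact Or.inl (mem_union_right _ hs)
      by_cases ht : t e ∈ W
      · exact Or.inr (mem_union_right _ ht)
      rcases h3 e (mem_inter.2 ⟨he, mem_filter.2 ⟨mem_univ _, hs, ht⟩⟩) with h | h
      · exact Or.inl (mem_union_left _ h)
      · exact Or.inr (mem_union_left _ h))
  have hLW : ∀ e ∈ L, s e ∉ W ∧ t e ∉ W := fun e he => (mem_filter.1 (hLF he)).2
  have hdis : Disjoint L D := by
    rw [disjoint_left]
    intro e he he'
    exact (hLW e he).1 (hDW e he').1
  refine ⟨L ∪ D, subset_union_right, fun v hv => ?_⟩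
  rw [deg_union hdis]
  by_cases hvW : v ∈ W
  · have h0 : deg s t L v = 0 := deg_eq_zero.2 fun e he =>
      ⟨fun h => (hLW e he).1 (h ▸ hvW), fun h => (hLW e he).2 (h ▸ hvW)⟩
    rw [h0, hW v hvW]
  · rw [hL v (mem_sdiff.2 ⟨hv, hvW⟩), hD v hvW]

end Pool.Agent.P.MP_40718a_co.Bc

end

section
/-! Step FIN. -/

set_option linter.unusedSectionVars false

namespace Pool.Agent.P.MP_40718a_co.Bc

open Finset ABF

theorem p_FIN (hTUT2 : S_TUT2) :
    S_FIN := by
  intro V E _ _ _ _ s t y Q D hl hQ h0 hv hodd hD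
  have mem1 : ∀ e v, (s e = v ∨ t e = v) → e ∈ cut s t {v} := by
    intro e v h
    have := hl e
    rw [mem_cut, mem_singleton, mem_singleton]
    rcases h with rfl | rfl
    · simp [this.symm]
    · simp [this]
  have A : ∀ c ∈ D, ∀ e v, (s c = v ∨ t c = v) → (s e = v ∨ t e = v) → e ≠ c → y e = 0 := by
    intro c hc e v h1 h2 hne
    have h3 : ({e, c} : Finset E) ⊆ cut s t {v} := by
      intro x hx
      rcases mem_insert.1 hx with rfl | hx
      · exact mem1 _ _ h2
      · rw [mem_singleton.1 hx]; exact mem1 _ _ h1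
    have h4 := sum_le_sum_of_subset_of_nonneg (f := y) h3 fun e _ _ => h0 e
    rw [sum_pair hne, ← vs_eq_cut hl, hv, hD c hc] at h4
    have := h0 e
    omega
  have B : IsMatch s t D := by
    refine isMatch_iff.2 ⟨fun e _ => hl e, fun e he f hf v h1 h2 => ?_⟩
    by_contra hne
    have := A f hf e v h2 h1 hne
    rw [hD e he] at this
    omega
  have C : ∀ c ∈ D, ∀ v, (s c = v ∨ t c = v) → deg s t D v = 1 := by
    intro c hc v h
    have h1 := B v
    have h2 : deg s t D v ≠ 0 := fun h2 => by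
      have := deg_eq_zero.1 h2 c hc
      tauto
    omega
  refine (hTUT2 V E s t univ (univ.filter fun v => deg s t D v = 1) D
    (fun v h => (mem_filter.1 h).2)
    (fun v h => by
      have h1 := B v
      have h2 : deg s t D v ≠ 1 := by simpa using h
      omega) ?_).imp fun L h => ⟨fun v => h.2 v (mem_univ v), h.1⟩
  intro S O _ hO hX
  have dS : ∀ X ∈ O, ∀ v ∈ X, v ∉ S ∧ deg s t D v ≠ 1 := by
    intro X h v hv
    have := disjoint_left.1 (hX X h).2.2.1 hv
    simpa using this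
  have k1 : ∀ X ∈ O, Q ≤ ∑ e ∈ cut s t X ∩ cut s t S, y e := by
    intro X h
    refine (hodd X (hX X h).2.1).trans (le_of_eq ?_)
    refine (sum_subset inter_subset_left fun e he hn => ?_).symm
    have hn' : e ∉ cut s t S := fun h => hn (mem_inter.2 ⟨he, h⟩)
    have e1 := (hX X h).2.2.2 e he
    have e2 := dS X h (s e)
    have e3 := dS X h (t e)
    have e4 : e ∉ D := fun hc => by
      have e5 := C e hc _ (Or.inl rfl)
      have e6 := C e hc _ (Or.inr rfl)
      rw [mem_cut] at he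
      tauto
    have e5 : ∃ v, (s e = v ∨ t e = v) ∧ deg s t D v = 1 := by
      simp only [mem_union, mem_filter, mem_univ, true_and] at e1
      rw [mem_cut] at he hn'
      by_cases a1 : deg s t D (s e) = 1
      · exact ⟨_, Or.inl rfl, a1⟩
      · exact ⟨_, Or.inr rfl, by tauto⟩
    obtain ⟨v, a1, a2⟩ := e5
    obtain ⟨c, hc, a3⟩ := exists_edge a2
    exact A c hc e v a3 a1 fun h => e4 (h ▸ hc)
  have k2 : (O : Set (Finset V)).PairwiseDisjoint fun X => cut s t X ∩ cut s t S := by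
    intro X h Y h' hne
    refine disjoint_left.2 fun e a b => ?_
    have e0 : ∀ Z ∈ O, e ∈ cut s t Z → (s e ∈ S → t e ∈ Z) ∧ (t e ∈ S → s e ∈ Z) := by
      intro Z hZ he
      have e1 : s e ∈ Z → s e ∉ S := fun x => (dS Z hZ _ x).1
      have e2 : t e ∈ Z → t e ∉ S := fun x => (dS Z hZ _ x).1
      rw [mem_cut] at he
      tauto
    have e1 := e0 X h (mem_inter.1 a).1
    have e2 := e0 Y h' (mem_inter.1 b).1
    have e3 := disjoint_left.1 (hO X h Y h' hne)
    have e4 : s e ∈ S ∨ t e ∈ S := by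
      have := mem_cut.1 (mem_inter.1 a).2
      tauto
    exact e4.elim (fun x => e3 (e1.1 x) (e2.1 x)) fun x => e3 (e1.2 x) (e2.2 x)
  have k3 : ∑ X ∈ O, ∑ e ∈ cut s t X ∩ cut s t S, y e ≤ ∑ e ∈ cut s t S, y e := by
    rw [← sum_biUnion k2]
    refine sum_le_sum_of_subset_of_nonneg ?_ fun e _ _ => h0 e
    exact biUnion_subset.2 fun X _ => inter_subset_right
  have k4 := sum_vs (s := s) (t := t) y S
  have k5 : 0 ≤ ∑ e ∈ ins s t S, y e := sum_nonneg fun e _ => h0 e
  have k6 := sum_le_sum k1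
  simp only [hv, sum_const, nsmul_eq_mul] at k4 k6
  have k7 : (O.card : ℤ) * Q ≤ S.card * Q := by omega
  exact_mod_cast le_of_mul_le_mul_right k7 hQ

end Pool.Agent.P.MP_40718a_co.Bc

end

section
/-! Step RAT0. -/

set_option linter.unusedSectionVars false

namespace Pool.Agent.P.MP_40718a_co.Bc

open Finset ABF

section aux

variable {X : Type} [Fintype X] [DecidableEq X]

theorem rat0_lin : ∃ f : ℝ →ₗ[ℚ] ℚ, ∀ r : ℚ, f r = r := by
  obtain ⟨f, hf⟩ := LinearMap.exists_leftInverse_of_injective (Algebra.linearMap ℚ ℝ)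
    (LinearMap.ker_eq_bot.2 (algebraMap ℚ ℝ).injective)
  exact ⟨f, fun r => LinearMap.congr_fun hf r⟩

theorem rat0_rat (G : Finset X) (n : ℕ) : ∀ μ : Finset X → ℝ,
    (univ.filter fun B => μ B ≠ 0).card = n → (∀ B, 0 ≤ μ B) → ∑ B, μ B = 1 →
    (∀ x ∈ G, (∑ B, if x ∈ B then μ B else 0) = 1 / 3) →
    ∃ ν : Finset X → ℚ, (∀ B, 0 ≤ ν B) ∧ (∀ B, μ B = 0 → ν B = 0) ∧ ∑ B, ν B = 1 ∧
      ∀ x ∈ G, (∑ B, if x ∈ B then ν B else 0) = 1 / 3 := by
  induction n using Nat.strong_induction_on with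
  | _ n ih =>
  intro μ hn h0 h1 h3
  obtain ⟨f, hf⟩ := rat0_lin
  have a0 : ∀ B, μ B = 0 → f (μ B) = 0 := fun B h => by rw [h, map_zero]
  have a1 : ∑ B, f (μ B) = 1 := by
    rw [← map_sum, h1]; simpa using hf 1
  have a3 : ∀ x ∈ G, (∑ B, if x ∈ B then f (μ B) else 0) = 1 / 3 := fun x hx => by
    have := congrArg f (h3 x hx)
    rw [map_sum, show (1 / 3 : ℝ) = ((1 / 3 : ℚ) : ℝ) by norm_num, hf] at this
    rw [← this]
    exact sum_congr rfl fun B _ => by split_ifs <;> simp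
  set d : Finset X → ℝ := fun B => μ B - f (μ B) with hd
  have d1 : ∑ B, d B = 0 := by
    rw [hd, sum_sub_distrib, h1, ← Rat.cast_sum, a1]; simp
  have d3 : ∀ x ∈ G, (∑ B, if x ∈ B then d B else 0) = 0 := fun x hx => by
    have e : (∑ B, if x ∈ B then (f (μ B) : ℝ) else 0) = 1 / 3 := by
      have := congrArg (Rat.cast : ℚ → ℝ) (a3 x hx)
      rw [Rat.cast_sum, show ((1 / 3 : ℚ) : ℝ) = 1 / 3 by norm_num] at this
      rw [← this]
      exact sum_congr rfl fun B _ => by split_ifs <;> simp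
    refine Eq.trans ?_ (sub_eq_zero.2 ((h3 x hx).trans e.symm))
    rw [← sum_sub_distrib]
    exact sum_congr rfl fun B _ => by split_ifs <;> simp [hd]
  have d0 : ∀ B, μ B = 0 → d B = 0 := fun B h => by simp [hd, h]
  by_cases hp : (univ.filter fun B => 0 < d B).Nonempty
  · obtain ⟨C, hC, hm⟩ := exists_min_image _ (fun B => μ B / d B) hp
    have hC : 0 < d C := (mem_filter.1 hC).2
    have ht : 0 ≤ μ C / d C := div_nonneg (h0 C) hC.le
    have z : ∀ B, μ B = 0 → μ B - μ C / d C * d B = 0 := fun B h => by rw [d0 B h, h]; ring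
    refine (ih _ ?_ (fun B => μ B - μ C / d C * d B) rfl ?_ ?_ ?_).imp
      fun ν hν => ⟨hν.1, fun B h => hν.2.1 B (z B h), hν.2.2⟩
    · rw [← hn]
      refine card_lt_card ⟨fun B hB => ?_, fun h => ?_⟩
      · exact mem_filter.2 ⟨mem_univ _, fun h => (mem_filter.1 hB).2 (z B h)⟩
      · refine (mem_filter.1 (h (mem_filter.2 ⟨mem_univ C, fun e => hC.ne' (d0 C e)⟩))).2 ?_
        rw [div_mul_cancel₀ _ hC.ne', sub_self]
    · intro B
      rcases lt_or_ge 0 (d B) with h | h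
      · exact sub_nonneg.2 ((le_div_iff₀ h).1 (hm B (mem_filter.2 ⟨mem_univ _, h⟩)))
      · exact sub_nonneg.2 ((mul_nonpos_of_nonneg_of_nonpos ht h).trans (h0 B))
    · rw [sum_sub_distrib, ← mul_sum, d1, h1]; simp
    · intro x hx
      refine Eq.trans (b := (∑ B, if x ∈ B then μ B else 0) -
        μ C / d C * ∑ B, if x ∈ B then d B else 0) ?_ (by rw [d3 x hx, h3 x hx]; simp)
      rw [mul_sum, ← sum_sub_distrib]
      exact sum_congr rfl fun B _ => by split_ifs <;> simp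
  · have hle : ∀ B ∈ (univ : Finset (Finset X)), d B ≤ 0 := fun B _ =>
      not_lt.1 fun h => hp ⟨B, mem_filter.2 ⟨mem_univ _, h⟩⟩
    refine ⟨fun B => f (μ B), fun B => ?_, a0, a1, a3⟩
    have := sub_eq_zero.1 ((sum_eq_zero_iff_of_nonpos hle).1 d1 B (mem_univ _))
    exact_mod_cast this ▸ h0 B

end aux

theorem p_RAT0 :
    S_RAT0 := by
  intro X _ _ G μ hμ h3
  obtain ⟨ν, n0, n1, n2, n3⟩ := rat0_rat G _ μ rfl hμ.1 hμ.2 fun x hx => by
    rw [← pr_eq, h3 x hx]
  have hq : 0 < ∏ B, (ν B).den := prod_pos fun B _ => (ν B).den_pos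
  have hn : ∀ B, ∃ n : ℕ, (n : ℚ) = 3 * (∏ B, (ν B).den : ℕ) * ν B := fun B => by
    obtain ⟨k, hk⟩ := dvd_prod_of_mem (fun B => (ν B).den) (mem_univ B)
    refine ⟨3 * k * (ν B).num.toNat, ?_⟩
    have e : ((ν B).num.toNat : ℚ) = (ν B).den * ν B := by
      rw [Rat.den_mul_eq_num, ← Int.cast_natCast, Int.toNat_of_nonneg (Rat.num_nonneg.2 (n0 B))]
    rw [hk]
    push_cast
    rw [e]
    ring
  generalize ∏ B, (ν B).den = q at hq hn
  choose n hn using hn
  have hs : ∑ B, n B = 3 * q := by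
    have : ((∑ B, n B : ℕ) : ℚ) = (3 * q : ℕ) := by
      push_cast
      simp only [hn, ← mul_sum, n2, mul_one]
    exact_mod_cast this
  let e : Fin (3 * q) ≃ Σ B, Fin (n B) := (Fintype.equivFinOfCardEq (by simp [hs])).symm
  refine ⟨q, hq, fun i => (e i).1, fun i h => ?_, fun x hx => ?_⟩
  · have h1 := hn (e i).1
    rw [n1 _ h, mul_zero, Nat.cast_eq_zero] at h1
    exact absurd (e i).2.2 (by omega)
  · rw [cnt_equiv e fun p => x ∈ p.1, cnt_eq, card_filter, Fintype.sum_sigma]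
    have : ((∑ B, ∑ _j : Fin (n B), if x ∈ B then 1 else 0 : ℕ) : ℚ) = q := by
      rw [← mul_one (q : ℚ), show (1 : ℚ) = 3 * (1 / 3) by norm_num, ← n3 x hx, ← mul_assoc,
        mul_sum, Nat.cast_sum]
      refine sum_congr rfl fun B _ => ?_
      split_ifs
      · rw [mul_comm (q : ℚ), ← hn]; simp
      · simp
    exact_mod_cast this

end Pool.Agent.P.MP_40718a_co.Bc

end

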