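import Pool.Agent.P.MP_40718a_co.ABF.PL

/-! Bounded covers by perfect matchings: definitions and basic facts. -/

set_option linter.unusedSectionVars false

namespace Pool.Agent.P.MP_40718a_co.Bc

open Finset ABF

section Defs

variable {V E : Type} [Fintype V] [Fintype E] [DecidableEq V] [DecidableEq E]

/-- the neighbours of `v` -/
def nbr (s t : E → V) (v : V) : Finset V :=
  univ.filter fun w => ∃ e, (s e = v ∧ t e = w) ∨ (t e = v ∧ s e = w)

/-- the vertices within distance `r` of `S` -/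
def ball (s t : E → V) (S : Finset V) (r : ℕ) : Finset V := plBall (nbr s t) S r

/-- the two ends of an edge -/
def ends (s t : E → V) (c : E) : Finset V := {s c, t c}

/-- the sum of `h` over the edges at `v` -/
def vs (s t : E → V) (h : E → ℤ) (v : V) : ℤ :=
  ∑ e, ((if s e = v then h e else 0) + (if t e = v then h e else 0))

/-- indicator function -/
def ind (M : Finset E) (e : E) : ℤ := if e ∈ M then 1 else 0

/-- a charge `α` at the point `a` -/
def pt (a : V) (α : ℤ) (v : V) : ℤ := if a = v then α else 0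

/-- a sign -/
def Sgn (α : ℤ) : Prop := α = 1 ∨ α = -1

/-- perfect matching -/
def PM (s t : E → V) (M : Finset E) : Prop := ∀ v, deg s t M v = 1

/-- every cut with at most `a` edges has a side with at most `b` vertices -/
def Small (s t : E → V) (a b : ℕ) : Prop :=
  ∀ X : Finset V, (cut s t X).card ≤ a → X.card ≤ b ∨ Xᶜ.card ≤ b

/-- every set between `I` and `Ω` sends fewer edges to `I` than elsewhere -/
def Exp (s t : E → V) (I Ω : Finset V) : Prop :=
  ∀ Y ⊆ Ω \ I, Y.Nonempty → (cut s t Y ∩ cut s t I).card < (cut s t Y \ cut s t I).card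

/-- every vertex is within distance `ρ` of `Z` -/
def Near (s t : E → V) (Z : Finset V) (ρ : ℕ) : Prop := ∀ v, ∃ z ∈ Z, z ∈ ball s t {v} ρ

/-- the vertices of `Z` are joined by edges of `A` -/
def Lk (s t : E → V) (A : Finset E) (Z : Finset V) : Prop :=
  ∀ z ∈ Z, ∀ z' ∈ Z, Link s t A z z'

/-- pairwise disjoint family -/
def Dj (O : Finset (Finset V)) : Prop := ∀ X ∈ O, ∀ Y ∈ O, X ≠ Y → Disjoint X Y

/-- `X` avoids `T` and all edges leaving `X` go to `T` -/
def Onto (s t : E → V) (X T : Finset V) : Prop :=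
  Disjoint X T ∧ ∀ e ∈ cut s t X, s e ∈ T ∨ t e ∈ T

/-- the copy number `j` of the vertex `x`; only the vertices of `I` are copied -/
def lf {k : ℕ} [NeZero k] (I : Finset V) (x : V) (j : Fin k) : V × Fin k :=
  (x, if x ∈ I then j else 0)

/-- the ends of the edges of the copy graph -/
def ls {k : ℕ} [NeZero k] (s : E → V) (I : Finset V) (e : E × Fin k) : V × Fin k :=
  lf I (s e.1) e.2

/-- the edges with a copy number `j` in `N` -/
def sheet {k : ℕ} (N : Finset (E × Fin k)) (j : Fin k) : Finset E :=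
  univ.filter fun e => (e, j) ∈ N

/-- the isoperimetric hypothesis -/
def Beta (s t : E → V) (β : ℕ → ℕ) (κ : ℕ) : Prop :=
  ∀ X : Finset V, (cut s t X).card < κ →
    X.card ≤ β (cut s t X).card ∨ Xᶜ.card ≤ β (cut s t X).card

/-- `K` perfect matchings cover all edges -/
def Cov (s t : E → V) (K : ℕ) : Prop :=
  ∃ M : Fin K → Finset E, (∀ i, PM s t (M i)) ∧ ∀ e, ∃ i, e ∈ M i

variable {s t : E → V} {S S' X : Finset V} {r r' : ℕ}

theorem mem_nbr {v w : V} :
    w ∈ nbr s t v ↔ ∃ e, (s e = v ∧ t e = w) ∨ (t e = v ∧ s e = w) := by simp [nbr]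

theorem nbr_symm (a b : V) (h : b ∈ nbr s t a) : a ∈ nbr s t b := by
  rw [mem_nbr] at h ⊢
  obtain ⟨e, h⟩ := h
  exact ⟨e, by tauto⟩

@[simp] theorem ball_zero : ball s t S 0 = S := rfl

theorem mem_ball_succ {v : V} : v ∈ ball s t S (r + 1) ↔ v ∈ ball s t S r ∨
    ∃ e, (s e = v ∧ t e ∈ ball s t S r) ∨ (t e = v ∧ s e ∈ ball s t S r) := by
  unfold ball
  rw [plBall_succ]
  refine or_congr_right ⟨?_, ?_⟩
  · rintro ⟨b, hb, h⟩
    obtain ⟨e, ⟨rfl, rfl⟩ | ⟨rfl, rfl⟩⟩ := mem_nbr.1 h
    · exact ⟨e, Or.inr ⟨rfl, hb⟩⟩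
    · exact ⟨e, Or.inl ⟨rfl, hb⟩⟩
  · rintro ⟨e, ⟨rfl, h⟩ | ⟨rfl, h⟩⟩
    · exact ⟨_, h, mem_nbr.2 ⟨e, Or.inr ⟨rfl, rfl⟩⟩⟩
    · exact ⟨_, h, mem_nbr.2 ⟨e, Or.inl ⟨rfl, rfl⟩⟩⟩

theorem ball_mono_r (h : r ≤ r') : ball s t S r ⊆ ball s t S r' := plBall_mono_k h

theorem subset_ball (r : ℕ) : S ⊆ ball s t S r := plBall_self r

theorem ball_mono (h : S ⊆ S') (r : ℕ) : ball s t S r ⊆ ball s t S' r :=
  plBall_mono (fun _ => Subset.refl _) h r

theorem ball_add (r r' : ℕ) : ball s t (ball s t S r) r' = ball s t S (r + r') := plBall_add r r'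

/-- triangle inequality -/
theorem ball_trans {x y : V} (hx : x ∈ ball s t S r) (hy : y ∈ ball s t {x} r') :
    y ∈ ball s t S (r + r') := by
  rw [← ball_add]; exact ball_mono (singleton_subset_iff.2 hx) _ hy

theorem ball_symm {x y : V} (h : y ∈ ball s t {x} r) : x ∈ ball s t {y} r :=
  plBall_symm nbr_symm r x y h

theorem ball_step_t {e : E} (h : s e ∈ ball s t S r) : t e ∈ ball s t S (r + 1) :=
  mem_ball_succ.2 (Or.inr ⟨e, Or.inr ⟨rfl, h⟩⟩)

theorem ball_step_s {e : E} (h : t e ∈ ball s t S r) : s e ∈ ball s t S (r + 1) :=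
  mem_ball_succ.2 (Or.inr ⟨e, Or.inl ⟨rfl, h⟩⟩)

theorem mem_ball_iff {v : V} : v ∈ ball s t S r ↔ ∃ x ∈ S, v ∈ ball s t {x} r := by
  refine ⟨?_, fun ⟨x, hx, h⟩ => ball_mono (singleton_subset_iff.2 hx) _ h⟩
  induction r generalizing v with
  | zero => exact fun h => ⟨v, h, mem_singleton_self v⟩
  | succ r ih =>
    intro h0
    rcases mem_ball_succ.1 h0 with h | ⟨e, ⟨rfl, h⟩ | ⟨rfl, h⟩⟩
    · obtain ⟨x, hx, h⟩ := ih h
      exact ⟨x, hx, ball_mono_r (Nat.le_succ r) h⟩
    · obtain ⟨x, hx, h⟩ := ih h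
      exact ⟨x, hx, ball_step_s h⟩
    · obtain ⟨x, hx, h⟩ := ih h
      exact ⟨x, hx, ball_step_t h⟩

theorem nbr_card (h : Cubic s t) (v : V) : (nbr s t v).card ≤ 3 := by
  rw [← h.card_cut_singleton v]
  have : nbr s t v ⊆ (cut s t {v}).image fun e => if s e = v then t e else s e := by
    intro w hw
    obtain ⟨e, he⟩ := mem_nbr.1 hw
    have h1 := h.1 e
    refine mem_image.2 ⟨e, ?_, ?_⟩
    · rw [mem_cut, mem_singleton, mem_singleton]
      rcases he with ⟨rfl, rfl⟩ | ⟨rfl, rfl⟩
      · simp [h1.symm]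
      · simp [h1]
    · rcases he with ⟨rfl, rfl⟩ | ⟨rfl, rfl⟩
      · simp
      · simp [h1]
  exact (card_le_card this).trans card_image_le

theorem ball_card (h : Cubic s t) (S : Finset V) (r : ℕ) :
    (ball s t S r).card ≤ S.card * 4 ^ r := plBall_card (nbr_card h) r

theorem ends_card (c : E) : (ends s t c).card ≤ 2 := card_le_two

theorem s_mem_ends (c : E) : s c ∈ ends s t c := by simp [ends]

theorem t_mem_ends (c : E) : t c ∈ ends s t c := by simp [ends]

theorem mem_ends {c : E} {v : V} : v ∈ ends s t c ↔ v = s c ∨ v = t c := by simp [ends]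

/-- some sphere of radius at most `|R|` misses `R` -/
theorem exists_sphere (R S : Finset V) :
    ∃ r ≤ R.card, R ∩ ball s t S (r + 1) ⊆ ball s t S r := by
  by_contra hc
  push Not at hc
  have key : ∀ r ≤ R.card + 1, r ≤ (R ∩ ball s t S r).card := by
    intro r
    induction r with
    | zero => exact fun _ => Nat.zero_le _
    | succ r ih =>
      intro hr
      have h1 := ih (by omega)
      have h2 : R ∩ ball s t S r ⊂ R ∩ ball s t S (r + 1) :=
        ⟨inter_subset_inter_left (ball_mono_r (Nat.le_succ r)),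
          fun h => hc r (by omega) (h.trans inter_subset_right)⟩
      have := card_lt_card h2
      omega
  have h1 := key _ le_rfl
  have h2 : (R ∩ ball s t S (R.card + 1)).card ≤ R.card := card_le_card inter_subset_left
  omega

/-- cutting a set along an empty sphere creates no new cut edge -/
theorem cut_inter_ball {R : Finset V} (h : R ∩ ball s t S (r + 1) ⊆ ball s t S r) :
    cut s t (R ∩ ball s t S r) ⊆ cut s t R := by
  intro e he
  rw [mem_cut] at he ⊢
  simp only [mem_inter] at he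
  have h1 : s e ∈ R → t e ∈ ball s t S r → s e ∈ ball s t S r :=
    fun a b => h (mem_inter.2 ⟨a, ball_step_s b⟩)
  have h2 : t e ∈ R → s e ∈ ball s t S r → t e ∈ ball s t S r :=
    fun a b => h (mem_inter.2 ⟨a, ball_step_t b⟩)
  tauto

theorem cut_sdiff_subset {R R' : Finset V} (h : R' ⊆ R) (h' : cut s t R' ⊆ cut s t R) :
    cut s t (R \ R') ⊆ cut s t R := by
  intro e he
  have h1 := @h' e
  have h2 := @h (s e)
  have h3 := @h (t e)
  simp only [mem_cut, mem_sdiff] at he h1 ⊢
  tauto

/-- a ball that starts in `K` and leaves `K` contains an edge of the cut of `K` -/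
theorem exists_exit {K : Finset V} (hS : S ⊆ K) {z : V} (hz : z ∈ ball s t S r) (hK : z ∉ K) :
    ∃ e ∈ cut s t K, s e ∈ ball s t S r ∧ t e ∈ ball s t S r := by
  induction r generalizing z with
  | zero => exact absurd (hS hz) hK
  | succ r ih =>
    have up : ∀ z ∈ ball s t S r, z ∉ K →
        ∃ e ∈ cut s t K, s e ∈ ball s t S (r + 1) ∧ t e ∈ ball s t S (r + 1) := by
      intro z hz hK
      obtain ⟨e, he, h1, h2⟩ := ih hz hK
      exact ⟨e, he, ball_mono_r (Nat.le_succ r) h1, ball_mono_r (Nat.le_succ r) h2⟩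
    rcases mem_ball_succ.1 hz with h | ⟨e, ⟨rfl, h⟩ | ⟨rfl, h⟩⟩
    · exact up z h hK
    · by_cases h1 : t e ∈ K
      · exact ⟨e, mem_cut.2 (by tauto), hz, ball_mono_r (Nat.le_succ r) h⟩
      · exact up _ h h1
    · by_cases h1 : s e ∈ K
      · exact ⟨e, mem_cut.2 (by tauto), ball_mono_r (Nat.le_succ r) h, hz⟩
      · exact up _ h h1

theorem ins_cut_card (h : Cubic s t) (X : Finset V) :
    2 * (ins s t X).card + (cut s t X).card = 3 * X.card := by
  have := handshake (s := s) (t := t) univ X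
  simp only [h.2, sum_const, smul_eq_mul, univ_inter] at this
  omega

theorem cut_card_le (h : Cubic s t) (X : Finset V) : (cut s t X).card ≤ 3 * X.card := by
  have := ins_cut_card h X
  omega

/-- the number of edges that meet `X` -/
theorem meet_card_le (h : Cubic s t) (X : Finset V) :
    (univ.filter fun e => s e ∈ X ∨ t e ∈ X).card ≤ 3 * X.card := by
  have h1 := ins_cut_card h X
  have h2 : (univ.filter fun e => s e ∈ X ∨ t e ∈ X) ⊆ ins s t X ∪ cut s t X := by
    intro e he
    simp only [mem_filter, mem_univ, true_and, mem_union, mem_ins, mem_cut] at he ⊢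
    tauto
  have := (card_le_card h2).trans (card_union_le _ _)
  omega

theorem even_card (h : Cubic s t) : Even (Fintype.card V) := by
  simpa using h.cut_parity univ

theorem ec3_of_small (h : Cubic s t) (h3 : Small s t 3 1) : EC 3 s t := by
  intro X h1 h2
  by_contra hc
  rcases h3 X (by omega) with h4 | h4
  · obtain ⟨v, rfl⟩ := card_eq_one.1 (le_antisymm h4 (card_pos.2 h1))
    exact hc (h.card_cut_singleton v).ge
  · have h5 : Xᶜ.Nonempty := by
      rw [nonempty_iff_ne_empty]; intro h6; exact h2 (by simpa using h6)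
    obtain ⟨v, hv⟩ := card_eq_one.1 (le_antisymm h4 (card_pos.2 h5))
    rw [← cut_compl, hv] at hc
    exact hc (h.card_cut_singleton v).ge

theorem Small.mono {a a' b b' : ℕ} (h : Small s t a b) (ha : a' ≤ a) (hb : b ≤ b') :
    Small s t a' b' := fun X hX => (h X (hX.trans ha)).imp (·.trans hb) (·.trans hb)

theorem Exp.mono {I Ω Ω' : Finset V} (h : Exp s t I Ω) (h' : Ω' ⊆ Ω) : Exp s t I Ω' :=
  fun Y hY => h Y (hY.trans (sdiff_subset_sdiff h' (Subset.refl _)))

/-- an odd set on which `M` has all degrees one is left by an edge of `M` -/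
theorem odd_cut {M : Finset E} (hM : ∀ v ∈ X, deg s t M v = 1) (hX : Odd X.card) :
    Odd (M ∩ cut s t X).card := by
  have := parity_of_odd (s := s) (t := t) (M := M) (X := X)
    fun v hv => by rw [hM v hv]; exact odd_one
  rw [Nat.odd_iff] at hX ⊢
  rw [Nat.even_iff] at this
  omega

/-- a vertex of degree one meets an edge -/
theorem exists_edge {M : Finset E} {v : V} (h : deg s t M v = 1) :
    ∃ e ∈ M, s e = v ∨ t e = v := by
  by_contra hc
  push Not at hc
  rw [deg_eq_zero.2 hc] at h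
  omega

/-- a vertex of degree one meets only one edge -/
theorem edge_unique {M : Finset E} {v : V} (h : deg s t M v ≤ 1) {e f : E} (he : e ∈ M)
    (hf : f ∈ M) (h1 : s e = v ∨ t e = v) (h2 : s f = v ∨ t f = v) : e = f := by
  by_contra hne
  have hsub : ({e} ∪ {f} : Finset E) ⊆ M := by
    intro x hx; simp at hx; rcases hx with rfl | rfl <;> assumption
  have := (deg_mono hsub v).trans h
  rw [deg_union (by simpa using hne), deg_singleton, deg_singleton] at this
  rcases h1 with h1 | h1 <;> rcases h2 with h2 | h2 <;> simp [h1, h2] at this <;> omega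

theorem vs_add (g h : E → ℤ) (v : V) :
    vs s t (fun e => g e + h e) v = vs s t g v + vs s t h v := by
  unfold vs
  rw [← sum_add_distrib]
  refine sum_congr rfl fun e _ => ?_
  split_ifs <;> ring

theorem vs_mul (a : ℤ) (h : E → ℤ) (v : V) : vs s t (fun e => a * h e) v = a * vs s t h v := by
  unfold vs
  rw [mul_sum]
  refine sum_congr rfl fun e _ => ?_
  split_ifs <;> ring

theorem vs_neg (h : E → ℤ) (v : V) : vs s t (fun e => -h e) v = -vs s t h v := by
  simpa using vs_mul (s := s) (t := t) (-1) h v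

theorem vs_sub (g h : E → ℤ) (v : V) :
    vs s t (fun e => g e - h e) v = vs s t g v - vs s t h v := by
  simp only [sub_eq_add_neg, vs_add, vs_neg]

@[simp] theorem vs_zero (v : V) : vs s t (fun _ => 0) v = 0 := by simp [vs]

theorem vs_sum {ι : Type} (T : Finset ι) (h : ι → E → ℤ) (v : V) :
    vs s t (fun e => ∑ i ∈ T, h i e) v = ∑ i ∈ T, vs s t (h i) v := by
  unfold vs
  rw [sum_comm]
  refine sum_congr rfl fun e _ => ?_
  rw [sum_add_distrib]
  split_ifs <;> simp

theorem vs_ind (M : Finset E) (v : V) : vs s t (ind M) v = deg s t M v := by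
  unfold vs ind
  rw [deg_eq_sum]
  push_cast
  rw [← sum_filter_add_sum_filter_not univ (· ∈ M)]
  rw [filter_mem_eq_inter, univ_inter]
  rw [sum_eq_zero (s := univ.filter fun e => e ∉ M) fun e he => by
    simp [(mem_filter.1 he).2], add_zero]
  exact sum_congr rfl fun e he => by simp [he]

theorem vs_single (e : E) (v : V) : vs s t (ind {e}) v = pt (s e) 1 v + pt (t e) 1 v := by
  rw [vs_ind, deg_singleton]; simp [pt]

theorem vs_const (h : Cubic s t) (a : ℤ) (v : V) : vs s t (fun _ => a) v = 3 * a := by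
  have h1 := vs_mul (s := s) (t := t) a (ind univ) v
  rw [vs_ind, h.2 v] at h1
  simp only [ind, mem_univ, if_true, mul_one] at h1
  rw [h1]; push_cast; ring

theorem vs_congr {g h : E → ℤ} {v : V} (H : ∀ e, s e = v ∨ t e = v → g e = h e) :
    vs s t g v = vs s t h v := by
  unfold vs
  refine sum_congr rfl fun e _ => ?_
  by_cases h1 : s e = v <;> by_cases h2 : t e = v <;> simp [h1, h2, H e]

theorem vs_eq_cut (hl : ∀ e, s e ≠ t e) (h : E → ℤ) (v : V) :
    vs s t h v = ∑ e ∈ cut s t {v}, h e := by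
  unfold vs cut
  rw [sum_filter]
  refine sum_congr rfl fun e _ => ?_
  have := hl e
  by_cases h1 : s e = v <;> by_cases h2 : t e = v <;> simp [h1, h2]
  exact absurd (h1.trans h2.symm) this

/-- handshake for edge functions -/
theorem sum_vs (h : E → ℤ) (X : Finset V) :
    ∑ v ∈ X, vs s t h v = 2 * ∑ e ∈ ins s t X, h e + ∑ e ∈ cut s t X, h e := by
  unfold vs ins cut
  rw [sum_comm, sum_filter, sum_filter, mul_sum, ← sum_add_distrib]
  refine sum_congr rfl fun e _ => ?_
  rw [sum_add_distrib]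
  simp only [sum_ite_eq]
  by_cases h1 : s e ∈ X <;> by_cases h2 : t e ∈ X <;> simp [h1, h2]
  ring

theorem sum_ind (M F : Finset E) : ∑ e ∈ F, ind M e = (M ∩ F).card := by
  simp [ind, inter_comm]

theorem sum_ind_cnt {ι : Type} [Fintype ι] (M : ι → Finset E) (e : E) :
    ∑ i, ind (M i) e = cnt fun i => e ∈ M i := by
  rw [cnt_eq]; simp [ind]

theorem ind_nonneg (M : Finset E) (e : E) : 0 ≤ ind M e := by unfold ind; split_ifs <;> simp

theorem ind_le_one (M : Finset E) (e : E) : ind M e ≤ 1 := by unfold ind; split_ifs <;> simp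

theorem mem_sheet {k : ℕ} {N : Finset (E × Fin k)} {j : Fin k} {e : E} :
    e ∈ sheet N j ↔ (e, j) ∈ N := by simp [sheet]

end Defs

theorem Sgn.mul_self {α : ℤ} (h : Sgn α) : α * α = 1 := by rcases h with rfl | rfl <;> simp

theorem Sgn.mul {α β : ℤ} (h : Sgn α) (h' : Sgn β) : Sgn (α * β) := by
  rcases h with rfl | rfl <;> rcases h' with rfl | rfl <;> simp [Sgn]

theorem Sgn.neg {α : ℤ} (h : Sgn α) : Sgn (-α) := by rcases h with rfl | rfl <;> simp [Sgn]

theorem Sgn.abs {α : ℤ} (h : Sgn α) : |α| = 1 := by rcases h with rfl | rfl <;> simp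

end Pool.Agent.P.MP_40718a_co.Bc
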