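import Pool.Agent.P.MP_40718a_co.Bc.Base

/-! Bounded covers by perfect matchings: the statements of the parts. -/

namespace Pool.Agent.P.MP_40718a_co.Bc

open Finset ABF

section Defs

variable {V E : Type} [Fintype V] [Fintype E] [DecidableEq V] [DecidableEq E]

/-- `k` pieces around the edge `c`, relative to the perfect matching `M` -/
def Loc0 (s t : E → V) (k : ℕ) (c : E) (J : Finset V) (M : Finset E) (φ : Fin k → E → ℤ) :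
    Prop :=
  (∀ l e, s e ∉ J → t e ∉ J → φ l e = 0) ∧ (∀ l, ∀ v ∈ J, vs s t (φ l) v = 0) ∧
  (∀ l, ∑ f ∈ cut s t J, |φ l f| = 0 ∨ ∑ f ∈ cut s t J, |φ l f| = 2) ∧
  (∀ f ∈ cut s t J, ∑ l, |φ l f| ≤ 2) ∧ (∀ e, ∑ l, |φ l e| ≤ k) ∧
  ∑ l, φ l c = k - k * ind M c

/-- `k` sheets that are matchings on `I'` and share the vertices of `J \ I'` -/
def Sheets (s t : E → V) {k : ℕ} (I' J : Finset V) (N : Fin k → Finset E) : Prop :=
  (∀ j, ∀ x ∈ I', deg s t (N j) x = 1) ∧ ∀ x ∈ J \ I', ∑ j, deg s t (N j) x = 1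

/-- the pieces with the inequalities for every union of pieces -/
def Loc1 (s t : E → V) (k : ℕ) (c : E) (I J : Finset V) (M : Finset E) (φ : Fin k → E → ℤ) :
    Prop :=
  Loc0 s t k c J M φ ∧ ∀ Λ : Finset (Fin k),
    (∀ e, 0 ≤ k * ind M e + ∑ l ∈ Λ, φ l e) ∧
    (∀ e ∉ ins s t I, -ind M e ≤ ∑ l ∈ Λ, φ l e) ∧
    ∀ X ⊆ J, Odd X.card →
      ((cut s t X \ ins s t I).card ≤ 2 →
        (k : ℤ) ≤ ∑ e ∈ cut s t X, (k * ind M e + ∑ l ∈ Λ, φ l e)) ∧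
      ((cut s t X \ ins s t I).card ≤ 3 →
        (k : ℤ) + 2 * (M ∩ (cut s t X \ ins s t I)).card ≤
          ∑ e ∈ cut s t X, (k * ind M e + ∑ l ∈ Λ, φ l e) + 2)

/-- the local data at the edge `c` -/
def Loc (s t : E → V) (q k : ℕ) (c : E) (I J : Finset V) (φ : Fin (3 * q) × Fin k → E → ℤ) :
    Prop :=
  (∀ w e, s e ∉ J → t e ∉ J → φ w e = 0) ∧ (∀ w, ∀ v ∈ J, vs s t (φ w) v = 0) ∧
  (∀ w, ∑ f ∈ cut s t J, |φ w f| = 0 ∨ ∑ f ∈ cut s t J, |φ w f| = 2) ∧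
  (∀ f ∈ cut s t J, ∑ w, |φ w f| ≤ 6 * q) ∧ (∀ e, ∑ w, |φ w e| ≤ 3 * q * k) ∧
  ∑ w, φ w c = 2 * q * k ∧ ∀ Λ : Finset (Fin (3 * q) × Fin k),
    (∀ e, 0 ≤ q * k + ∑ w ∈ Λ, φ w e) ∧ (∀ e ∉ ins s t I, -(q : ℤ) ≤ ∑ w ∈ Λ, φ w e) ∧
    ∀ X ⊆ J, Odd X.card → (cut s t X \ ins s t I).card ≤ 3 →
      (3 * q * k : ℤ) ≤ ∑ e ∈ cut s t X, (q * k + ∑ w ∈ Λ, φ w e)

/-- the pieces `φ` are continued by `ψ` inside `Ω \ J` to two points of `Z` -/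
def Obj (s t : E → V) (q : ℕ) {W : Type} [Fintype W] (Ω J Z : Finset V) (φ ψ : W → E → ℤ) :
    Prop :=
  (∀ w, ∀ e ∉ ins s t (Ω \ J), ψ w e = 0) ∧ (∀ e, ∑ w, |ψ w e| ≤ 12 * q) ∧
  ∀ w, ∃ a ∈ Z, ∃ b ∈ Z, ∃ α β, Sgn α ∧ Sgn β ∧
    ∀ v, vs s t (fun e => φ w e + ψ w e) v = pt a α v + pt b β v

/-- the edge function attached to a class -/
def yv (q k m : ℕ) {W : Type} [Fintype W] (D : Finset E) (φ : E → W → E → ℤ)
    (ψ : E → Fin m → W → E → ℤ) (σ g : Fin m → W → E → ℤ) (e : E) : ℤ :=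
  q * k * m + ∑ i, ∑ w, (∑ c ∈ D, σ i w c * (φ c w e + ψ c i w e) + g i w e)

/-- all local data at the edge `c`, inside the region `Ω` -/
def Pre (s t : E → V) (q k a b n : ℕ) (c : E) (Ω I J : Finset V)
    (φ : Fin (3 * q) × Fin k → E → ℤ) : Prop :=
  Loc s t q k c I J φ ∧ s c ∈ J ∧ I ⊆ J ∧ ball s t I b ⊆ J ∧ J ⊆ ball s t (ends s t c) a ∧
    J.card ≤ n ∧ Exp s t I Ω ∧ Exp s t J Ω

end Defs

/-- `σ` is a signing of `D` with at most one exception -/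
def Sig {C : Type} (D : Finset C) (σ : C → ℤ) : Prop :=
  ∃ x : Finset C, x.card ≤ 1 ∧ (∀ c ∈ D, c ∉ x → Sgn (σ c)) ∧ ∀ c, c ∉ D ∨ c ∈ x → σ c = 0

/-! ### Matchings -/

-- deps:
def S_TUT : Prop :=
  ∀ (V E : Type) [Fintype V] [Fintype E] [DecidableEq V] [DecidableEq E] (s t : E → V)
    (U : Finset V) (F : Finset E),
    (∀ (S : Finset V) (O : Finset (Finset V)), S ⊆ U → Dj O →
      (∀ X ∈ O, X ⊆ U \ S ∧ Odd X.card ∧ ∀ e ∈ cut s t X ∩ F, s e ∈ S ∨ t e ∈ S) →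
      O.card ≤ S.card) →
    ∃ L ⊆ F, ∀ v ∈ U, deg s t L v = 1

-- deps: TUT
def S_TUT2 : Prop :=
  ∀ (V E : Type) [Fintype V] [Fintype E] [DecidableEq V] [DecidableEq E] (s t : E → V)
    (U W : Finset V) (D : Finset E), (∀ v ∈ W, deg s t D v = 1) → (∀ v ∉ W, deg s t D v = 0) →
    (∀ (S : Finset V) (O : Finset (Finset V)), S ⊆ U \ W → Dj O →
      (∀ X ∈ O, X ⊆ U ∧ Odd X.card ∧ Onto s t X (S ∪ W)) → O.card ≤ S.card) →
    ∃ L, D ⊆ L ∧ ∀ v ∈ U, deg s t L v = 1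

-- deps: TUT2
def S_FIN : Prop :=
  ∀ (V E : Type) [Fintype V] [Fintype E] [DecidableEq V] [DecidableEq E] (s t : E → V)
    (y : E → ℤ) (Q : ℤ) (D : Finset E), (∀ e, s e ≠ t e) → 0 < Q → (∀ e, 0 ≤ y e) →
    (∀ v, vs s t y v = Q) → (∀ X : Finset V, Odd X.card → Q ≤ ∑ e ∈ cut s t X, y e) →
    (∀ c ∈ D, y c = Q) → ∃ M, PM s t M ∧ D ⊆ M

-- deps:
def S_RAT0 : Prop :=
  ∀ (X : Type) [Fintype X] [DecidableEq X] (G : Finset X) (μ : Finset X → ℝ), IsProb μ →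
    (∀ x ∈ G, pr μ (fun B => x ∈ B) = 1 / 3) →
    ∃ q : ℕ, 0 < q ∧ ∃ a : Fin (3 * q) → Finset X, (∀ i, μ (a i) ≠ 0) ∧
      ∀ x ∈ G, cnt (fun i => x ∈ a i) = q

-- deps: RAT0
def S_RAT : Prop :=
  ∀ N : ℕ, ∃ q : ℕ, 0 < q ∧ ∀ (G : Finset (Fin N)) (μ : Finset (Fin N) → ℝ), IsProb μ →
    (∀ x ∈ G, pr μ (fun B => x ∈ B) = 1 / 3) →
    ∃ a : Fin (3 * q) → Finset (Fin N), (∀ i, μ (a i) ≠ 0) ∧
      ∀ x ∈ G, cnt (fun i => x ∈ a i) = q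

-- deps: RAT
-- imports: Pool.Agent.P.MP_40718a_co.ABF.RM Pool.Agent.P.MP_40718a_co.ABF.GLb3
def S_LAW : Prop :=
  ∀ N : ℕ, ∃ q : ℕ, 0 < q ∧
    ∀ (V E : Type) [Fintype V] [Fintype E] [DecidableEq V] [DecidableEq E] (s t : E → V)
      (F : Finset E), Cubic s t → EC 2 s t → F.card ≤ N →
      ∃ M : Fin (3 * q) → Finset E, (∀ i, PM s t (M i)) ∧ ∀ e ∈ F, cnt (fun i => e ∈ M i) = q

-- deps: LAW
def S_ONE : Prop :=
  ∀ (V E : Type) [Fintype V] [Fintype E] [DecidableEq V] [DecidableEq E] (s t : E → V),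
    Cubic s t → EC 2 s t →
      (∀ D : Finset E, D.card ≤ 1 → ∃ M, PM s t M ∧ D ⊆ M) ∧
      ∀ (e : E) (P : Finset V), (cut s t P).card = 3 →
        ∃ M, PM s t M ∧ e ∈ M ∧ (M ∩ cut s t P).card = 1

-- deps: ONE
def S_COV : Prop :=
  ∀ (V E : Type) [Fintype V] [Fintype E] [DecidableEq V] [DecidableEq E] (s t : E → V),
    Cubic s t → EC 2 s t →
      (∀ (C : Type) [Fintype C] (cls : E → C) (K : ℕ), Fintype.card C ≤ K →
        (∀ κ, ∃ M, PM s t M ∧ ∀ e, cls e = κ → e ∈ M) → Cov s t K) ∧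
      (∀ K K', Cov s t K → K ≤ K' → Cov s t K') ∧
      ∀ K, 2 * Fintype.card V ≤ K → Cov s t K

/-! ### The copy graph -/

-- deps:
def S_CA : Prop :=
  ∀ (V E : Type) [Fintype V] [Fintype E] [DecidableEq V] [DecidableEq E] (s t : E → V)
    (c : E) (S : Finset V) (O : Finset (Finset V)), Cubic s t → EC 3 s t →
    Disjoint S (ends s t c) → Dj O →
    (∀ X ∈ O, X.Nonempty ∧ Onto s t X (S ∪ ends s t c)) →
    3 * O.card + (cut s t (S ∪ ends s t c ∪ O.biUnion id)).card ≤ 3 * S.card + 4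

-- deps:
def S_CB : Prop :=
  ∀ (V E : Type) [Fintype V] [Fintype E] [DecidableEq V] [DecidableEq E] (s t : E → V)
    (M : Finset E) (I T : Finset V) (O : Finset (Finset V)), PM s t M →
    (∀ e ∈ M, s e ∈ I ↔ t e ∈ I) → Dj O →
    (∀ X ∈ O, X ⊆ I ∧ Odd X.card ∧ Onto s t X T) → O.card ≤ (T ∩ I).card

-- deps: CA CB
def S_CC : Prop :=
  ∀ (V E : Type) [Fintype V] [Fintype E] [DecidableEq V] [DecidableEq E] (s t : E → V)
    (c : E) (M : Finset E) (I S R : Finset V) (O : Finset (Finset V)) (b : ℕ),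
    Cubic s t → EC 3 s t → PM s t M → (∀ e ∈ M, s e ∈ I ↔ t e ∈ I) →
    ball s t (ends s t c) b ⊆ I → Disjoint S (ends s t c) → Dj O →
    (∀ X ∈ O, X ⊆ I ∧ X ⊆ R ∧ Odd X.card ∧ Onto s t X (S ∪ ends s t c)) →
    S ∪ ends s t c ⊆ R → R.card ≤ b → R ≠ univ → O.card ≤ (S ∩ I).card

-- deps: CA CB CC
def S_CNT : Prop :=
  ∀ (V E : Type) [Fintype V] [Fintype E] [DecidableEq V] [DecidableEq E] (s t : E → V)
    (k : ℕ) (c : E) (M : Finset E) (I J SA : Finset V) (b nA : ℕ) (S : Fin k → Finset V)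
    (O OA : Fin k → Finset (Finset V)), 0 < k →
    Cubic s t → EC 3 s t → PM s t M → (∀ e ∈ M, s e ∈ I ↔ t e ∈ I) →
    ball s t (ends s t c) b ⊆ I → I ⊆ J → Small s t (6 * k) b → b < Jᶜ.card →
    (∀ j, S j ⊆ J ∧ S j \ I = SA ∧ Disjoint (S j) (ends s t c) ∧ (OA j).card = nA ∧
      Disjoint (O j) (OA j) ∧ Dj (O j ∪ OA j) ∧ (∀ X ∈ O j, X ⊆ I ∧ Odd X.card) ∧
      ∀ X ∈ O j ∪ OA j, X.Nonempty ∧ X ⊆ J ∧ Onto s t X (S j ∪ ends s t c)) →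
    ∑ j, (O j).card + nA ≤ ∑ j, (S j ∩ I).card + SA.card

-- deps: TUT2 CNT
def S_COPY : Prop :=
  ∀ (V E : Type) [Fintype V] [Fintype E] [DecidableEq V] [DecidableEq E] (s t : E → V)
    (k : ℕ) [NeZero k] (c : E) (M : Finset E) (I J : Finset V) (b : ℕ),
    Cubic s t → EC 3 s t → PM s t M → (∀ e ∈ M, s e ∈ I ↔ t e ∈ I) → I ⊆ J →
    ball s t (ends s t c) b ⊆ I → Small s t (6 * k) b → b < Jᶜ.card →
    ∃ L : Finset (E × Fin k), (∀ j, (c, j) ∈ L) ∧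
      ∀ x ∈ J, ∀ j, deg (ls s I) (ls t I) L (lf I x j) = 1

-- deps:
def S_TD : Prop :=
  ∀ (V E : Type) [Fintype V] [Fintype E] [DecidableEq V] [DecidableEq E] (s t : E → V)
    (k : ℕ) [NeZero k] (I : Finset V),
    (∀ (N : Finset (E × Fin k)) (x : V) (j : Fin k), deg (ls s I) (ls t I) N (lf I x j) =
      if x ∈ I then deg s t (sheet N j) x else ∑ i, deg s t (sheet N i) x) ∧
    (∀ (h : E × Fin k → ℤ) (x : V), vs s t (fun e => ∑ j, h (e, j)) x =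
      if x ∈ I then ∑ j, vs (ls s I) (ls t I) h (lf I x j)
      else vs (ls s I) (ls t I) h (lf I x 0)) ∧
    ∀ M : Finset E, PM s t M → (∀ e ∈ M, s e ∈ I ↔ t e ∈ I) → ∀ x j,
      deg (ls s I) (ls t I) (univ.filter fun e : E × Fin k => e.1 ∈ M ∧ (s e.1 ∈ I ∨ e.2 = 0))
        (lf I x j) = 1

-- deps:
def S_CMP : Prop :=
  ∀ (V E : Type) [Fintype V] [Fintype E] [DecidableEq V] [DecidableEq E] (s t : E → V)
    (U : Finset V) (L M : Finset E), (∀ v ∈ U, deg s t L v = 1) → (∀ v ∈ U, deg s t M v = 1) →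
    ∃ lab : V → Finset V, (∀ e ∈ L ∪ M, s e ∈ U → t e ∈ U → lab (s e) = lab (t e)) ∧
      ∀ a, (L ∩ cut s t (U.filter fun v => lab v = a)).card +
        (M ∩ cut s t (U.filter fun v => lab v = a)).card ≤ 2

-- deps: CMP
def S_PC : Prop :=
  ∀ (V E : Type) [Fintype V] [Fintype E] [DecidableEq V] [DecidableEq E] (s t : E → V)
    (k : ℕ) (U : Finset V) (L M : Finset E) (x : Fin k → V),
    (∀ v ∈ U, deg s t L v = 1) → (∀ v ∈ U, deg s t M v = 1) → (∀ l, x l ∈ U) →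
    ∃ φ : Fin k → E → ℤ,
      (∀ Λ : Finset (Fin k), ∃ N : Finset E, (∀ v ∈ U, deg s t N v = 1) ∧
        ∀ e, ∑ l ∈ Λ, φ l e = ind N e - ind M e) ∧
      (∀ e ∈ L, ∀ l, s e = x l → ∑ l, φ l e = 1 - ind M e) ∧
      (∀ l e, s e ∉ U → t e ∉ U → φ l e = 0) ∧ (∀ e, ∑ l, |φ l e| ≤ ind (L ∪ M) e) ∧
      ∀ l, ∑ f ∈ cut s t U, |φ l f| = 0 ∨ ∑ f ∈ cut s t U, |φ l f| = 2

-- deps: COPY PC TD
def S_L0 : Prop :=
  ∀ (V E : Type) [Fintype V] [Fintype E] [DecidableEq V] [DecidableEq E] (s t : E → V)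
    (k : ℕ) [NeZero k] (c : E) (M : Finset E) (I J : Finset V) (b : ℕ),
    Cubic s t → EC 3 s t → PM s t M → (∀ e ∈ M, s e ∈ I ↔ t e ∈ I) → ball s t I 1 ⊆ J →
    ball s t (ends s t c) b ⊆ I → Small s t (6 * k) b → b < Jᶜ.card →
    ∃ φ : Fin k → E → ℤ, Loc0 s t k c J M φ ∧ ∀ Λ : Finset (Fin k),
      ∃ N : Fin k → Finset E, Sheets s t I J N ∧ ∀ e, ∑ l ∈ Λ, φ l e =
        ∑ j, ind (N j) e - (if s e ∈ I then k else 1) * ind M e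

-- deps:
def S_INEQ : Prop :=
  ∀ (V E : Type) [Fintype V] [Fintype E] [DecidableEq V] [DecidableEq E] (s t : E → V)
    (k : ℕ) (M : Finset E) (I I' J X : Finset V) (N : Fin k → Finset E), 4 ≤ k → PM s t M →
    (∀ x, x ∈ I' ↔ ∃ e ∈ M ∩ ins s t I, s e = x ∨ t e = x) → Exp s t I J →
    Sheets s t I' J N → X ⊆ J → Odd X.card →
    ((cut s t X \ ins s t I).card ≤ 2 →
      k + (M ∩ (cut s t X \ ins s t I)).card ≤
        k * (M ∩ (cut s t X \ ins s t I)).card + ∑ j, (N j ∩ cut s t X).card) ∧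
    ((cut s t X \ ins s t I).card ≤ 3 →
      k + 3 * (M ∩ (cut s t X \ ins s t I)).card ≤
        k * (M ∩ (cut s t X \ ins s t I)).card + ∑ j, (N j ∩ cut s t X).card + 2)

-- deps: L0 INEQ
def S_L1 : Prop :=
  ∀ (V E : Type) [Fintype V] [Fintype E] [DecidableEq V] [DecidableEq E] (s t : E → V)
    (k : ℕ) (c : E) (M : Finset E) (I J : Finset V) (b : ℕ), 4 ≤ k →
    Cubic s t → EC 3 s t → PM s t M → ball s t I 1 ⊆ J →
    ball s t (ends s t c) (b + 1) ⊆ I → Small s t (6 * k) b → b < Jᶜ.card → Exp s t I J →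
    ∃ φ : Fin k → E → ℤ, Loc1 s t k c I J M φ

-- deps:
def S_LOC : Prop :=
  ∀ (V E : Type) [Fintype V] [Fintype E] [DecidableEq V] [DecidableEq E] (s t : E → V)
    (q k : ℕ) (c : E) (I J : Finset V) (M : Fin (3 * q) → Finset E)
    (φ : Fin (3 * q) → Fin k → E → ℤ), s c ∈ J →
    (∀ e, s e ∈ J ∨ t e ∈ J → cnt (fun i => e ∈ M i) = q) →
    (∀ i, Loc1 s t k c I J (M i) (φ i)) → Loc s t q k c I J fun w => φ w.1 w.2

-- deps: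
def S_MIN : Prop :=
  ∀ (V E : Type) [Fintype V] [Fintype E] [DecidableEq V] [DecidableEq E] (s t : E → V)
    (B Ω : Finset V) (a b : ℕ), Cubic s t → EC 1 s t → B ⊆ Ω → 3 * B.card ≤ a → Small s t a b →
    b < Ωᶜ.card → ∃ I, B ⊆ I ∧ I ⊆ Ω ∧ I.card ≤ b ∧ I ⊆ ball s t B b ∧ Exp s t I Ω

-- deps: MIN L1 LAW LOC
def S_PRE : Prop :=
  ∀ (bs : ℕ → ℕ) (k : ℕ), 4 ≤ k → ∃ q a n κ : ℕ, 0 < q ∧
    ∀ (V E : Type) [Fintype V] [Fintype E] [DecidableEq V] [DecidableEq E] (s t : E → V)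
      (c : E) (Ω : Finset V), Cubic s t → EC 3 s t → (∀ j < κ, Small s t j (bs j)) →
      ball s t (ends s t c) a ⊆ Ω → n < Ωᶜ.card →
      ∃ I J φ, Pre s t q k a (bs 5) n c Ω I J φ

/-! ### Routing -/

-- deps:
def S_DEN : Prop :=
  ∀ (V E : Type) [Fintype V] [Fintype E] [DecidableEq V] [DecidableEq E] (s t : E → V)
    (B Z K : Finset V) (ρ a p : ℕ), Near s t Z ρ → Disjoint K Z →
    (∃ r, a ≤ r ∧ r < a + p * (2 * ρ + 2) ∧ K ∩ ball s t B (r + 1) ⊆ ball s t B r) ∨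
    p ≤ (cut s t K ∩ ins s t (ball s t B (a + p * (2 * ρ + 2)) \ ball s t B a)).card

-- deps:
def S_TREE : Prop :=
  ∀ (V E : Type) [Fintype V] [Fintype E] [DecidableEq V] [DecidableEq E] (s t : E → V)
    (A : Finset E) (R : Finset V), ∃ (W : Finset V) (d : V → ℕ), R ⊆ W ∧
      Disjoint (cut s t W) A ∧ ∀ v ∈ W, v ∉ R → ∃ e ∈ A, ∃ u ∈ W, d u + 1 = d v ∧
        ((s e = v ∧ t e = u) ∨ (s e = u ∧ t e = v))

-- deps: TREE
def S_WALK : Prop :=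
  ∀ (V E : Type) [Fintype V] [Fintype E] [DecidableEq V] [DecidableEq E] (s t : E → V)
    (A : Finset E) (Z : Finset V) (w : V),
    (∀ Y : Finset V, w ∈ Y → Disjoint Y Z → (cut s t Y ∩ A).Nonempty) →
    ∃ (ψ : E → ℤ) (z : V) (ε : ℤ), z ∈ Z ∧ Sgn ε ∧ (∀ e, |ψ e| ≤ ind A e) ∧
      ∀ v, vs s t ψ v = pt w 1 v + pt z ε v

-- deps:
-- imports: Pool.Agent.P.MP_40718a_co.ABF.ED
def S_MG : Prop :=
  ∀ (V E : Type) [Fintype V] [Fintype E] [DecidableEq V] [DecidableEq E] (s t : E → V)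
    (P : Type) [Fintype P] (w : P → V) (F : Finset E) (Z : Finset V),
    (∀ Y : Finset V, Disjoint Y Z → cnt (fun p => w p ∈ Y) ≤ (cut s t Y ∩ F).card) →
    ∃ A : P → Finset E, (∀ p, A p ⊆ F ∧
      ∀ Y : Finset V, w p ∈ Y → Disjoint Y Z → (cut s t Y ∩ A p).Nonempty) ∧
      ∀ e, cnt (fun p => e ∈ A p) ≤ 2

-- deps: DEN MG WALK
def S_EXIT : Prop :=
  ∀ (V E : Type) [Fintype V] [Fintype E] [DecidableEq V] [DecidableEq E] (s t : E → V)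
    (B J Z : Finset V) (ρ a p : ℕ), Near s t Z ρ → J ⊆ ball s t B a → (cut s t J).card ≤ p →
    Exp s t J (ball s t B (a + p * (2 * ρ + 2))) →
    ∃ (ψ : E → E → ℤ) (z : E → V) (ε : E → ℤ),
      (∀ f ∈ cut s t J, z f ∈ Z ∧ Sgn (ε f) ∧
        (∀ e ∉ ins s t (ball s t B (a + p * (2 * ρ + 2)) \ J), ψ f e = 0) ∧
        ∀ v, vs s t (ψ f) v = pt (if s f ∈ J then t f else s f) 1 v + pt (z f) (ε f) v) ∧
      ∀ e, ∑ f ∈ cut s t J, |ψ f e| ≤ 2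

-- deps: EXIT
def S_OBJ : Prop :=
  ∀ (V E : Type) [Fintype V] [Fintype E] [DecidableEq V] [DecidableEq E] (s t : E → V)
    (q k : ℕ) (c : E) (B I J Z : Finset V) (ρ a p : ℕ) (φ : Fin (3 * q) × Fin k → E → ℤ),
    Loc s t q k c I J φ → Near s t Z ρ → J ⊆ ball s t B a → (cut s t J).card ≤ p →
    Exp s t J (ball s t B (a + p * (2 * ρ + 2))) →
    ∃ ψ, Obj s t q (ball s t B (a + p * (2 * ρ + 2))) J Z φ ψ

-- deps:
def S_SGT : Prop :=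
  ∀ (V O : Type) [DecidableEq V] [DecidableEq O] (r : V) (d : V → ℕ) (p : V → V)
    (W : Finset V) (D : Finset O) (a b : O → V) (x y : O → ℤ), r ∈ W →
    (∀ v ∈ W, v ≠ r → p v ∈ W ∧ d (p v) < d v) →
    (∀ o ∈ D, a o ∈ W ∧ b o ∈ W ∧ Sgn (x o) ∧ Sgn (y o)) → ∏ o ∈ D, -(x o * y o) = 1 →
    ∃ (σ : O → ℤ) (f : V → ℤ), (∀ o ∈ D, Sgn (σ o)) ∧ (∀ v, |f v| ≤ 2) ∧ f r = 0 ∧
      ∀ v ∈ W, f v = ∑ o ∈ D, σ o * (pt (a o) (x o) v + pt (b o) (y o) v) +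
        ∑ u ∈ (W.erase r).filter fun u => p u = v, f u

-- deps: TREE SGT
def S_SG : Prop :=
  ∀ (V E : Type) [Fintype V] [Fintype E] [DecidableEq V] [DecidableEq E] (s t : E → V)
    (O : Type) [DecidableEq O] (A : Finset E) (Z : Finset V) (D : Finset O) (a b : O → V)
    (α β : O → ℤ), Lk s t A Z → (∀ o ∈ D, a o ∈ Z ∧ b o ∈ Z ∧ Sgn (α o) ∧ Sgn (β o)) →
    ∃ (σ : O → ℤ) (g : E → ℤ), Sig D σ ∧ (∀ e, |g e| ≤ 2 * ind A e) ∧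
      ∀ v, vs s t g v + ∑ o ∈ D, σ o * (pt (a o) (α o) v + pt (b o) (β o) v) = 0

/-! ### Nested classes -/

-- deps:
def S_NEST : Prop :=
  ∀ n : ℕ, ∃ K : ℕ, ∀ (C : Type) [DecidableEq C] (R : ℕ → (C → ℤ) → Prop) (D : Finset C),
    (∀ i < n, ∀ D' ⊆ D, ∃ σ, Sig D' σ ∧ R i σ ∧ R i fun c => -σ c) →
    ∃ cls : C → Fin K, ∀ κ, (D.filter fun c => cls c = κ).card ≤ 1 ∨
      ∃ σ : ℕ → C → ℤ, (∀ i < n, R i (σ i)) ∧ (∀ c ∉ D, ∀ i, σ i c = 0) ∧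
        ∀ c ∈ D, ∃ τ, (cls c = κ → n ≤ τ) ∧ ∀ i < n, (i < τ → σ i c = 1) ∧
          (i = τ → σ i c = 0 ∨ σ i c = -1) ∧ (τ < i → σ i c = 0)

-- deps: NEST
def S_NEST2 : Prop :=
  ∀ (m : ℕ) (W : Type) [Fintype W], ∃ K : ℕ, ∀ (C : Type) [DecidableEq C]
    (R : Fin m → W → (C → ℤ) → Prop) (D : Finset C),
    (∀ i w, ∀ D' ⊆ D, ∃ σ, Sig D' σ ∧ R i w σ ∧ R i w fun c => -σ c) →
    ∃ cls : C → Fin K, ∀ κ, (D.filter fun c => cls c = κ).card ≤ 1 ∨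
      ∃ σ : Fin m → W → C → ℤ, (∀ i w, R i w (σ i w)) ∧ ∀ c ∈ D, (∀ i w, |σ i w c| ≤ 1) ∧
        ((∀ w, 0 ≤ ∑ i, σ i w c) ∨ ∀ w, |∑ i, σ i w c| ≤ 1) ∧
        (cls c = κ → ∀ i w, σ i w c = 1)

-- deps:
def S_CAKE : Prop :=
  ∀ (V E : Type) [Fintype V] [Fintype E] [DecidableEq V] [DecidableEq E] (s t : E → V)
    (q k m : ℕ) (c : E) (I J : Finset V) (φ : Fin (3 * q) × Fin k → E → ℤ)
    (n : Fin (3 * q) × Fin k → ℤ), Loc s t q k c I J φ → (∀ w, 0 ≤ n w ∧ n w ≤ m) →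
    (∀ e, 0 ≤ q * k * m + ∑ w, n w * φ w e) ∧
    (∀ e ∉ ins s t I, -(q * m : ℤ) ≤ ∑ w, n w * φ w e) ∧
    ∀ X ⊆ J, Odd X.card → (cut s t X \ ins s t I).card ≤ 3 →
      (3 * q * k * m : ℤ) ≤ ∑ e ∈ cut s t X, (q * k * m + ∑ w, n w * φ w e)

-- deps:
def S_YA : Prop :=
  ∀ (V E : Type) [Fintype V] [Fintype E] [DecidableEq V] [DecidableEq E] (s t : E → V)
    (q k m ld : ℕ) (D : Finset E) (J Ω : E → Finset V)
    (φ : E → Fin (3 * q) × Fin k → E → ℤ) (ψ : E → Fin m → Fin (3 * q) × Fin k → E → ℤ)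
    (σ g : Fin m → Fin (3 * q) × Fin k → E → ℤ) (A : Fin m → Finset E),
    (∀ c ∈ D, ball s t (J c) 1 ⊆ Ω c ∧ (∀ w e, s e ∉ J c → t e ∉ J c → φ c w e = 0) ∧
      ∀ i, (∀ w, ∀ e ∉ ins s t (Ω c \ J c), ψ c i w e = 0) ∧
        (∀ e, ∑ w, |ψ c i w e| ≤ 12 * q) ∧ (∀ e ∈ A i, s e ∉ J c ∧ t e ∉ J c) ∧
        ∀ w, |σ i w c| ≤ 1) →
    (∀ c ∈ D, ∀ c' ∈ D, c ≠ c' → Disjoint (Ω c) (Ω c')) →
    (∀ i w e, |g i w e| ≤ 2 * ind (A i) e) → (∀ e, cnt (fun i => e ∈ A i) ≤ ld) →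
    (∀ c ∈ D, ∀ e, s e ∈ J c ∨ t e ∈ J c →
      yv q k m D φ ψ σ g e = q * k * m + ∑ w, (∑ i, σ i w c) * φ c w e) ∧
    ∀ e, (∀ c ∈ D, s e ∉ J c ∧ t e ∉ J c) →
      (q * k * m - 12 * q * m - 6 * q * k * ld : ℤ) ≤ yv q k m D φ ψ σ g e

-- deps: CAKE
def S_YB : Prop :=
  ∀ (V E : Type) [Fintype V] [Fintype E] [DecidableEq V] [DecidableEq E] (s t : E → V)
    (q k m ld : ℕ) (D : Finset E) (I J : E → Finset V) (φ : E → Fin (3 * q) × Fin k → E → ℤ)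
    (n : E → Fin (3 * q) × Fin k → ℤ) (y : E → ℤ), 96 ≤ k → 48 * ld ≤ m → 12 ≤ m →
    (∀ c ∈ D, Loc s t q k c (I c) (J c) (φ c) ∧ (∀ w, n c w ≤ m) ∧
      ((∀ w, 0 ≤ n c w) ∨ ∀ w, |n c w| ≤ 1)) →
    (∀ c ∈ D, ∀ e, s e ∈ J c ∨ t e ∈ J c → y e = q * k * m + ∑ w, n c w * φ c w e) →
    (∀ e, (∀ c ∈ D, s e ∉ J c ∧ t e ∉ J c) →
      (q * k * m - 12 * q * m - 6 * q * k * ld : ℤ) ≤ y e) →
    (∀ e, 0 ≤ y e) ∧
    (∀ e, (∀ c ∈ D, (∀ w, 0 ≤ n c w) → e ∉ ins s t (I c)) → (3 * q * k * m : ℤ) ≤ 4 * y e) ∧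
    ∀ c ∈ D, (∀ w, 0 ≤ n c w) → ∀ X ⊆ J c, Odd X.card →
      (cut s t X \ ins s t (I c)).card ≤ 3 → (3 * q * k * m : ℤ) ≤ ∑ e ∈ cut s t X, y e

-- deps: DEN
def S_CUT : Prop :=
  ∀ (V E : Type) [Fintype V] [Fintype E] [DecidableEq V] [DecidableEq E] (s t : E → V)
    (y : E → ℤ) (Q : ℤ) (D : Finset E) (I J : E → Finset V) (a p ρ b : ℕ),
    Cubic s t → Small s t 3 1 → Small s t 5 b → 4 ≤ p → (∀ e, 0 ≤ y e) →
    (∀ v, vs s t y v = Q) → (∀ e, (∀ c ∈ D, e ∉ ins s t (I c)) → Q ≤ 4 * y e) →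
    (∀ c ∈ D, I c ⊆ ball s t (ends s t c) a ∧ ball s t (I c) b ⊆ J c ∧
      Exp s t (I c) (ball s t (ends s t c) (a + p * (2 * ρ + 2))) ∧
      b < (ball s t (ends s t c) (a + p * (2 * ρ + 2)))ᶜ.card ∧
      (∀ c' ∈ D, c ≠ c' → Disjoint (ball s t (ends s t c) (a + p * (2 * ρ + 2))) (I c')) ∧
      ∀ X ⊆ J c, Odd X.card → (cut s t X \ ins s t (I c)).card ≤ 3 →
        Q ≤ ∑ e ∈ cut s t X, y e) →
    (∀ F : Finset E, F.card ≤ 3 → ∃ (A : Finset E) (Z : Finset V), Lk s t A Z ∧ Near s t Z ρ ∧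
      Disjoint A F ∧ ∀ c ∈ D, Disjoint A (ins s t (I c))) →
    ∀ X : Finset V, Odd X.card → Q ≤ ∑ e ∈ cut s t X, y e

-- deps: SG NEST2
def S_SGN : Prop :=
  ∀ q k m : ℕ, ∃ K : ℕ,
    ∀ (V E : Type) [Fintype V] [Fintype E] [DecidableEq V] [DecidableEq E] (s t : E → V)
      (D : Finset E) (J Ω : E → Finset V) (φ : E → Fin (3 * q) × Fin k → E → ℤ)
      (ψ : E → Fin m → Fin (3 * q) × Fin k → E → ℤ) (A : Fin m → Finset E)
      (Z : Fin m → Finset V), Cubic s t → (∀ i, Lk s t (A i) (Z i)) →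
      (∀ c ∈ D, ∀ i, Obj s t q (Ω c) (J c) (Z i) (φ c) (ψ c i)) →
      ∃ cls : E → Fin K, ∀ κ, (D.filter fun c => cls c = κ).card ≤ 1 ∨
        ∃ σ g : Fin m → Fin (3 * q) × Fin k → E → ℤ,
          (∀ i w e, |g i w e| ≤ 2 * ind (A i) e) ∧
          (∀ v, vs s t (yv q k m D φ ψ σ g) v = 3 * q * k * m) ∧
          ∀ c ∈ D, (∀ i w, |σ i w c| ≤ 1) ∧
            ((∀ w, 0 ≤ ∑ i, σ i w c) ∨ ∀ w, |∑ i, σ i w c| ≤ 1) ∧
            (cls c = κ → ∀ i w, σ i w c = 1)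

-- deps: OBJ SGN YA YB CUT FIN ONE
def S_CLS : Prop :=
  ∀ q k m : ℕ, ∃ K : ℕ,
    ∀ (V E : Type) [Fintype V] [Fintype E] [DecidableEq V] [DecidableEq E] (s t : E → V)
      (ld a p ρ b n : ℕ) (D : Finset E) (I J : E → Finset V)
      (φ : E → Fin (3 * q) × Fin k → E → ℤ) (A : Fin m → Finset E) (Z : Fin m → Finset V),
      Cubic s t → Small s t 3 1 → Small s t 5 b → 0 < q → 96 ≤ k → 48 * ld ≤ m → 12 ≤ m →
      4 ≤ p → 3 * n ≤ p →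
      (∀ c ∈ D, Pre s t q k a b n c (ball s t (ends s t c) (a + p * (2 * ρ + 2))) (I c) (J c)
        (φ c) ∧ b < (ball s t (ends s t c) (a + p * (2 * ρ + 2)))ᶜ.card) →
      (∀ c ∈ D, ∀ c' ∈ D, c ≠ c' → Disjoint (ball s t (ends s t c) (a + p * (2 * ρ + 2)))
        (ball s t (ends s t c') (a + p * (2 * ρ + 2)))) →
      (∀ i, Lk s t (A i) (Z i) ∧ Near s t (Z i) ρ ∧
        ∀ c ∈ D, ∀ e ∈ A i, s e ∉ J c ∧ t e ∉ J c) →
      (∀ e, cnt (fun i => e ∈ A i) ≤ ld) →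
      ∃ cls : E → Fin K, ∀ κ, ∃ M, PM s t M ∧ ∀ c ∈ D, cls c = κ → c ∈ M

/-! ### Skeletons -/

-- deps:
-- imports: Pool.Agent.P.MP_40718a_co.ABF.TJ Pool.Agent.P.MP_40718a_co.ABF.ED
def S_STE : Prop :=
  ∀ (V E : Type) [Fintype V] [Fintype E] [DecidableEq V] [DecidableEq E] (s t : E → V)
    (T : Finset V) (F : Finset E) (k : ℕ), (∀ v, Even (deg s t F v)) →
    (∀ X : Finset V, (X ∩ T).Nonempty → (T \ X).Nonempty → 2 * k ≤ (cut s t X ∩ F).card) →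
    ∃ B : Fin k → Finset E, (∀ j, B j ⊆ F ∧ Lk s t (B j) T) ∧ ∀ e, cnt (fun j => e ∈ B j) ≤ 2

-- deps: STE
def S_ST : Prop :=
  ∀ (V E : Type) [Fintype V] [Fintype E] [DecidableEq V] [DecidableEq E] (s t : E → V)
    (T : Finset V) (A : Finset E) (k : ℕ),
    (∀ X : Finset V, (X ∩ T).Nonempty → (T \ X).Nonempty →
      k ≤ (cut s t X).card ∨ (cut s t X ∩ A).Nonempty) →
    ∃ B : Fin k → Finset E, (∀ j, Lk s t (B j) T) ∧ ∀ e ∉ A, cnt (fun j => e ∈ B j) ≤ 4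

-- deps:
def S_GEO : Prop :=
  ∀ (V E : Type) [Fintype V] [Fintype E] [DecidableEq V] [DecidableEq E] (s t : E → V)
    (R : ℕ) (z : V), Cubic s t → EC 1 s t → 4 ^ R < Fintype.card V →
    ∃ x : ℕ → V, (∀ i ≤ R, x i ∈ ball s t {z} R) ∧ (∀ i ≤ R, ∀ j ≤ R, x i = x j → i = j) ∧
      ∀ i < R, ∃ e, (s e = x i ∧ t e = x (i + 1)) ∨ (t e = x i ∧ s e = x (i + 1))

-- deps: GEO
def S_BLOB : Prop :=
  ∀ (V E : Type) [Fintype V] [Fintype E] [DecidableEq V] [DecidableEq E] (s t : E → V)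
    (H L : ℕ), Cubic s t → EC 1 s t → 4 ^ (H * (L + 1)) < Fintype.card V →
    ∃ T : Fin H → Finset V, (∀ h h', h ≠ h' → Disjoint (T h) (T h')) ∧
      ∀ h, Near s t (T h) (4 * (H * (L + 1))) ∧ ∀ X : Finset V, (X ∩ T h).Nonempty →
        Disjoint (cut s t X) (ins s t (T h)) → L < X.card

-- deps: BLOB ST
def S_SK : Prop :=
  ∀ (V E : Type) [Fintype V] [Fintype E] [DecidableEq V] [DecidableEq E] (s t : E → V)
    (H L : ℕ), Cubic s t → EC 1 s t → Small s t H L → 4 ^ (H * (L + 1)) < Fintype.card V →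
    ∃ (A : Fin H × Fin H → Finset E) (Z : Fin H × Fin H → Finset V),
      (∀ i, Lk s t (A i) (Z i) ∧ Near s t (Z i) (4 * (H * (L + 1)))) ∧
      ∀ e, cnt (fun i => e ∈ A i) ≤ 5 * H

-- deps:
def S_PAT : Prop :=
  ∀ (V E : Type) [Fintype V] [Fintype E] [DecidableEq V] [DecidableEq E] (s t : E → V)
    (H n : ℕ) (A : Fin H × Fin H → Finset E) (J : Finset V), Cubic s t → 240 + 15 * n ≤ H →
    J.card ≤ n → (∀ e, cnt (fun i => e ∈ A i) ≤ 5 * H) →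
    ∃ τ : Fin (240 * H) → Fin H × Fin H, Function.Injective τ ∧
      ∀ i, ∀ e ∈ A (τ i), s e ∉ J ∧ t e ∉ J

-- deps:
def S_COL : Prop :=
  ∀ r : ℕ, ∃ d : ℕ,
    ∀ (V E : Type) [Fintype V] [Fintype E] [DecidableEq V] [DecidableEq E] (s t : E → V),
      Cubic s t → ∃ col : E → Fin d, ∀ c c', c ≠ c' → col c = col c' →
        Disjoint (ball s t (ends s t c) r) (ball s t (ends s t c') r)

-- deps: PRE SK PAT COL CLS COV
def S_M4 : Prop :=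
  ∀ β : ℕ → ℕ, ∃ κ K : ℕ,
    ∀ (V E : Type) [Fintype V] [Fintype E] [DecidableEq V] [DecidableEq E] (s t : E → V),
      Cubic s t → Small s t 3 1 → Beta s t β κ → Cov s t K

/-! ### Small cuts -/

-- deps:
def S_PART : Prop :=
  ∀ (V E : Type) [Fintype V] [Fintype E] [DecidableEq V] [DecidableEq E] (s t : E → V) (b : ℕ),
    Cubic s t → EC 2 s t → Small s t 3 b → 1 ≤ b → 3 * b < Fintype.card V →
    ∃ π : V → V, (∀ v, (cut s t (univ.filter fun u => π u = π v)).card = 3 ∧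
        (univ.filter fun u => π u = π v).card ≤ b) ∧
      ∀ X : Finset V, (∀ u v, π u = π v → u ∈ X → v ∈ X) → (cut s t X).card ≤ 3 →
        (X.image π).card ≤ 1 ∨ (Xᶜ.image π).card ≤ 1

-- deps: ONE
def S_EXT : Prop :=
  ∀ (V E : Type) [Fintype V] [Fintype E] [DecidableEq V] [DecidableEq E] (s t : E → V)
    (b K : ℕ) (π : V → V) (M : Fin K → Finset E), Cubic s t → EC 2 s t →
    (∀ v, (cut s t (univ.filter fun u => π u = π v)).card = 3 ∧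
      (univ.filter fun u => π u = π v).card ≤ b) →
    (∀ i, (∀ e ∈ M i, π (s e) ≠ π (t e)) ∧
      ∀ v, (M i ∩ cut s t (univ.filter fun u => π u = π v)).card = 1) →
    (∀ e, π (s e) ≠ π (t e) → ∃ i, e ∈ M i) → Cov s t (K * (2 * b + 1))

-- deps:
def S_QUO : Prop :=
  ∀ (V E : Type) [Fintype V] [Fintype E] [DecidableEq V] [DecidableEq E] (s t : E → V)
    (β : ℕ → ℕ) (κ K : ℕ) (π : V → V),
    (∀ (V' E' : Type) [Fintype V'] [Fintype E'] [DecidableEq V'] [DecidableEq E']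
      (s' t' : E' → V'), Cubic s' t' → Small s' t' 3 1 → Beta s' t' β κ → Cov s' t' K) →
    Beta s t β κ → (∀ v, (cut s t (univ.filter fun u => π u = π v)).card = 3) →
    (∀ X : Finset V, (∀ u v, π u = π v → u ∈ X → v ∈ X) → (cut s t X).card ≤ 3 →
      (X.image π).card ≤ 1 ∨ (Xᶜ.image π).card ≤ 1) →
    ∃ M : Fin K → Finset E, (∀ i, (∀ e ∈ M i, π (s e) ≠ π (t e)) ∧
      ∀ v, (M i ∩ cut s t (univ.filter fun u => π u = π v)).card = 1) ∧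
      ∀ e, π (s e) ≠ π (t e) → ∃ i, e ∈ M i

-- deps: M4 PART QUO EXT COV
def S_M2 : Prop :=
  ∀ β : ℕ → ℕ, ∃ κ K : ℕ,
    ∀ (V E : Type) [Fintype V] [Fintype E] [DecidableEq V] [DecidableEq E] (s t : E → V),
      Cubic s t → EC 2 s t → Beta s t β κ → Cov s t K

end Pool.Agent.P.MP_40718a_co.Bc
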